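import Mathlib
import Pool.Agent.TH278.DX.Defs
set_option autoImplicit false

/-!
# Distance to the commutant from invariant operators on the doubled space (job 4772)
-/

namespace Pool.Agent.TH993.DX

open Pool.Agent.TH278.DX

noncomputable section

variable {H : Type} [NormedAddCommGroup H] [InnerProductSpace ℂ H]

/-- The operator with matrix `(a, b; 0, c)` on the doubled space. -/
def bl (a b c : H →L[ℂ] H) : WithLp 2 (H × H) →L[ℂ] WithLp 2 (H × H) :=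
  ((WithLp.prodContinuousLinearEquiv 2 ℂ H H).symm : (H × H) →L[ℂ] WithLp 2 (H × H)) ∘L
    ((a.comp (ContinuousLinearMap.fst ℂ H H) + b.comp (ContinuousLinearMap.snd ℂ H H)).prod
      (c.comp (ContinuousLinearMap.snd ℂ H H))) ∘L
    ((WithLp.prodContinuousLinearEquiv 2 ℂ H H) : WithLp 2 (H × H) →L[ℂ] (H × H))

lemma bl_fst (a b c : H →L[ℂ] H) (v : WithLp 2 (H × H)) :
    (bl a b c v).fst = a v.fst + b v.snd := rfl

lemma bl_snd (a b c : H →L[ℂ] H) (v : WithLp 2 (H × H)) :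
    (bl a b c v).snd = c v.snd := rfl

omit [NormedAddCommGroup H] [InnerProductSpace ℂ H] in
lemma ext2 {v w : WithLp 2 (H × H)} (h1 : v.fst = w.fst) (h2 : v.snd = w.snd) : v = w := by
  apply WithLp.ofLp_injective
  exact Prod.ext h1 h2

/-- First inclusion. -/
def i1 : H →L[ℂ] WithLp 2 (H × H) :=
  ((WithLp.prodContinuousLinearEquiv 2 ℂ H H).symm : (H × H) →L[ℂ] WithLp 2 (H × H)) ∘L
    (ContinuousLinearMap.inl ℂ H H)

/-- Second inclusion. -/
def i2 : H →L[ℂ] WithLp 2 (H × H) :=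
  ((WithLp.prodContinuousLinearEquiv 2 ℂ H H).symm : (H × H) →L[ℂ] WithLp 2 (H × H)) ∘L
    (ContinuousLinearMap.inr ℂ H H)

/-- First projection. -/
def p1 : WithLp 2 (H × H) →L[ℂ] H :=
  (ContinuousLinearMap.fst ℂ H H) ∘L
    ((WithLp.prodContinuousLinearEquiv 2 ℂ H H) : WithLp 2 (H × H) →L[ℂ] (H × H))

lemma i1_fst (x : H) : (i1 x : WithLp 2 (H × H)).fst = x := rfl
lemma i1_snd (x : H) : (i1 x : WithLp 2 (H × H)).snd = 0 := rfl
lemma i2_fst (x : H) : (i2 x : WithLp 2 (H × H)).fst = 0 := rfl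
lemma i2_snd (x : H) : (i2 x : WithLp 2 (H × H)).snd = x := rfl
lemma p1_apply (v : WithLp 2 (H × H)) : p1 v = v.fst := rfl

lemma norm_i1 (x : H) : ‖(i1 x : WithLp 2 (H × H))‖ ^ 2 = ‖x‖ ^ 2 := by
  rw [WithLp.prod_norm_sq_eq_of_L2, i1_fst, i1_snd]; simp

lemma norm_i2 (x : H) : ‖(i2 x : WithLp 2 (H × H))‖ ^ 2 = ‖x‖ ^ 2 := by
  rw [WithLp.prod_norm_sq_eq_of_L2, i2_fst, i2_snd]; simp

lemma inner_i1 (v : WithLp 2 (H × H)) (y : H) :
    inner ℂ v (i1 y) = inner ℂ v.fst y := by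
  rw [WithLp.prod_inner_apply]
  change inner ℂ v.fst y + inner ℂ v.snd (0 : H) = _
  simp

lemma bl_mul (a b c a' b' c' : H →L[ℂ] H) :
    bl a b c * bl a' b' c' = bl (a * a') (a * b' + b * c') (c * c') := by
  ext v
  apply ext2
  · simp only [mul_apply_eq_comp, bl_fst, bl_snd, add_apply,
      map_add, add_assoc]
  · simp only [mul_apply_eq_comp, bl_snd]

lemma bl_one : bl (1 : H →L[ℂ] H) 0 1 = 1 := by
  ext v
  apply ext2
  · simp only [bl_fst, one_apply_eq_self, zero_apply, add_zero]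
  · simp only [bl_snd, one_apply_eq_self]

lemma bl_i1 (a b c : H →L[ℂ] H) (x : H) : bl a b c (i1 x) = i1 (a x) := by
  apply ext2
  · simp only [bl_fst, i1_fst, i1_snd, map_zero, add_zero]
  · simp only [bl_snd, i1_snd, map_zero]

lemma bl_i2 (a b c : H →L[ℂ] H) (x : H) : bl a b c (i2 x) = i1 (b x) + i2 (c x) := by
  apply ext2
  · rw [bl_fst, i2_fst, i2_snd, map_zero, zero_add]
    change b x = b x + 0
    rw [add_zero]
  · rw [bl_snd, i2_snd]
    change c x = 0 + c x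
    rw [zero_add]

/-- The homomorphism into the bounded operators of the doubled space given by the inner
derivation of `T`. -/
def hom2 {G : Type} [Group G] (σ : G →* (H →L[ℂ] H)ˣ) (T : H →L[ℂ] H) :
    G →* (WithLp 2 (H × H) →L[ℂ] WithLp 2 (H × H)) where
  toFun g := bl ((σ g : (H →L[ℂ] H)ˣ) : H →L[ℂ] H)
    (((σ g : (H →L[ℂ] H)ˣ) : H →L[ℂ] H) * T - T * ((σ g : (H →L[ℂ] H)ˣ) : H →L[ℂ] H))
    ((σ g : (H →L[ℂ] H)ˣ) : H →L[ℂ] H)
  map_one' := by
    simp only [map_one, Units.val_one, one_mul, mul_one, sub_self]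
    exact bl_one
  map_mul' g h := by
    rw [bl_mul]
    simp only [map_mul, Units.val_mul]
    congr 1
    noncomm_ring

lemma norm_unitary [CompleteSpace H] {U : H →L[ℂ] H} (hU : U ∈ unitary (H →L[ℂ] H)) (x : H) :
    ‖U x‖ = ‖x‖ := by
  have h1 : inner ℂ (U x) (U x) = inner ℂ x x := by
    rw [← ContinuousLinearMap.adjoint_inner_left, ← ContinuousLinearMap.star_eq_adjoint]
    have h2 : star U (U x) = x := by
      have := (Unitary.mem_iff.1 hU).1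
      calc star U (U x) = (star U * U) x := rfl
        _ = x := by rw [this]; rfl
    rw [h2]
  have h3 : ‖U x‖ ^ 2 = ‖x‖ ^ 2 := by
    rw [← inner_self_eq_norm_sq (𝕜 := ℂ), ← inner_self_eq_norm_sq (𝕜 := ℂ), h1]
  exact (sq_eq_sq₀ (norm_nonneg _) (norm_nonneg _)).1 h3

lemma norm_bl_le [CompleteSpace H] {U D : H →L[ℂ] H} (hU : U ∈ unitary (H →L[ℂ] H))
    (hD : ‖D‖ ≤ 1) : ‖bl U D U‖ ≤ 2 := by
  refine ContinuousLinearMap.opNorm_le_bound _ (by norm_num) fun v => ?_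
  refine (sq_le_sq₀ (norm_nonneg _) (by positivity)).1 ?_
  rw [mul_pow, WithLp.prod_norm_sq_eq_of_L2, WithLp.prod_norm_sq_eq_of_L2, bl_fst, bl_snd,
    norm_unitary hU]
  have h1 : ‖U v.fst + D v.snd‖ ≤ ‖v.fst‖ + ‖v.snd‖ := by
    refine (norm_add_le _ _).trans ?_
    rw [norm_unitary hU]
    have := D.le_of_opNorm_le hD v.snd
    linarith
  have h2 : ‖U v.fst + D v.snd‖ ^ 2 ≤ (‖v.fst‖ + ‖v.snd‖) ^ 2 := by gcongr
  nlinarith [sq_nonneg (‖v.fst‖ - ‖v.snd‖), sq_nonneg ‖v.fst‖, sq_nonneg ‖v.snd‖]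

lemma inner_unitary [CompleteSpace H] {U : H →L[ℂ] H} (hU : U ∈ unitary (H →L[ℂ] H)) (x y : H) :
    inner ℂ (U x) (U y) = inner ℂ x y := by
  rw [← ContinuousLinearMap.adjoint_inner_left, ← ContinuousLinearMap.star_eq_adjoint]
  have h2 : star U (U x) = x := by
    have := (Unitary.mem_iff.1 hU).1
    calc star U (U x) = (star U * U) x := rfl
      _ = x := by rw [this]; rfl
  rw [h2]

lemma surj_unitary [CompleteSpace H] {U : H →L[ℂ] H} (hU : U ∈ unitary (H →L[ℂ] H)) (y : H) :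
    ∃ z, U z = y := by
  refine ⟨star U y, ?_⟩
  have := (Unitary.mem_iff.1 hU).2
  calc U (star U y) = (U * star U) y := rfl
    _ = y := by rw [this]; rfl

lemma norm_apply_le {K : Type} [NormedAddCommGroup K] [InnerProductSpace ℂ K] {M : ℝ}
    (A : K →L[ℂ] K) (hs : ∀ x y : K, inner ℂ (A x) y = inner ℂ x (A y))
    (h0 : ∀ x : K, 0 ≤ (inner ℂ (A x) x).re)
    (hM : ∀ x : K, (inner ℂ (A x) x).re ≤ M * ‖x‖ ^ 2) (hM0 : 0 ≤ M) (x : K) :
    ‖A x‖ ≤ M * ‖x‖ := by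
  by_cases hAx : A x = 0
  · rw [hAx, norm_zero]; positivity
  by_cases hx : x = 0
  · subst hx; simp at hAx
  have hA0 : 0 < ‖A x‖ := norm_pos_iff.2 hAx
  have hx0 : 0 < ‖x‖ := norm_pos_iff.2 hx
  set t : ℝ := ‖x‖ / ‖A x‖ with ht
  have ht0 : 0 < t := by positivity
  set y : K := (t : ℂ) • A x with hy
  have hyn : ‖y‖ = ‖x‖ := by
    rw [hy, norm_smul, Complex.norm_real, Real.norm_of_nonneg ht0.le, ht]
    field_simp
  have h1 : (inner ℂ (A x) y).re = ‖x‖ * ‖A x‖ := by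
    rw [hy, inner_smul_right, inner_self_eq_norm_sq_to_K]
    rw [← Complex.coe_algebraMap, ← map_pow, Complex.coe_algebraMap, ← Complex.ofReal_mul,
      Complex.ofReal_re, ht]
    field_simp
  have h2 : (inner ℂ (A y) x).re = (inner ℂ (A x) y).re := by
    rw [hs, ← inner_conj_symm, Complex.conj_re]
  have h3 : (inner ℂ (A (x + y)) (x + y)).re - (inner ℂ (A (x - y)) (x - y)).re
      = 4 * (inner ℂ (A x) y).re := by
    simp only [map_add, map_sub, inner_add_left, inner_add_right, inner_sub_left, inner_sub_right,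
      Complex.add_re, Complex.sub_re]
    rw [h2]; ring
  have h4 := h0 (x - y)
  have h5 := hM (x + y)
  have h6 : ‖x + y‖ ≤ 2 * ‖x‖ := by
    refine (norm_add_le _ _).trans ?_
    rw [hyn]; linarith
  have h7 : ‖x + y‖ ^ 2 ≤ (2 * ‖x‖) ^ 2 := by gcongr
  have h8 : ‖x‖ * ‖A x‖ ≤ ‖x‖ * (M * ‖x‖) := by nlinarith
  exact le_of_mul_le_mul_left h8 hx0

lemma exists_inv [CompleteSpace H] (A : H →L[ℂ] H)
    (hA : ∀ x : H, ‖x‖ ^ 2 ≤ (inner ℂ (A x) x).re) :
    ∃ B : H →L[ℂ] H, B * A = 1 ∧ A * B = 1 ∧ ‖B‖ ≤ 1 := by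
  have hu : IsUnit A := by
    refine ContinuousLinearMap.isUnit_of_forall_le_norm_inner_map A (c := 1) one_pos fun x => ?_
    rw [NNReal.coe_one, mul_one]
    exact (hA x).trans (Complex.re_le_norm _)
  obtain ⟨u, rfl⟩ := hu
  refine ⟨((u⁻¹ : (H →L[ℂ] H)ˣ) : H →L[ℂ] H), u.inv_mul, u.mul_inv, ?_⟩
  refine ContinuousLinearMap.opNorm_le_bound _ zero_le_one fun x => ?_
  rw [one_mul]
  set z := ((u⁻¹ : (H →L[ℂ] H)ˣ) : H →L[ℂ] H) x with hz
  have h1 : (u : H →L[ℂ] H) z = x := by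
    have := u.mul_inv
    calc (u : H →L[ℂ] H) z = ((u : H →L[ℂ] H) * ((u⁻¹ : (H →L[ℂ] H)ˣ) : H →L[ℂ] H)) x := rfl
      _ = x := by rw [this]; rfl
  have h2 := hA z
  rw [h1] at h2
  have h3 : (inner ℂ x z).re ≤ ‖x‖ * ‖z‖ :=
    (Complex.re_le_norm _).trans (norm_inner_le_norm _ _)
  by_contra hlt
  push Not at hlt
  have : 0 < ‖z‖ := (norm_nonneg x).trans_lt hlt
  nlinarith

lemma core [CompleteSpace H] {G : Type} [Group G] (M : ℝ) (hM1 : 1 ≤ M)
    (σ : G →* (H →L[ℂ] H)ˣ)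
    (hσ : ∀ g, ((σ g : (H →L[ℂ] H)ˣ) : H →L[ℂ] H) ∈ unitary (H →L[ℂ] H)) (T : H →L[ℂ] H)
    (hI : Inv (hom2 σ T).toHomUnits 1 M) :
    ∃ C : H →L[ℂ] H, (∀ g, C * ((σ g : (H →L[ℂ] H)ˣ) : H →L[ℂ] H) =
        ((σ g : (H →L[ℂ] H)ˣ) : H →L[ℂ] H) * C) ∧ ‖T - C‖ ≤ M := by
  obtain ⟨A, hs, hlow, hup, hinv⟩ := hI
  have hlow' : ∀ x, 0 ≤ (inner ℂ (A x) x).re := fun x => (by positivity : (0:ℝ) ≤ 1 * ‖x‖ ^ 2).trans (hlow x)
  have hAn := norm_apply_le A hs hlow' hup (by linarith)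
  set a11 : H →L[ℂ] H := p1 ∘L A ∘L i1 with ha11
  set a12 : H →L[ℂ] H := p1 ∘L A ∘L i2 with ha12
  have h11 : ∀ x y, inner ℂ (a11 x) y = inner ℂ (A (i1 x)) (i1 y) := fun x y => by
    rw [inner_i1]; rfl
  have h12 : ∀ x y, inner ℂ (a12 x) y = inner ℂ (A (i2 x)) (i1 y) := fun x y => by
    rw [inner_i1]; rfl
  obtain ⟨B, hB1, hB2, hB3⟩ := exists_inv a11 (fun x => by
    rw [h11, ← norm_i1]
    have := hlow (i1 x)
    rwa [one_mul] at this)
  have hn12 : ‖a12‖ ≤ M := by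
    refine ContinuousLinearMap.opNorm_le_bound _ (by linarith) fun y => ?_
    have h1 : ‖a12 y‖ ^ 2 ≤ ‖A (i2 y)‖ ^ 2 := by
      rw [WithLp.prod_norm_sq_eq_of_L2 (A (i2 y))]
      have : a12 y = (A (i2 y)).fst := rfl
      rw [this]
      linarith [sq_nonneg ‖(A (i2 y)).snd‖]
    have h2 := (sq_le_sq₀ (norm_nonneg _) (norm_nonneg _)).1 h1
    have h3 := hAn (i2 y)
    have h4 : ‖(i2 y : WithLp 2 (H × H))‖ = ‖y‖ :=
      (sq_eq_sq₀ (norm_nonneg _) (norm_nonneg _)).1 (norm_i2 y)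
    rw [h4] at h3
    exact h2.trans h3
  refine ⟨T - B * a12, fun g => ?_, ?_⟩
  swap
  · rw [sub_sub_cancel]
    refine (norm_mul_le _ _).trans ?_
    nlinarith [norm_nonneg B, norm_nonneg a12]
  set U : H →L[ℂ] H := ((σ g : (H →L[ℂ] H)ˣ) : H →L[ℂ] H) with hU
  have hUu := hσ g
  rw [← hU] at hUu
  have hinv' : ∀ x y, inner ℂ (A (bl U (U * T - T * U) U x)) (bl U (U * T - T * U) U y)
      = inner ℂ (A x) y := fun x y => hinv g x y
  have e1 : a11 * U = U * a11 := by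
    ext x
    refine ext_inner_right ℂ fun y => ?_
    obtain ⟨z, rfl⟩ := surj_unitary hUu y
    change inner ℂ (a11 (U x)) (U z) = inner ℂ (U (a11 x)) (U z)
    rw [inner_unitary hUu, h11, h11, ← bl_i1 U (U * T - T * U) U, ← bl_i1 U (U * T - T * U) U,
      hinv']
  have e2 : a11 * (U * T - T * U) + a12 * U = U * a12 := by
    ext x
    refine ext_inner_right ℂ fun y => ?_
    obtain ⟨z, rfl⟩ := surj_unitary hUu y
    change inner ℂ (a11 ((U * T - T * U) x) + a12 (U x)) (U z) = inner ℂ (U (a12 x)) (U z)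
    rw [inner_unitary hUu, inner_add_left, h11, h12, h12, ← hinv' (i2 x) (i1 z), bl_i2, bl_i1,
      map_add, inner_add_left]
  have e3 : B * U = U * B := by
    calc B * U = B * (U * a11) * B := by rw [mul_assoc, mul_assoc, hB2, mul_one]
      _ = B * (a11 * U) * B := by rw [e1]
      _ = (B * a11) * U * B := by noncomm_ring
      _ = U * B := by rw [hB1, one_mul]
  have e4 : B * (U * a12) = (U * T - T * U) + B * (a12 * U) := by
    rw [← e2, mul_add, ← mul_assoc, hB1, one_mul]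
  calc (T - B * a12) * U = T * U - B * (a12 * U) := by noncomm_ring
    _ = U * T - ((U * T - T * U) + B * (a12 * U)) := by noncomm_ring
    _ = U * T - B * (U * a12) := by rw [e4]
    _ = U * T - (B * U) * a12 := by rw [mul_assoc]
    _ = U * T - (U * B) * a12 := by rw [e3]
    _ = U * (T - B * a12) := by noncomm_ring

/-- If bounded representations with bound `2` of `G` have invariant operators between `1` and `M`,
then the distance to the commutant is at most `M` times the norm of the inner derivation. -/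
theorem dist_of_uniform {G : Type} [Group G] (M : ℝ) (hM1 : 1 ≤ M)
    (hM : ∀ (H : Type) [NormedAddCommGroup H] [InnerProductSpace ℂ H] [CompleteSpace H]
      (π : G →* (H →L[ℂ] H)ˣ), Bdd π 2 → Inv π 1 M) :
    ∀ (H : Type) [NormedAddCommGroup H] [InnerProductSpace ℂ H] [CompleteSpace H]
      (σ : G →* (H →L[ℂ] H)ˣ), (∀ g, ((σ g : (H →L[ℂ] H)ˣ) : H →L[ℂ] H) ∈ unitary (H →L[ℂ] H)) →
      ∀ (T : H →L[ℂ] H) (d : ℝ),
      (∀ g, ‖((σ g : (H →L[ℂ] H)ˣ) : H →L[ℂ] H) * T - T * ((σ g : (H →L[ℂ] H)ˣ) : H →L[ℂ] H)‖ ≤ d) →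
      Metric.infDist T {C : H →L[ℂ] H | ∀ g, C * ((σ g : (H →L[ℂ] H)ˣ) : H →L[ℂ] H) =
        ((σ g : (H →L[ℂ] H)ˣ) : H →L[ℂ] H) * C} ≤ M * d := by
  intro H _ _ _ σ hσ T d hd
  have hd0 : 0 ≤ d := (norm_nonneg _).trans (hd 1)
  rcases hd0.eq_or_lt with h0 | h0
  · subst h0
    have hT : T ∈ {C : H →L[ℂ] H | ∀ g, C * ((σ g : (H →L[ℂ] H)ˣ) : H →L[ℂ] H) =
        ((σ g : (H →L[ℂ] H)ˣ) : H →L[ℂ] H) * C} := fun g => by
      have := norm_le_zero_iff.1 (hd g)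
      rw [sub_eq_zero] at this
      exact this.symm
    rw [Metric.infDist_zero_of_mem hT, mul_zero]
  · set T' : H →L[ℂ] H := ((d⁻¹ : ℝ) : ℂ) • T with hT'
    have hD : ∀ g, ‖((σ g : (H →L[ℂ] H)ˣ) : H →L[ℂ] H) * T'
        - T' * ((σ g : (H →L[ℂ] H)ˣ) : H →L[ℂ] H)‖ ≤ 1 := fun g => by
      rw [hT', mul_smul_comm, smul_mul_assoc, ← smul_sub, norm_smul, Complex.norm_real,
        Real.norm_of_nonneg (inv_nonneg.2 h0.le), inv_mul_le_iff₀ h0, mul_one]
      exact hd g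
    have hB : Bdd (hom2 σ T').toHomUnits 2 := fun g => norm_bl_le (hσ g) (hD g)
    obtain ⟨C, hC, hTC⟩ := core M hM1 σ hσ T' (hM (WithLp 2 (H × H)) _ hB)
    have hmem : ((d : ℝ) : ℂ) • C ∈ {C : H →L[ℂ] H | ∀ g, C * ((σ g : (H →L[ℂ] H)ˣ) : H →L[ℂ] H) =
        ((σ g : (H →L[ℂ] H)ˣ) : H →L[ℂ] H) * C} := fun g => by
      rw [smul_mul_assoc, mul_smul_comm, hC g]
    refine (Metric.infDist_le_dist_of_mem hmem).trans ?_
    have e : T - ((d : ℝ) : ℂ) • C = ((d : ℝ) : ℂ) • (T' - C) := by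
      rw [smul_sub, hT', smul_smul, ← Complex.ofReal_mul, mul_inv_cancel₀ h0.ne', Complex.ofReal_one,
        one_smul]
    rw [dist_eq_norm, e, norm_smul, Complex.norm_real, Real.norm_of_nonneg h0.le, mul_comm]
    exact mul_le_mul_of_nonneg_right hTC h0.le

end

end Pool.Agent.TH993.DX
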