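import Pool.Agent.TH451.MB.Stmt

/-! MB-EMBEDTREE: greedy embedding of a tree, smallest subtrees first. -/

namespace Pool.Agent.TH993.MB
open Pool.Agent.TH451.MB Finset

section comp
variable {τ : Type} [DecidableEq τ]

/-- steps inside `C` -/
def St (T : SimpleGraph τ) (C : Finset τ) (a b : τ) : Prop := T.Adj a b ∧ a ∈ C ∧ b ∈ C

/-- `C` is connected -/
def Conn (T : SimpleGraph τ) (C : Finset τ) : Prop :=
  ∀ a ∈ C, ∀ b ∈ C, Relation.ReflTransGen (St T C) a b

omit [DecidableEq τ] in
theorem St.symm {T : SimpleGraph τ} {C : Finset τ} {a b : τ} (h : St T C a b) : St T C b a :=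
  ⟨h.1.symm, h.2.2, h.2.1⟩

omit [DecidableEq τ] in
theorem rtg_symm {T : SimpleGraph τ} {C : Finset τ} {a b : τ} (h : Relation.ReflTransGen (St T C) a b) :
    Relation.ReflTransGen (St T C) b a := by
  induction h with
  | refl => exact Relation.ReflTransGen.refl
  | tail _ h2 ih => exact Relation.ReflTransGen.head h2.symm ih

omit [DecidableEq τ] in
theorem conn_of_induce {T : SimpleGraph τ} {C : Finset τ} (h : (T.induce (C : Set τ)).Connected) :
    Conn T C := by
  intro a ha b hb
  obtain ⟨w⟩ := h.preconnected ⟨a, ha⟩ ⟨b, hb⟩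
  have key : ∀ (u v : ↥(C : Set τ)) (_ : (T.induce (C : Set τ)).Walk u v),
      Relation.ReflTransGen (St T C) u.1 v.1 := by
    intro u v w
    induction w with
    | nil => exact Relation.ReflTransGen.refl
    | @cons u v' w' h p ih => exact Relation.ReflTransGen.head ⟨h, u.2, v'.2⟩ ih
  exact key _ _ w

omit [DecidableEq τ] in
theorem exists_walk {T : SimpleGraph τ} {C : Finset τ} {a b : τ}
    (h : Relation.ReflTransGen (St T C) a b) : b ∈ C → ∃ w : T.Walk a b, ∀ v ∈ w.support, v ∈ C := by
  intro hb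
  induction h using Relation.ReflTransGen.head_induction_on with
  | refl => exact ⟨SimpleGraph.Walk.nil, by simpa using hb⟩
  | head h1 h2 ih =>
    obtain ⟨w, hw⟩ := ih
    refine ⟨SimpleGraph.Walk.cons h1.1 w, ?_⟩
    intro v hv
    rw [SimpleGraph.Walk.support_cons, List.mem_cons] at hv
    rcases hv with rfl | hv
    · exact h1.2.1
    · exact hw v hv

theorem eq_of_adj {T : SimpleGraph τ} (hT : T.IsAcyclic) {D : Finset τ} {r a y : τ} (hrD : r ∉ D)
    (hy : y ∈ D) (hra : T.Adj r a) (hry : T.Adj r y) (h : Relation.ReflTransGen (St T D) a y) :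
    a = y := by
  by_contra hne
  obtain ⟨w, hw⟩ := exists_walk h hy
  have hpath : (SimpleGraph.Walk.cons hra.symm (SimpleGraph.Walk.cons hry SimpleGraph.Walk.nil) :
      T.Walk a y).IsPath := by
    rw [SimpleGraph.Walk.cons_isPath_iff, SimpleGraph.Walk.cons_isPath_iff]
    refine ⟨⟨SimpleGraph.Walk.IsPath.nil, ?_⟩, ?_⟩
    · simpa using hry.ne
    · simp only [SimpleGraph.Walk.support_cons, SimpleGraph.Walk.support_nil, List.mem_cons,
        List.not_mem_nil, or_false, not_or]
      exact ⟨hra.ne.symm, hne⟩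
  have hp := (SimpleGraph.isAcyclic_iff_path_unique.1 hT) w.toPath ⟨_, hpath⟩
  have hr : r ∈ (w.toPath : T.Walk a y).support := by
    rw [hp]; simp
  exact hrD (hw _ (w.support_toPath_subset hr))

/-- the component of `y` in `C` minus `r` -/
noncomputable def cmp (T : SimpleGraph τ) (C : Finset τ) (r y : τ) : Finset τ := by
  classical exact (C.erase r).filter (fun z => Relation.ReflTransGen (St T (C.erase r)) y z)

theorem mem_cmp {T : SimpleGraph τ} {C : Finset τ} {r y z : τ} :
    z ∈ cmp T C r y ↔ z ∈ C.erase r ∧ Relation.ReflTransGen (St T (C.erase r)) y z := by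
  classical
  unfold cmp
  rw [mem_filter]

theorem conn_cmp {T : SimpleGraph τ} {C : Finset τ} {r y : τ} (hy : y ∈ C.erase r) :
    Conn T (cmp T C r y) := by
  have key : ∀ z, Relation.ReflTransGen (St T (C.erase r)) y z →
      Relation.ReflTransGen (St T (cmp T C r y)) y z := by
    intro z hz
    induction hz with
    | refl => exact Relation.ReflTransGen.refl
    | tail h1 h2 ih =>
      exact ih.tail ⟨h2.1, mem_cmp.2 ⟨h2.2.1, h1⟩, mem_cmp.2 ⟨h2.2.2, h1.tail h2⟩⟩
  intro a ha b hb
  exact (rtg_symm (key a (mem_cmp.1 ha).2)).trans (key b (mem_cmp.1 hb).2)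

theorem conn_compl {T : SimpleGraph τ} {C : Finset τ} (hC : Conn T C) {r y : τ} (hr : r ∈ C) :
    Conn T (C \ cmp T C r y) := by
  have hrD : r ∉ cmp T C r y := fun h => (mem_erase.1 (mem_cmp.1 h).1).1 rfl
  have key : ∀ z, Relation.ReflTransGen (St T C) z r → z ∈ C \ cmp T C r y →
      Relation.ReflTransGen (St T (C \ cmp T C r y)) z r := by
    intro z hz
    induction hz using Relation.ReflTransGen.head_induction_on with
    | refl => intro _; exact Relation.ReflTransGen.refl
    | @head u v h1 h2 ih =>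
      intro hu
      by_cases hur : u = r
      · rw [hur]
      have huC := (mem_sdiff.1 hu).1
      have hv : v ∈ C \ cmp T C r y := by
        rw [mem_sdiff]
        refine ⟨h1.2.2, fun hvD => (mem_sdiff.1 hu).2 ?_⟩
        have h3 := mem_cmp.1 hvD
        have hue : u ∈ C.erase r := mem_erase.2 ⟨hur, huC⟩
        exact mem_cmp.2 ⟨hue, h3.2.tail ⟨h1.1.symm, h3.1, hue⟩⟩
      exact Relation.ReflTransGen.head ⟨h1.1, hu, hv⟩ (ih hv)
  intro a ha b hb
  exact (key a (hC a (mem_sdiff.1 ha).1 r hr) ha).trans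
    (rtg_symm (key b (hC b (mem_sdiff.1 hb).1 r hr) hb))

theorem cover {T : SimpleGraph τ} {C : Finset τ} (hC : Conn T C) {r : τ} (hr : r ∈ C) {z : τ}
    (hz : z ∈ C.erase r) : ∃ y ∈ C, T.Adj r y ∧ z ∈ cmp T C r y := by
  have key : ∀ z, Relation.ReflTransGen (St T C) z r → z ∈ C.erase r →
      ∃ y ∈ C, T.Adj r y ∧ Relation.ReflTransGen (St T (C.erase r)) y z := by
    intro z hz
    induction hz using Relation.ReflTransGen.head_induction_on with
    | refl => intro h; exact absurd rfl (mem_erase.1 h).1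
    | @head u v h1 h2 ih =>
      intro hu
      by_cases hv : v = r
      · refine ⟨u, h1.2.1, ?_, Relation.ReflTransGen.refl⟩
        rw [← hv]; exact h1.1.symm
      · have hve : v ∈ C.erase r := mem_erase.2 ⟨hv, h1.2.2⟩
        obtain ⟨y, hy, hry, hyv⟩ := ih hve
        exact ⟨y, hy, hry, hyv.tail ⟨h1.1.symm, hve, hu⟩⟩
  obtain ⟨y, hy, hry, h⟩ := key z (hC z (mem_of_mem_erase hz) r hr) hz
  exact ⟨y, hy, hry, mem_cmp.2 ⟨hz, h⟩⟩

theorem decomp {T : SimpleGraph τ} (hT : T.IsAcyclic) {C : Finset τ} (hC : Conn T C) {r : τ}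
    (hr : r ∈ C) (h2 : C ≠ {r}) :
    ∃ y D, y ∈ D ∧ D ⊆ C ∧ r ∉ D ∧ T.Adj r y ∧ Conn T D ∧ Conn T (C \ D) ∧
      (∀ a ∈ D, ∀ b ∈ C \ D, T.Adj a b → a = y ∧ b = r) ∧ (C \ D = {r} ∨ 2 * D.card ≤ C.card) := by
  classical
  obtain ⟨z, hzC, hzr⟩ : ∃ z ∈ C, z ≠ r := by
    by_contra hcon
    push Not at hcon
    exact h2 (eq_singleton_iff_unique_mem.2 ⟨hr, hcon⟩)
  have hNne : (C.filter (fun y => T.Adj r y)).Nonempty := by
    obtain ⟨y, hy, hry, _⟩ := cover hC hr (mem_erase.2 ⟨hzr, hzC⟩)
    exact ⟨y, mem_filter.2 ⟨hy, hry⟩⟩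
  obtain ⟨y, hyN, hmin⟩ := exists_min_image (C.filter (fun y => T.Adj r y))
    (fun y => (cmp T C r y).card) hNne
  obtain ⟨hyC, hry⟩ := mem_filter.1 hyN
  have hye : y ∈ C.erase r := mem_erase.2 ⟨hry.ne.symm, hyC⟩
  have hyD : y ∈ cmp T C r y := mem_cmp.2 ⟨hye, Relation.ReflTransGen.refl⟩
  have hrD : ∀ y, r ∉ cmp T C r y := fun y h => (mem_erase.1 (mem_cmp.1 h).1).1 rfl
  have hDC : ∀ y, cmp T C r y ⊆ C := fun y a ha => mem_of_mem_erase (mem_cmp.1 ha).1
  refine ⟨y, cmp T C r y, hyD, hDC y, hrD y, hry, conn_cmp hye, conn_compl hC hr, ?_, ?_⟩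
  · intro a ha b hb hab
    have hbr : b = r := by
      by_contra hbr
      have hbe : b ∈ C.erase r := mem_erase.2 ⟨hbr, (mem_sdiff.1 hb).1⟩
      have h3 := mem_cmp.1 ha
      exact (mem_sdiff.1 hb).2 (mem_cmp.2 ⟨hbe, h3.2.tail ⟨hab, h3.1, hbe⟩⟩)
    subst hbr
    exact ⟨eq_of_adj hT (hrD y) hyD hab.symm hry (conn_cmp hye a ha y hyD), rfl⟩
  · by_cases hex : ∃ y' ∈ C, T.Adj r y' ∧ y' ≠ y
    · right
      obtain ⟨y', hy'C, hry', hne⟩ := hex
      have hy'e : y' ∈ C.erase r := mem_erase.2 ⟨hry'.ne.symm, hy'C⟩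
      have hdisj : Disjoint (cmp T C r y) (cmp T C r y') := by
        rw [Finset.disjoint_left]
        intro a ha ha'
        apply hne
        have h3 : Relation.ReflTransGen (St T (C.erase r)) y' y :=
          (mem_cmp.1 ha').2.trans (rtg_symm (mem_cmp.1 ha).2)
        exact eq_of_adj hT (notMem_erase r C) hye hry' hry h3
      have hle := hmin y' (mem_filter.2 ⟨hy'C, hry'⟩)
      have hsub : cmp T C r y ∪ cmp T C r y' ⊆ C := union_subset (hDC y) (hDC y')
      have hcard := card_le_card hsub
      rw [card_union_of_disjoint hdisj] at hcard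
      have hle' : (cmp T C r y).card ≤ (cmp T C r y').card := hle
      omega
    · left
      push Not at hex
      rw [eq_singleton_iff_unique_mem]
      refine ⟨mem_sdiff.2 ⟨hr, hrD y⟩, fun z hz => ?_⟩
      by_contra hzr'
      obtain ⟨y', hy', hry', hz'⟩ := cover hC hr (mem_erase.2 ⟨hzr', (mem_sdiff.1 hz).1⟩)
      have := hex y' hy' hry'
      subst this
      exact (mem_sdiff.1 hz).2 hz'

end comp

theorem good {V τ : Type} [DecidableEq V] (G : SimpleGraph V) (P : Finset τ)
    (R : τ → Finset V) (A : Finset V) (K s q : ℕ) (hs : 1 ≤ s) (hq : q = (P.card + 1) * s)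
    (hexp : ∀ X Y : Finset V, X ⊆ A ∪ P.biUnion R → Y ⊆ A ∪ P.biUnion R →
      s ≤ X.card → s ≤ Y.card → ∃ y ∈ Y, X.card ≤ K * (nb G y X).card)
    (hRs : ∀ c ∈ P, s ≤ (R c).card) (As : Finset V) (hAs : As ⊆ A) (hAsc : s ≤ As.card)
    (Y : Finset V) (hY : Y ⊆ A ∪ P.biUnion R) (hYc : q ≤ Y.card) :
    ∃ z ∈ Y, As.card ≤ K * (nb G z As).card ∧ ∀ c ∈ P, (R c).card ≤ K * (nb G z (R c)).card := by
  classical
  have hbad : ∀ X : Finset V, X ⊆ A ∪ P.biUnion R → s ≤ X.card →
      (Y.filter (fun z => K * (nb G z X).card < X.card)).card ≤ s - 1 := by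
    intro X hX hXs
    by_contra hcon
    obtain ⟨y, hy, hyX⟩ := hexp X (Y.filter (fun z => K * (nb G z X).card < X.card)) hX
      ((filter_subset _ _).trans hY) hXs (by omega)
    have := (mem_filter.1 hy).2
    omega
  by_contra hcon
  push Not at hcon
  have hsub : Y ⊆ (Y.filter (fun z => K * (nb G z As).card < As.card)) ∪
      P.biUnion (fun c => Y.filter (fun z => K * (nb G z (R c)).card < (R c).card)) := by
    intro z hz
    by_cases h1 : As.card ≤ K * (nb G z As).card
    · obtain ⟨c, hc, hlt⟩ := hcon z hz h1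
      exact mem_union_right _ (mem_biUnion.2 ⟨c, hc, mem_filter.2 ⟨hz, hlt⟩⟩)
    · exact mem_union_left _ (mem_filter.2 ⟨hz, by omega⟩)
  have h1 := card_le_card hsub
  have h2 := card_union_le (Y.filter (fun z => K * (nb G z As).card < As.card))
    (P.biUnion (fun c => Y.filter (fun z => K * (nb G z (R c)).card < (R c).card)))
  have h3 : (P.biUnion (fun c => Y.filter (fun z => K * (nb G z (R c)).card < (R c).card))).card ≤
      P.card * (s - 1) := card_biUnion_le_card_mul _ _ _ fun c hc => hbad (R c)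
        ((subset_biUnion_of_mem R hc).trans subset_union_right) (hRs c hc)
  have h4 := hbad As (hAs.trans subset_union_left) hAsc
  have h5 : (P.card + 1) * s = P.card * (s - 1) + (s - 1) + (P.card + 1) := by
    obtain ⟨s', rfl⟩ : ∃ s', s = s' + 1 := ⟨s - 1, by omega⟩
    simp only [Nat.add_sub_cancel]
    ring
  omega

theorem embed_core {V τ : Type} [DecidableEq V] [DecidableEq τ]
    (G : SimpleGraph V) (T : SimpleGraph τ) (hT : T.IsAcyclic)
    (P : Finset τ) (κ : τ → Option τ) (hκ : ∀ t c, κ t = some c → c ∈ P)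
    (R : τ → Finset V) (A : Finset V) (hRA : ∀ c ∈ P, Disjoint (R c) A)
    (hRR : ∀ c ∈ P, ∀ c' ∈ P, c ≠ c' → Disjoint (R c) (R c'))
    (K s q Δ : ℕ) (hK : 1 ≤ K) (hs : 1 ≤ s) (hq : q = (P.card + 1) * s)
    (hexp : ∀ X Y : Finset V, X ⊆ A ∪ P.biUnion R → Y ⊆ A ∪ P.biUnion R →
      s ≤ X.card → s ≤ Y.card → ∃ y ∈ Y, X.card ≤ K * (nb G y X).card)
    (kc : τ → ℕ) (hR : ∀ c ∈ P, K * (kc c + q) + s ≤ (R c).card) :
    ∀ (N : ℕ) (C : Finset τ) (_hN : C.card = N) (_hC : Conn T C) (r : τ) (_hr : r ∈ C)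
    (b : ℕ) (_hb : C.card ≤ 2 ^ b)
    (_hΔ : ∀ t ∈ C, (nb T t C).card ≤ Δ)
    (x : V) (Rx A1 U : Finset V) (_hA1 : A1 ⊆ A) (_hRx : Rx ⊆ A) (_hdis : Disjoint Rx A1)
    (_hxA1 : x ∉ A1) (_hxRx : x ∉ Rx) (_hxU : ∀ c ∈ P, x ∈ R c → x ∈ U)
    (_hRxn : ∀ z ∈ Rx, G.Adj x z)
    (_hRxc : ((nb T r C).filter (fun t => κ t = none)).card + q ≤ Rx.card)
    (_hxgood : ∀ c ∈ P, (R c).card ≤ K * (nb G x (R c)).card)
    (_hU : ∀ c ∈ P, (U ∩ R c).card + ((C.erase r).filter (fun t => κ t = some c)).card ≤ kc c)
    (_hA1c : C.card + K * (Δ + q) + q * b + s ≤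
      A1.card + ((nb T r C).filter (fun t => κ t = none)).card + 1),
    ∃ φ : τ → V, Set.InjOn φ (C : Set τ) ∧ φ r = x ∧
      (∀ t ∈ C.erase r, (κ t = none → φ t ∈ A1 ∪ Rx) ∧ (∀ c, κ t = some c → φ t ∈ R c \ U)) ∧
      (∀ a ∈ C, ∀ a' ∈ C, T.Adj a a' → G.Adj (φ a) (φ a')) := by
  intro N
  induction N using Nat.strong_induction_on with
  | _ N ih =>
  intro C hN hC r hr b hb hΔ x Rx A1 U hA1 hRx hdis hxA1 hxRx hxU hRxn hRxc hxgood hU hA1c
  by_cases hCr : C = {r}
  · subst hCr
    refine ⟨fun _ => x, ?_, rfl, ?_, ?_⟩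
    · intro a ha a' ha' _
      rw [coe_singleton, Set.mem_singleton_iff] at ha ha'
      rw [ha, ha']
    · intro t ht
      simp at ht
    · intro a ha a' ha' h
      rw [mem_singleton] at ha ha'
      subst ha; subst ha'
      exact absurd h (T.irrefl)
  obtain ⟨y, D, hyD, hDC, hrD, hry, hDconn, hC'conn, hcross, hsize⟩ := decomp hT hC hr hCr
  have hyC : y ∈ C := hDC hyD
  have hyr : y ≠ r := hry.ne.symm
  have hyN : y ∈ nb T r C := mem_nb.2 ⟨hyC, hry⟩
  have hRs : ∀ c ∈ P, s ≤ (R c).card := fun c hc => by have := hR c hc; omega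
  have hcardC : C.card = D.card + (C \ D).card := by
    rw [card_sdiff_of_subset hDC]
    have := card_le_card hDC
    omega
  have hD1 : 1 ≤ D.card := card_pos.2 ⟨y, hyD⟩
  have hC'1 : 1 ≤ (C \ D).card := card_pos.2 ⟨r, mem_sdiff.2 ⟨hr, hrD⟩⟩
  have hkD : ((nb T y D).filter (fun t => κ t = none)).card ≤ Δ := by
    refine (card_le_card (filter_subset _ _)).trans (le_trans (card_le_card ?_) (hΔ y hyC))
    intro t ht
    exact mem_nb.2 ⟨hDC (mem_nb.1 ht).1, (mem_nb.1 ht).2⟩
  have hΔD : ∀ t ∈ D, (nb T t D).card ≤ Δ := fun t ht => by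
    refine le_trans (card_le_card ?_) (hΔ t (hDC ht))
    intro u hu
    exact mem_nb.2 ⟨hDC (mem_nb.1 hu).1, (mem_nb.1 hu).2⟩
  -- choice of the image of `y`
  have hchoose : ∀ As : Finset V, As ⊆ A → s ≤ As.card → ∃ z, G.Adj x z ∧ (κ y = none → z ∈ Rx) ∧
      (∀ c, κ y = some c → z ∈ R c \ U) ∧ As.card ≤ K * (nb G z As).card ∧
      ∀ c ∈ P, (R c).card ≤ K * (nb G z (R c)).card := by
    intro As hAs hAsc
    rcases hκy : κ y with _ | c
    · obtain ⟨z, hz, hz1, hz2⟩ := good G P R A K s q hs hq hexp hRs As hAs hAsc Rx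
        (hRx.trans subset_union_left) (by omega)
      exact ⟨z, hRxn z hz, fun _ => hz, fun c hc => by simp at hc, hz1, hz2⟩
    · have hc := hκ y c hκy
      have h1 : K * (kc c + q) ≤ K * (nb G x (R c)).card := by
        have := hR c hc
        have := hxgood c hc
        omega
      have h2 : kc c + q ≤ (nb G x (R c)).card := Nat.le_of_mul_le_mul_left h1 (by omega)
      have h3 : q ≤ (nb G x (R c) \ U).card := by
        have h4 := hU c hc
        have h5 : (nb G x (R c)).card ≤ (nb G x (R c) \ U).card + (U ∩ R c).card := by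
          rw [← card_sdiff_add_card_inter (nb G x (R c)) U]
          apply Nat.add_le_add_left
          apply card_le_card
          intro u hu
          rw [mem_inter] at hu ⊢
          exact ⟨hu.2, (mem_nb.1 hu.1).1⟩
        omega
      obtain ⟨z, hz, hz1, hz2⟩ := good G P R A K s q hs hq hexp hRs As hAs hAsc (nb G x (R c) \ U)
        (by
          intro u hu
          exact mem_union_right _ (mem_biUnion.2 ⟨c, hc, (mem_nb.1 (mem_sdiff.1 hu).1).1⟩)) h3
      have hz' := mem_sdiff.1 hz
      refine ⟨z, (mem_nb.1 hz'.1).2, fun h => by simp at h, fun c' hc' => ?_, hz1, hz2⟩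
      have : c = c' := by simpa using hc'
      subst this
      exact mem_sdiff.2 ⟨(mem_nb.1 hz'.1).1, hz'.2⟩
  -- consequences of the choice
  have hzR : ∀ z, (κ y = none → z ∈ Rx) → (∀ c, κ y = some c → z ∈ R c \ U) →
      ∀ c ∈ P, z ∈ R c → κ y = some c := by
    intro z h1 h2 c hc hzc
    rcases hκy : κ y with _ | c'
    · exact absurd (hRx (h1 hκy)) (disjoint_left.1 (hRA c hc) hzc)
    · by_contra hne
      have hne' : c ≠ c' := fun h => hne (by rw [h])
      exact disjoint_left.1 (hRR c hc c' (hκ y c' hκy) hne') hzc (mem_sdiff.1 (h2 c' hκy)).1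
  have hzUR : ∀ z, (κ y = none → z ∈ Rx) → (∀ c, κ y = some c → z ∈ R c \ U) →
      ∀ c ∈ P, (insert z U ∩ R c).card + ((D.erase y).filter (fun t => κ t = some c)).card ≤ kc c := by
    intro z h1 h2 c hc
    have h3 := hU c hc
    by_cases hzc : z ∈ R c
    · have hκc := hzR z h1 h2 c hc hzc
      have h4 : (insert z U ∩ R c).card ≤ (U ∩ R c).card + 1 := by
        have : insert z U ∩ R c ⊆ insert z (U ∩ R c) := by
          intro u hu
          rw [mem_inter, mem_insert] at hu
          rw [mem_insert, mem_inter]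
          tauto
        exact (card_le_card this).trans (card_insert_le _ _)
      have h5 : ((D.erase y).filter (fun t => κ t = some c)).card + 1 ≤
          ((C.erase r).filter (fun t => κ t = some c)).card := by
        have hnot : y ∉ (D.erase y).filter (fun t => κ t = some c) := by
          intro h
          exact (mem_erase.1 (mem_filter.1 h).1).1 rfl
        rw [← card_insert_of_notMem hnot]
        apply card_le_card
        intro t ht
        rw [mem_insert] at ht
        rw [mem_filter, mem_erase]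
        rcases ht with rfl | ht
        · exact ⟨⟨hyr, hyC⟩, hκc⟩
        · have h6 := mem_filter.1 ht
          have h7 := mem_erase.1 h6.1
          exact ⟨⟨fun h => hrD (h ▸ h7.2), hDC h7.2⟩, h6.2⟩
      omega
    · have h4 : insert z U ∩ R c = U ∩ R c := by
        ext u
        rw [mem_inter, mem_insert, mem_inter]
        constructor
        · rintro ⟨rfl | h, h'⟩
          · exact absurd h' hzc
          · exact ⟨h, h'⟩
        · rintro ⟨h, h'⟩
          exact ⟨Or.inr h, h'⟩
      have h5 : ((D.erase y).filter (fun t => κ t = some c)).card ≤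
          ((C.erase r).filter (fun t => κ t = some c)).card := by
        apply card_le_card
        intro t ht
        have h6 := mem_filter.1 ht
        have h7 := mem_erase.1 h6.1
        rw [mem_filter, mem_erase]
        exact ⟨⟨fun h => hrD (h ▸ h7.2), hDC h7.2⟩, h6.2⟩
      rw [h4]
      omega
  by_cases hcase : C \ D = {r}
  · -- case A
    have hC'c : (C \ D).card = 1 := by rw [hcase, card_singleton]
    have hAsA : A1 ∪ Rx ⊆ A := union_subset hA1 hRx
    have hAsc : (A1 ∪ Rx).card = A1.card + Rx.card := card_union_of_disjoint hdis.symm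
    obtain ⟨z, hxz, hz1, hz2, hz3, hz4⟩ := hchoose (A1 ∪ Rx) hAsA (by
      rw [hAsc]
      omega)
    have hnz : z ∉ nb G z (A1 ∪ Rx) := fun h => G.irrefl (mem_nb.1 h).2
    have hbig : Δ + q ≤ (nb G z (A1 ∪ Rx)).card := by
      have hh : K * (Δ + q) ≤ K * (nb G z (A1 ∪ Rx)).card := by
        refine le_trans ?_ hz3
        rw [hAsc]
        omega
      exact Nat.le_of_mul_le_mul_left hh (by omega)
    obtain ⟨Rz, hRz, hRzc⟩ := exists_subset_card_eq (s := nb G z (A1 ∪ Rx))
      (n := ((nb T y D).filter (fun t => κ t = none)).card + q) (by omega)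
    have hRzA : Rz ⊆ A1 ∪ Rx := fun u hu => (mem_nb.1 (hRz hu)).1
    have hzRz : z ∉ Rz := fun h => hnz (hRz h)
    have hzx : z ≠ x := hxz.ne.symm
    have hxA : x ∉ A1 ∪ Rx := by
      rw [mem_union]; tauto
    -- card of A3
    have hA3 : ((A1 ∪ Rx).erase z \ Rz).card + (((nb T y D).filter (fun t => κ t = none)).card + q) +
        1 ≥ A1.card + Rx.card := by
      have h1 : Rz ⊆ (A1 ∪ Rx).erase z := fun u hu => mem_erase.2 ⟨fun h => hzRz (h ▸ hu), hRzA hu⟩
      rw [card_sdiff_of_subset h1, hRzc, ← hAsc]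
      have h2 := card_le_card h1
      have h3 : (A1 ∪ Rx).card ≤ ((A1 ∪ Rx).erase z).card + 1 := by
        have := pred_card_le_card_erase (s := A1 ∪ Rx) (a := z)
        omega
      omega
    obtain ⟨φ, hφ1, hφ2, hφ3, hφ4⟩ := ih D.card (by omega) D rfl hDconn y hyD b
      ((card_le_card hDC).trans hb) hΔD z Rz ((A1 ∪ Rx).erase z \ Rz) (insert z U)
      (by
        intro u hu
        exact hAsA (mem_of_mem_erase (mem_sdiff.1 hu).1))
      (hRzA.trans hAsA) disjoint_sdiff
      (fun h => (mem_erase.1 (mem_sdiff.1 h).1).1 rfl) hzRz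
      (fun c _ _ => mem_insert_self _ _)
      (fun u hu => (mem_nb.1 (hRz hu)).2)
      (by rw [hRzc]) hz4 (hzUR z hz1 hz2) (by
        -- count
        have h1 : ((nb T r C).filter (fun t => κ t = none)).card + q ≤ Rx.card := hRxc
        have h2 := hA3
        omega)
    -- position of the images
    have hloc : ∀ t ∈ D.erase y, (κ t = none → φ t ∈ A1 ∪ Rx) ∧ (∀ c, κ t = some c → φ t ∈ R c \ insert z U) := by
      intro t ht
      obtain ⟨h1, h2⟩ := hφ3 t ht
      refine ⟨fun h => ?_, h2⟩
      rcases mem_union.1 (h1 h) with h3 | h3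
      · exact mem_of_mem_erase (mem_sdiff.1 h3).1
      · exact hRzA h3
    have hxne : ∀ t ∈ D, φ t ≠ x := by
      intro t ht
      by_cases hty : t = y
      · rw [hty, hφ2]; exact hzx
      · intro heq
        obtain ⟨h1, h2⟩ := hloc t (mem_erase.2 ⟨hty, ht⟩)
        rcases hκt : κ t with _ | c
        · exact hxA (heq ▸ h1 hκt)
        · have h3 := mem_sdiff.1 (h2 c hκt)
          rw [heq] at h3
          exact h3.2 (mem_insert_of_mem (hxU c (hκ t c hκt) h3.1))
    have hCD : ∀ t ∈ C, t ≠ r → t ∈ D := by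
      intro t ht htr
      by_contra hnD
      have : t ∈ C \ D := mem_sdiff.2 ⟨ht, hnD⟩
      rw [hcase, mem_singleton] at this
      exact htr this
    refine ⟨fun t => if t = r then x else φ t, ?_, by simp, ?_, ?_⟩
    · intro a ha a' ha' h
      simp only at h
      by_cases har : a = r
      · by_cases har' : a' = r
        · rw [har, har']
        · rw [if_pos har, if_neg har'] at h
          exact absurd h.symm (hxne a' (hCD a' ha' har'))
      · by_cases har' : a' = r
        · rw [if_neg har, if_pos har'] at h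
          exact absurd h (hxne a (hCD a ha har))
        · rw [if_neg har, if_neg har'] at h
          exact hφ1 (hCD a ha har) (hCD a' ha' har') h
    · intro t ht
      have htr := (mem_erase.1 ht).1
      have htD := hCD t (mem_erase.1 ht).2 htr
      simp only [if_neg htr]
      by_cases hty : t = y
      · rw [hty, hφ2]
        exact ⟨fun h => mem_union_right _ (hz1 h), fun c hc => hz2 c hc⟩
      · obtain ⟨h1, h2⟩ := hloc t (mem_erase.2 ⟨hty, htD⟩)
        refine ⟨h1, fun c hc => ?_⟩
        have h3 := mem_sdiff.1 (h2 c hc)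
        exact mem_sdiff.2 ⟨h3.1, fun h => h3.2 (mem_insert_of_mem h)⟩
    · intro a ha a' ha' hadj
      have hrC' : r ∈ C \ D := mem_sdiff.2 ⟨hr, hrD⟩
      by_cases har : a = r
      · by_cases har' : a' = r
        · rw [har, har'] at hadj
          exact absurd hadj T.irrefl
        · have h1 := hcross a' (hCD a' ha' har') r hrC' (by rw [har] at hadj; exact hadj.symm)
          simp only [if_pos har, if_neg har']
          rw [h1.1, hφ2]
          exact hxz
      · by_cases har' : a' = r
        · have h1 := hcross a (hCD a ha har) r hrC' (by rw [har'] at hadj; exact hadj)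
          simp only [if_neg har, if_pos har']
          rw [h1.1, hφ2]
          exact hxz.symm
        · simp only [if_neg har, if_neg har']
          exact hφ4 a (hCD a ha har) a' (hCD a' ha' har') hadj
  · -- case B
    have h2D : 2 * D.card ≤ C.card := hsize.resolve_left hcase
    obtain ⟨b', rfl⟩ : ∃ b', b = b' + 1 := by
      cases b with
      | zero =>
        exfalso
        rw [pow_zero] at hb
        omega
      | succ b' => exact ⟨b', rfl⟩
    have hDb : D.card ≤ 2 ^ b' := by
      rw [pow_succ] at hb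
      omega
    have hkr : ((nb T r C).filter (fun t => κ t = none)).card ≤ (C \ D).card := by
      have hsub : (nb T r C).filter (fun t => κ t = none) ⊆ insert y ((C \ D).erase r) := by
        intro t ht
        have h1 := mem_nb.1 (mem_filter.1 ht).1
        rw [mem_insert, mem_erase, mem_sdiff]
        by_cases htD : t ∈ D
        · left
          exact (hcross t htD r (mem_sdiff.2 ⟨hr, hrD⟩) h1.2.symm).1
        · right
          exact ⟨h1.2.ne.symm, h1.1, htD⟩
      have h1 := card_le_card hsub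
      have h2 := card_insert_le y ((C \ D).erase r)
      rw [card_erase_of_mem (mem_sdiff.2 ⟨hr, hrD⟩)] at h2
      omega
    have hqb : q * (b' + 1) = q * b' + q := Nat.mul_succ q b'
    rw [hqb] at hA1c
    have hA1s : K * (Δ + q) + q * b' + q + s + D.card ≤ A1.card + 1 := by omega
    obtain ⟨z, hxz, hz1, hz2, hz3, hz4⟩ := hchoose A1 hA1 (by omega)
    have hzA1 : z ∉ A1 := by
      rcases hκy : κ y with _ | c
      · exact disjoint_left.1 hdis (hz1 hκy)
      · intro h
        exact disjoint_left.1 (hRA c (hκ y c hκy)) (mem_sdiff.1 (hz2 c hκy)).1 (hA1 h)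
    have hbig : Δ + q ≤ (nb G z A1).card := by
      have hh : K * (Δ + q) ≤ K * (nb G z A1).card := by
        refine le_trans ?_ hz3
        omega
      exact Nat.le_of_mul_le_mul_left hh (by omega)
    obtain ⟨Rz, hRz, hRzc⟩ := exists_subset_card_eq (s := nb G z A1)
      (n := ((nb T y D).filter (fun t => κ t = none)).card + q) (by omega)
    have hRzA : Rz ⊆ A1 := fun u hu => (mem_nb.1 (hRz hu)).1
    have hzx : z ≠ x := hxz.ne.symm
    have hA3 : (A1 \ Rz).card + (((nb T y D).filter (fun t => κ t = none)).card + q) = A1.card := by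
      rw [card_sdiff_of_subset hRzA, hRzc]
      have := card_le_card hRzA
      omega
    obtain ⟨φ, hφ1, hφ2, hφ3, hφ4⟩ := ih D.card (by omega) D rfl hDconn y hyD b'
      hDb hΔD z Rz (A1 \ Rz) (insert z U)
      (sdiff_subset.trans hA1)
      (hRzA.trans hA1) disjoint_sdiff
      (fun h => hzA1 (mem_sdiff.1 h).1) (fun h => hzA1 (hRzA h))
      (fun c _ _ => mem_insert_self _ _)
      (fun u hu => (mem_nb.1 (hRz hu)).2)
      (by rw [hRzc]) hz4 (hzUR z hz1 hz2) (by omega)
    have hloc : ∀ t ∈ D.erase y, (κ t = none → φ t ∈ A1) ∧ (∀ c, κ t = some c → φ t ∈ R c \ insert z U) := by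
      intro t ht
      obtain ⟨h1, h2⟩ := hφ3 t ht
      refine ⟨fun h => ?_, h2⟩
      rcases mem_union.1 (h1 h) with h3 | h3
      · exact (mem_sdiff.1 h3).1
      · exact hRzA h3
    have hxne : ∀ t ∈ D, φ t ≠ x := by
      intro t ht
      by_cases hty : t = y
      · rw [hty, hφ2]; exact hzx
      · intro heq
        obtain ⟨h1, h2⟩ := hloc t (mem_erase.2 ⟨hty, ht⟩)
        rcases hκt : κ t with _ | c
        · exact hxA1 (heq ▸ h1 hκt)
        · have h3 := mem_sdiff.1 (h2 c hκt)
          rw [heq] at h3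
          exact h3.2 (mem_insert_of_mem (hxU c (hκ t c hκt) h3.1))
    -- the images of D that lie in R c
    have himR : ∀ c ∈ P, ∀ t ∈ D, φ t ∈ R c → κ t = some c := by
      intro c hc t ht htR
      by_cases hty : t = y
      · rw [hty, hφ2] at htR
        rw [hty]
        exact hzR z hz1 hz2 c hc htR
      · obtain ⟨h1, h2⟩ := hloc t (mem_erase.2 ⟨hty, ht⟩)
        rcases hκt : κ t with _ | c'
        · exact absurd (hA1 (h1 hκt)) (disjoint_left.1 (hRA c hc) htR)
        · by_contra hne
          have hne' : c ≠ c' := fun h => hne (by rw [h])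
          exact disjoint_left.1 (hRR c hc c' (hκ t c' hκt) hne') htR (mem_sdiff.1 (h2 c' hκt)).1
    have hC'sub : C \ D ⊆ C := sdiff_subset
    have hrC' : r ∈ C \ D := mem_sdiff.2 ⟨hr, hrD⟩
    -- number of unconstrained neighbours of `r` in `C \ D`
    have hkr' : ((nb T r C).filter (fun t => κ t = none)).card ≤
        ((nb T r (C \ D)).filter (fun t => κ t = none)).card + 1 := by
      have hsub : (nb T r C).filter (fun t => κ t = none) ⊆
          insert y ((nb T r (C \ D)).filter (fun t => κ t = none)) := by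
        intro t ht
        have h0 := mem_filter.1 ht
        have h1 := mem_nb.1 h0.1
        rw [mem_insert, mem_filter, mem_nb, mem_sdiff]
        by_cases htD : t ∈ D
        · left
          exact (hcross t htD r hrC' h1.2.symm).1
        · right
          exact ⟨⟨⟨h1.1, htD⟩, h1.2⟩, h0.2⟩
      exact (card_le_card hsub).trans (card_insert_le _ _)
    have hRxz : ((nb T r (C \ D)).filter (fun t => κ t = none)).card + q ≤ (Rx.erase z).card := by
      rcases hκy : κ y with _ | c
      · have h1 : ((nb T r (C \ D)).filter (fun t => κ t = none)).card + 1 ≤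
            ((nb T r C).filter (fun t => κ t = none)).card := by
          have hnot : y ∉ (nb T r (C \ D)).filter (fun t => κ t = none) := by
            intro h
            exact (mem_sdiff.1 (mem_nb.1 (mem_filter.1 h).1).1).2 hyD
          rw [← card_insert_of_notMem hnot]
          apply card_le_card
          intro t ht
          rw [mem_insert] at ht
          rw [mem_filter]
          rcases ht with rfl | ht
          · exact ⟨hyN, hκy⟩
          · have h2 := mem_filter.1 ht
            exact ⟨mem_nb.2 ⟨hC'sub (mem_nb.1 h2.1).1, (mem_nb.1 h2.1).2⟩, h2.2⟩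
        rw [card_erase_of_mem (hz1 hκy)]
        omega
      · have h1 : ((nb T r (C \ D)).filter (fun t => κ t = none)).card ≤
            ((nb T r C).filter (fun t => κ t = none)).card := by
          apply card_le_card
          intro t ht
          have h2 := mem_filter.1 ht
          exact mem_filter.2 ⟨mem_nb.2 ⟨hC'sub (mem_nb.1 h2.1).1, (mem_nb.1 h2.1).2⟩, h2.2⟩
        have h2 : z ∉ Rx := fun h =>
          disjoint_left.1 (hRA c (hκ y c hκy)) (mem_sdiff.1 (hz2 c hκy)).1 (hRx h)
        rw [erase_eq_of_notMem h2]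
        omega
    have hUC' : ∀ c ∈ P, ((U ∪ D.image φ) ∩ R c).card +
        (((C \ D).erase r).filter (fun t => κ t = some c)).card ≤ kc c := by
      intro c hc
      have h1 := hU c hc
      have h2 : ((U ∪ D.image φ) ∩ R c).card ≤ (U ∩ R c).card +
          (D.filter (fun t => κ t = some c)).card := by
        have hsub : (U ∪ D.image φ) ∩ R c ⊆ (U ∩ R c) ∪ (D.filter (fun t => κ t = some c)).image φ := by
          intro u hu
          rw [mem_inter, mem_union] at hu
          rw [mem_union, mem_inter]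
          rcases hu with ⟨hu1 | hu1, hu2⟩
          · left; exact ⟨hu1, hu2⟩
          · right
            obtain ⟨t, ht, rfl⟩ := mem_image.1 hu1
            exact mem_image.2 ⟨t, mem_filter.2 ⟨ht, himR c hc t ht hu2⟩, rfl⟩
        exact (card_le_card hsub).trans ((card_union_le _ _).trans
          (Nat.add_le_add_left card_image_le _))
      have h3 : (D.filter (fun t => κ t = some c)).card +
          (((C \ D).erase r).filter (fun t => κ t = some c)).card ≤
          ((C.erase r).filter (fun t => κ t = some c)).card := by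
        rw [← card_union_of_disjoint]
        · apply card_le_card
          intro t ht
          rw [mem_union, mem_filter, mem_filter, mem_erase, mem_sdiff] at ht
          rw [mem_filter, mem_erase]
          rcases ht with ⟨h4, h5⟩ | ⟨⟨h4, h5, _⟩, h6⟩
          · exact ⟨⟨fun h => hrD (h ▸ h4), hDC h4⟩, h5⟩
          · exact ⟨⟨h4, h5⟩, h6⟩
        · rw [disjoint_left]
          intro t ht ht'
          exact (mem_sdiff.1 (mem_of_mem_erase (mem_filter.1 ht').1)).2 (mem_filter.1 ht).1
      omega
    have hA1D : A1.card + 1 ≤ (A1 \ D.image φ).card + D.card := by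
      have h1 : (A1 ∩ D.image φ).card + 1 ≤ D.card := by
        have hsub : A1 ∩ D.image φ ⊆ (D.erase y).image φ := by
          intro u hu
          rw [mem_inter] at hu
          obtain ⟨t, ht, rfl⟩ := mem_image.1 hu.2
          refine mem_image.2 ⟨t, mem_erase.2 ⟨fun h => ?_, ht⟩, rfl⟩
          rw [h, hφ2] at hu
          exact hzA1 hu.1
        have h2 := (card_le_card hsub).trans card_image_le
        rw [card_erase_of_mem hyD] at h2
        omega
      have h2 := card_sdiff_add_card_inter A1 (D.image φ)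
      omega
    obtain ⟨ψ, hψ1, hψ2, hψ3, hψ4⟩ := ih (C \ D).card (by omega) (C \ D) rfl hC'conn r hrC' (b' + 1)
      ((card_le_card hC'sub).trans hb)
      (fun t ht => by
        refine le_trans (card_le_card ?_) (hΔ t (hC'sub ht))
        intro u hu
        exact mem_nb.2 ⟨hC'sub (mem_nb.1 hu).1, (mem_nb.1 hu).2⟩)
      x (Rx.erase z) (A1 \ D.image φ) (U ∪ D.image φ)
      (sdiff_subset.trans hA1) ((erase_subset _ _).trans hRx)
      (disjoint_left.2 fun u hu hu' =>
        disjoint_left.1 hdis (mem_of_mem_erase hu) (mem_sdiff.1 hu').1)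
      (fun h => hxA1 (mem_sdiff.1 h).1) (fun h => hxRx (mem_of_mem_erase h))
      (fun c hc h => mem_union_left _ (hxU c hc h))
      (fun u hu => hRxn u (mem_of_mem_erase hu)) hRxz hxgood hUC' (by
        rw [hqb]
        omega)
    have hcr : ∀ t ∈ D, ∀ t' ∈ C \ D, φ t ≠ ψ t' := by
      intro t ht t' ht' heq
      by_cases htr : t' = r
      · rw [htr, hψ2] at heq
        exact hxne t ht heq
      · obtain ⟨h1, h2⟩ := hψ3 t' (mem_erase.2 ⟨htr, ht'⟩)
        rcases hκt : κ t' with _ | c
        · rcases mem_union.1 (h1 hκt) with h3 | h3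
          · exact (mem_sdiff.1 h3).2 (mem_image.2 ⟨t, ht, heq⟩)
          · have h4 := mem_erase.1 h3
            rw [← heq] at h4
            by_cases hty : t = y
            · rw [hty, hφ2] at h4
              exact h4.1 rfl
            · obtain ⟨h5, h6⟩ := hloc t (mem_erase.2 ⟨hty, ht⟩)
              rcases hκt2 : κ t with _ | c'
              · exact disjoint_left.1 hdis h4.2 (h5 hκt2)
              · exact disjoint_left.1 (hRA c' (hκ t c' hκt2)) (mem_sdiff.1 (h6 c' hκt2)).1 (hRx h4.2)
        · exact (mem_sdiff.1 (h2 c hκt)).2 (mem_union_right _ (mem_image.2 ⟨t, ht, heq⟩))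
    have hsplit : ∀ t ∈ C, t ∉ D → t ∈ C \ D := fun t ht h => mem_sdiff.2 ⟨ht, h⟩
    refine ⟨fun t => if t ∈ D then φ t else ψ t, ?_, ?_, ?_, ?_⟩
    · intro a ha a' ha' h
      simp only at h
      by_cases h1 : a ∈ D
      · by_cases h2 : a' ∈ D
        · rw [if_pos h1, if_pos h2] at h
          exact hφ1 h1 h2 h
        · rw [if_pos h1, if_neg h2] at h
          exact absurd h (hcr a h1 a' (hsplit a' ha' h2))
      · by_cases h2 : a' ∈ D
        · rw [if_neg h1, if_pos h2] at h
          exact absurd h.symm (hcr a' h2 a (hsplit a ha h1))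
        · rw [if_neg h1, if_neg h2] at h
          exact hψ1 (hsplit a ha h1) (hsplit a' ha' h2) h
    · simp only [if_neg hrD]
      exact hψ2
    · intro t ht
      have htr := (mem_erase.1 ht).1
      have htC := (mem_erase.1 ht).2
      by_cases htD : t ∈ D
      · simp only [if_pos htD]
        by_cases hty : t = y
        · rw [hty, hφ2]
          exact ⟨fun h => mem_union_right _ (hz1 h), fun c hc => hz2 c hc⟩
        · obtain ⟨h1, h2⟩ := hloc t (mem_erase.2 ⟨hty, htD⟩)
          refine ⟨fun h => mem_union_left _ (h1 h), fun c hc => ?_⟩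
          have h3 := mem_sdiff.1 (h2 c hc)
          exact mem_sdiff.2 ⟨h3.1, fun h => h3.2 (mem_insert_of_mem h)⟩
      · simp only [if_neg htD]
        obtain ⟨h1, h2⟩ := hψ3 t (mem_erase.2 ⟨htr, hsplit t htC htD⟩)
        refine ⟨fun h => ?_, fun c hc => ?_⟩
        · rcases mem_union.1 (h1 h) with h3 | h3
          · exact mem_union_left _ (mem_sdiff.1 h3).1
          · exact mem_union_right _ (mem_of_mem_erase h3)
        · have h3 := mem_sdiff.1 (h2 c hc)
          exact mem_sdiff.2 ⟨h3.1, fun h => h3.2 (mem_union_left _ h)⟩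
    · intro a ha a' ha' hadj
      by_cases h1 : a ∈ D
      · by_cases h2 : a' ∈ D
        · simp only [if_pos h1, if_pos h2]
          exact hφ4 a h1 a' h2 hadj
        · obtain ⟨h3, h4⟩ := hcross a h1 a' (hsplit a' ha' h2) hadj
          simp only [if_pos h1, if_neg h2]
          rw [h3, h4, hφ2, hψ2]
          exact hxz.symm
      · by_cases h2 : a' ∈ D
        · obtain ⟨h3, h4⟩ := hcross a' h2 a (hsplit a ha h1) hadj.symm
          simp only [if_neg h1, if_pos h2]
          rw [h3, h4, hφ2, hψ2]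
          exact hxz
        · simp only [if_neg h1, if_neg h2]
          exact hψ4 a (hsplit a ha h1) a' (hsplit a' ha' h2) hadj

theorem embed_tree : StEmbedTree := by
  intro V τ _ _ _ _ G T hT P κ hκ R A hRA hRR K s q Δ hK hs hq hexp kc hR C hC r hr b hb hΔ x Rx A1 U
    hA1 hRx hdis hxA1 hxRx hxU hRxn hRxc hxgood hU hA1c
  exact embed_core G T hT P κ hκ R A hRA hRR K s q Δ hK hs hq hexp kc hR C.card C rfl
    (conn_of_induce hC) r hr b hb hΔ x Rx A1 U hA1 hRx hdis hxA1 hxRx hxU hRxn hRxc hxgood hU hA1c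

end Pool.Agent.TH993.MB
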