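import Pool.Agent.TH313.SC.Sec

/-! Separable subspaces of the section space are fixed by multiplication operators with separable range. -/

set_option autoImplicit false

namespace Pool.Agent.TH993.SC8

open Filter Topology Pool.Agent.TH313.HI Pool.Agent.TH313.SC

section aux

variable {Ω M : Type} [TopologicalSpace Ω] [MetricSpace M]

/-- the closed span of the fibre vectors over `C` -/
noncomputable def VC (F : C(Ω, M)) (N : Net M) (C : Set Ω) : Submodule ℝ WT :=
  (Submodule.span ℝ (⋃ p : ℕ × ℕ, (fun t => EE N (F t) p.1 p.2) '' C)).topologicalClosure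

theorem sep_VC (F : C(Ω, M)) (N : Net M) {C : Set Ω} (hC : IsCompact C) :
    TopologicalSpace.IsSeparable (VC F N C : Set WT) := by
  have h1 : TopologicalSpace.IsSeparable (⋃ p : ℕ × ℕ, (fun t => EE N (F t) p.1 p.2) '' C) :=
    TopologicalSpace.IsSeparable.iUnion fun p =>
      (hC.image ((continuous_EE N p.1 p.2).comp F.continuous)).isSeparable
  exact (h1.span (R := ℝ)).closure

theorem ev_mem (F : C(Ω, M)) (N : Net M) {C : Set Ω} {t : Ω} (ht : t ∈ C) (y : YT F N) :
    evY F N t y ∈ VC F N C := by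
  refine YT.closure_induction F N (P := fun y => evY F N t y ∈ VC F N C) ?_ ?_ ?_ ?_ ?_ y
  · intro f hf k j hj
    rw [ev_gY F N hf hj]
    exact (VC F N C).smul_mem _ (Submodule.le_topologicalClosure _
      (Submodule.subset_span (Set.mem_iUnion.2 ⟨(k, j), t, ht, rfl⟩)))
  · rw [_root_.map_zero]; exact zero_mem _
  · intro y y' h h'
    rw [_root_.map_add]; exact add_mem h h'
  · intro c y h
    rw [_root_.map_smul]; exact (VC F N C).smul_mem _ h
  · intro y hy
    have hcl : IsClosed (VC F N C : Set WT) := Submodule.isClosed_topologicalClosure _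
    rw [← SetLike.mem_coe, ← hcl.closure_eq, Metric.mem_closure_iff]
    intro ε hε
    obtain ⟨y', h1, h2⟩ := hy (ε / 2) (by positivity)
    refine ⟨evY F N t y', h1, ?_⟩
    rw [dist_eq_norm, ← _root_.map_sub]
    exact ((norm_evY_le t _).trans h2).trans_lt (by linarith)

/-- the restriction of a section to `C` -/
noncomputable def res (F : C(Ω, M)) (N : Net M) (C : Set Ω) (y : YT F N) : C(↥C, ↥(VC F N C)) :=
  ⟨fun t => ⟨evY F N t.1 y, ev_mem F N t.2 y⟩,
    ((continuous_ev_YT y).comp continuous_subtype_val).subtype_mk _⟩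

theorem sc_C [T2Space Ω] (F : C(Ω, M)) (hF : Function.Injective F) {C : Set Ω} (hC : IsCompact C) :
    SecondCountableTopology ↥C := by
  haveI : CompactSpace ↥C := isCompact_iff_compactSpace.1 hC
  have h1 : Topology.IsClosedEmbedding (fun t : ↥C => F t.1) :=
    (F.continuous.comp continuous_subtype_val).isClosedEmbedding (hF.comp Subtype.val_injective)
  haveI : TopologicalSpace.MetrizableSpace ↥C := h1.isEmbedding.metrizableSpace
  letI := TopologicalSpace.metrizableSpaceMetric ↥C
  infer_instance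

theorem sep_mul [T2Space Ω] (F : C(Ω, M)) (hF : Function.Injective F) (N : Net M) {C : Set Ω} (hC : IsCompact C)
    (h : Ω → ℝ) (hh : Continuous h) (c : ℝ) (hc : 0 ≤ c) (hb : ∀ t, |h t| ≤ c) (hs : ∀ t, h t ≠ 0 → t ∈ C) :
    TopologicalSpace.IsSeparable (Set.range (mulY F N h hh c hc hb)) := by
  haveI : CompactSpace ↥C := isCompact_iff_compactSpace.1 hC
  haveI := sc_C F hF hC
  haveI : TopologicalSpace.SeparableSpace ↥(VC F N C) := (sep_VC F N hC).separableSpace
  haveI : SecondCountableTopology ↥(VC F N C) := UniformSpace.secondCountable_of_separable _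
  have key : ∀ y y' : YT F N, ‖mulY F N h hh c hc hb y - mulY F N h hh c hc hb y'‖ ≤
      c * ‖res F N C y - res F N C y'‖ := by
    intro y y'
    rw [← _root_.map_sub]
    refine YT.norm_le (by positivity) fun t => ?_
    rw [ev_mulY, norm_smul, Real.norm_eq_abs]
    by_cases ht : t ∈ C
    · refine mul_le_mul (hb t) ?_ (norm_nonneg _) hc
      have h1 := (res F N C y - res F N C y').norm_coe_le_norm ⟨t, ht⟩
      have h2 : (res F N C y - res F N C y') ⟨t, ht⟩ = ⟨evY F N t (y - y'), ev_mem F N ht _⟩ := by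
        apply Subtype.ext
        show evY F N t y - evY F N t y' = evY F N t (y - y')
        rw [_root_.map_sub]
      rw [h2] at h1
      exact h1
    · have h0 : h t = 0 := by_contra fun h0 => ht (hs t h0)
      rw [h0, abs_zero, zero_mul]
      positivity
  let Ψ : ↥(Set.range (res F N C)) → YT F N := fun σ => mulY F N h hh c hc hb σ.2.choose
  have hΨ : Continuous Ψ := by
    refine (LipschitzWith.of_dist_le_mul (K := ⟨c, hc⟩) fun σ σ' => ?_).continuous
    rw [dist_eq_norm]
    refine (key _ _).trans ?_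
    rw [σ.2.choose_spec, σ'.2.choose_spec, ← dist_eq_norm]
    exact le_refl _
  have hsub : Set.range (mulY F N h hh c hc hb) ⊆ Set.range Ψ := by
    rintro _ ⟨y, rfl⟩
    refine ⟨⟨res F N C y, y, rfl⟩, ?_⟩
    have h1 := key (⟨res F N C y, y, rfl⟩ : ↥(Set.range (res F N C))).2.choose y
    rw [(⟨res F N C y, y, rfl⟩ : ↥(Set.range (res F N C))).2.choose_spec] at h1
    simp only [sub_self, norm_zero, mul_zero] at h1
    exact sub_eq_zero.1 (norm_le_zero_iff.1 h1)
  exact (TopologicalSpace.isSeparable_range hΨ).mono hsub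

end aux

theorem locId {Ω M : Type} [TopologicalSpace Ω] [T2Space Ω] [LocallyCompactSpace Ω] [MetricSpace M] (F : C(Ω, M))
    (hF : Function.Injective F) (N : Net M)
    (hΩ : ∀ K : ℕ → Set Ω, (∀ n, IsCompact (K n)) → ∃ g : Ω → ℝ, Continuous g ∧ (∀ t, 0 ≤ g t ∧ g t ≤ 1) ∧
        (∀ n, ∀ t ∈ K n, g t = 1) ∧ ∃ K' : ℕ → Set Ω, (∀ n, IsCompact (K' n)) ∧ ∀ t, g t ≠ 0 → ∃ n, t ∈ K' n)
    (S : Submodule ℝ (YT F N)) (hS : TopologicalSpace.IsSeparable (S : Set (YT F N))) :
    ∃ R : YT F N →L[ℝ] YT F N, TopologicalSpace.IsSeparable (Set.range R) ∧ ∀ s ∈ S, R s = s := by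
  obtain ⟨D, hDc, hD⟩ := hS
  have hD0 : (insert 0 D : Set (YT F N)).Nonempty := Set.insert_nonempty _ _
  obtain ⟨y, hy⟩ := (hDc.insert 0).exists_eq_range hD0
  obtain ⟨g, hg, hg01, hg1, K', hK', hgK⟩ := hΩ
    (fun n => {t | 1 / ((n.unpair.2 : ℝ) + 1) ≤ |‖evY F N t (y n.unpair.1)‖|})
    (fun n => (YT.c0 F N (y n.unpair.1)).2 _ (by positivity))
  have hgb : ∀ t, |g t| ≤ 1 := fun t => by rw [abs_of_nonneg (hg01 t).1]; exact (hg01 t).2
  refine ⟨mulY F N g hg 1 zero_le_one hgb, ?_, ?_⟩
  · -- exhausting compact sets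
    have hex : ∀ n, ∃ L : Set Ω, IsCompact L ∧ K' n ⊆ interior L := fun n => exists_compact_superset (hK' n)
    choose L hL hKL using hex
    have hLc : ∀ n, IsCompact (⋃ m ∈ Finset.range (n + 1), L m) := fun n =>
      (Finset.range (n + 1)).isCompact_biUnion fun m _ => hL m
    have hchi : ∀ n, ∃ χ : C(Ω, ℝ), Set.EqOn χ 1 (⋃ m ∈ Finset.range (n + 1), L m) ∧ HasCompactSupport χ ∧
        ∀ x, χ x ∈ Set.Icc (0 : ℝ) 1 := fun n => by
      obtain ⟨χ, h1, _, h2, h3⟩ := exists_continuous_one_zero_of_isCompact (hLc n) isClosed_empty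
        (Set.disjoint_empty _)
      exact ⟨χ, h1, h2, h3⟩
    choose χ hχ1 hχc hχ01 using hchi
    have hc : ∀ n, Continuous fun t => χ n t * g t := fun n => (χ n).continuous.mul hg
    have hb : ∀ n, ∀ t, |χ n t * g t| ≤ 1 := fun n t => by
      rw [abs_mul, abs_of_nonneg (hχ01 n t).1]
      exact mul_le_one₀ (hχ01 n t).2 (abs_nonneg _) (hgb t)
    have hsep : ∀ n, TopologicalSpace.IsSeparable
        (Set.range (mulY F N (fun t => χ n t * g t) (hc n) 1 zero_le_one (hb n))) := fun n =>
      sep_mul F hF N (C := tsupport (χ n)) (hχc n) _ _ _ _ _ fun t ht =>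
        subset_tsupport _ (by
          intro h0
          exact ht (by rw [h0, zero_mul]))
    refine (TopologicalSpace.IsSeparable.iUnion hsep).closure.mono ?_
    rintro _ ⟨z, rfl⟩
    rw [Metric.mem_closure_iff]
    intro ε hε
    have hcomp : IsCompact {t | ε / 2 ≤ |g t * ‖evY F N t z‖|} :=
      ((YT.c0 F N z).mul_left hg one_pos hgb).2 _ (by positivity)
    have hcov : {t | ε / 2 ≤ |g t * ‖evY F N t z‖|} ⊆ ⋃ n, interior (L n) := by
      intro t ht
      have h1 : ε / 2 ≤ |g t * ‖evY F N t z‖| := ht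
      have h2 : g t ≠ 0 := by
        intro h0
        rw [h0, zero_mul, abs_zero] at h1
        linarith
      obtain ⟨n, hn⟩ := hgK t h2
      exact Set.mem_iUnion.2 ⟨n, hKL n hn⟩
    obtain ⟨I, hI⟩ := hcomp.elim_finite_subcover (fun n => interior (L n)) (fun n => isOpen_interior) hcov
    obtain ⟨n, hn⟩ : ∃ n, ∀ m ∈ I, m < n + 1 := ⟨I.sup id, fun m hm => Nat.lt_succ_of_le (Finset.le_sup (f := id) hm)⟩
    refine ⟨mulY F N (fun t => χ n t * g t) (hc n) 1 zero_le_one (hb n) z,
      Set.mem_iUnion.2 ⟨n, z, rfl⟩, ?_⟩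
    rw [dist_eq_norm]
    refine (YT.norm_le (C := ε / 2) (by positivity) fun t => ?_).trans_lt (by linarith)
    rw [_root_.map_sub, ev_mulY, ev_mulY, ← sub_smul, norm_smul, Real.norm_eq_abs]
    have h3 : g t - χ n t * g t = (1 - χ n t) * g t := by ring
    rw [h3, abs_mul, mul_assoc]
    have h4 := hχ01 n t
    by_cases ht : t ∈ {t | ε / 2 ≤ |g t * ‖evY F N t z‖|}
    · have h5 := hI ht
      simp only [Set.mem_iUnion] at h5
      obtain ⟨m, hm, hmt⟩ := h5
      have h6 : t ∈ ⋃ m ∈ Finset.range (n + 1), L m := by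
        simp only [Set.mem_iUnion]
        exact ⟨m, Finset.mem_range.2 (hn m hm), interior_subset hmt⟩
      have h7 : χ n t = 1 := hχ1 n h6
      rw [h7, sub_self, abs_zero, zero_mul]
      positivity
    · have h5 : |g t * ‖evY F N t z‖| < ε / 2 := not_le.1 ht
      rw [abs_mul, abs_norm] at h5
      have h6 : |1 - χ n t| ≤ 1 := by
        rw [abs_of_nonneg (by linarith [h4.2])]
        linarith [h4.1]
      calc |1 - χ n t| * (|g t| * ‖evY F N t z‖) ≤ 1 * (|g t| * ‖evY F N t z‖) :=
            mul_le_mul_of_nonneg_right h6 (by positivity)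
        _ ≤ ε / 2 := by rw [one_mul]; exact h5.le
  · intro s hs
    apply YT.ext
    intro t
    rw [ev_mulY]
    by_cases h0 : evY F N t s = 0
    · rw [h0, smul_zero]
    · have hpos : 0 < ‖evY F N t s‖ := norm_pos_iff.2 h0
      obtain ⟨d, hd, hds⟩ := Metric.mem_closure_iff.1 (hD hs) _ hpos
      obtain ⟨i, hi⟩ : d ∈ Set.range y := hy ▸ Set.mem_insert_of_mem _ hd
      have h1 : 0 < ‖evY F N t (y i)‖ := by
        have h2 := norm_evY_le t (s - y i)
        rw [hi, ← dist_eq_norm] at h2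
        have h3 : ‖evY F N t (s - d)‖ < ‖evY F N t s‖ := h2.trans_lt hds
        rw [_root_.map_sub] at h3
        have h4 := norm_sub_norm_le (evY F N t s) (evY F N t d)
        rw [hi]
        linarith
      obtain ⟨n, hn⟩ := exists_nat_one_div_lt h1
      have h5 : g t = 1 := hg1 (Nat.pair i n) t (by
        show 1 / (((Nat.pair i n).unpair.2 : ℝ) + 1) ≤ |‖evY F N t (y (Nat.pair i n).unpair.1)‖|
        rw [Nat.unpair_pair, abs_norm]
        exact hn.le)
      rw [h5, one_smul]

end Pool.Agent.TH993.SC8
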