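import Pool.Agent.TH168.Mil.Defs

/-! Job 1786 (MIL-C): sign analysis of the background. -/

set_option autoImplicit false

namespace Pool.Agent.TH993.J1786

open Set Filter Topology MeasureTheory Pool.Agent.TH168.Mil

theorem tau0 {t : ℝ} (h : t ≤ 12 / 5) : tau t = 0 := by
  unfold tau
  exact Real.smoothTransition.zero_of_nonpos (by linarith)

theorem tau1 {t : ℝ} (h : 13 / 5 ≤ t) : tau t = 1 := by
  unfold tau
  exact Real.smoothTransition.one_of_one_le (by linarith)

theorem taunn (t : ℝ) : 0 ≤ tau t := Real.smoothTransition.nonneg _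

theorem taule (t : ℝ) : tau t ≤ 1 := Real.smoothTransition.le_one _

theorem ctau : Continuous tau := by
  unfold tau
  exact Real.smoothTransition.continuous.comp (by fun_prop)

theorem comb (p w : ℝ) : Gs p * Real.cos w - Gc p * Real.sin w = ∫ s in (0:ℝ)..p, tau s * Real.sin (s - w) := by
  unfold Gs Gc
  have h1 : Continuous fun s => tau s * Real.sin s := ctau.mul Real.continuous_sin
  have h2 : Continuous fun s => tau s * Real.cos s := ctau.mul Real.continuous_cos
  have h3 : Continuous fun s => tau s * Real.sin s * Real.cos w := h1.mul continuous_const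
  have h4 : Continuous fun s => tau s * Real.cos s * Real.sin w := h2.mul continuous_const
  rw [← intervalIntegral.integral_mul_const, ← intervalIntegral.integral_mul_const,
    ← intervalIntegral.integral_sub (h3.intervalIntegrable _ _) (h4.intervalIntegrable _ _)]
  congr 1
  funext s
  rw [Real.sin_sub]
  ring

theorem comb_zero (w : ℝ) {p : ℝ} (h : p ≤ 12 / 5) : ∫ s in (0:ℝ)..p, tau s * Real.sin (s - w) = 0 := by
  have : ∫ s in (0:ℝ)..p, tau s * Real.sin (s - w) = ∫ _ in (0:ℝ)..p, (0:ℝ) := by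
    refine intervalIntegral.integral_congr fun s hs => ?_
    have hs' : s ≤ 12 / 5 := by
      rcases Set.mem_uIcc.1 hs with h' | h'
      · linarith [h'.2]
      · linarith [h'.2]
    simp only [tau0 hs', zero_mul]
  rw [this]
  simp

theorem cts (w : ℝ) : Continuous fun s => tau s * Real.sin (s - w) :=
  ctau.mul (Real.continuous_sin.comp (continuous_id.sub continuous_const))

theorem comb_mid (w p : ℝ) : ∫ s in (0:ℝ)..p, tau s * Real.sin (s - w) =
    ∫ s in (12 / 5:ℝ)..p, tau s * Real.sin (s - w) := by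
  rw [← intervalIntegral.integral_add_adjacent_intervals (b := 12 / 5) ((cts w).intervalIntegrable _ _)
    ((cts w).intervalIntegrable _ _), comb_zero w le_rfl, zero_add]

theorem mid_abs (w : ℝ) {q : ℝ} (h1 : 12 / 5 ≤ q) (h2 : q ≤ 13 / 5) :
    |∫ s in (12 / 5:ℝ)..q, tau s * Real.sin (s - w)| ≤ 1 / 5 := by
  have := intervalIntegral.norm_integral_le_of_norm_le_const (a := 12 / 5) (b := q) (C := 1)
    (f := fun s => tau s * Real.sin (s - w)) (fun s _ => by
      rw [Real.norm_eq_abs, abs_mul, abs_of_nonneg (taunn s)]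
      exact mul_le_one₀ (taule s) (abs_nonneg _) (Real.abs_sin_le_one _))
  rw [Real.norm_eq_abs, one_mul, abs_of_nonneg (by linarith : 0 ≤ q - 12 / 5)] at this
  linarith

theorem comb_far (w : ℝ) {p : ℝ} (h : 13 / 5 ≤ p) : ∫ s in (0:ℝ)..p, tau s * Real.sin (s - w) =
    (∫ s in (12 / 5:ℝ)..(13 / 5), tau s * Real.sin (s - w)) + (Real.cos (13 / 5 - w) - Real.cos (p - w)) := by
  rw [comb_mid, ← intervalIntegral.integral_add_adjacent_intervals (a := 12 / 5) (b := 13 / 5)
    ((cts w).intervalIntegrable _ _) ((cts w).intervalIntegrable _ _)]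
  congr 1
  have : ∫ s in (13 / 5:ℝ)..p, tau s * Real.sin (s - w) = ∫ s in (13 / 5:ℝ)..p, Real.sin (s - w) := by
    refine intervalIntegral.integral_congr fun s hs => ?_
    rw [Set.uIcc_of_le h] at hs
    simp only [tau1 hs.1, one_mul]
  rw [this, intervalIntegral.integral_comp_sub_right (fun x => Real.sin x) w, integral_sin]

theorem G_small {p : ℝ} (h : p ≤ 12 / 5) : Gs p = 0 ∧ Gc p = 0 := by
  have h1 := comb p 0
  have h2 := comb p (-(Real.pi / 2))
  rw [comb_zero _ h, Real.cos_zero, Real.sin_zero] at h1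
  rw [comb_zero _ h, Real.cos_neg, Real.sin_neg, Real.cos_pi_div_two, Real.sin_pi_div_two] at h2
  constructor <;> linarith

/-- the combination of the small coefficients -/
theorem lin_small {C D x y : ℝ} (hC : |C| ≤ 1 / 200) (hD : |D| ≤ 1 / 200) (hx : |x| ≤ 1) (hy : |y| ≤ 1) :
    |3 * (C * x + D * y)| ≤ 3 / 100 := by
  have h1 : |C * x| ≤ 1 / 200 * 1 := by
    rw [abs_mul]; exact mul_le_mul hC hx (abs_nonneg _) (by norm_num)
  have h2 : |D * y| ≤ 1 / 200 * 1 := by
    rw [abs_mul]; exact mul_le_mul hD hy (abs_nonneg _) (by norm_num)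
  have h3 := abs_add_le (C * x) (D * y)
  rw [abs_mul, abs_of_pos (by norm_num : (0:ℝ) < 3)]
  linarith

theorem lin_small' {C D x y : ℝ} (hC : |C| ≤ 1 / 200) (hD : |D| ≤ 1 / 200) (hx : |x| ≤ 1) (hy : |y| ≤ 1) :
    |3 * (C * x - D * y)| ≤ 3 / 100 := by
  have := lin_small (C := C) (D := D) (x := x) (y := -y) hC hD hx (by rwa [abs_neg])
  have h : 3 * (C * x - D * y) = 3 * (C * x + D * -y) := by ring
  rw [h]; exact this

theorem nat_zone' {s p e C D c1 d1 Bc' Bs' al' θ : ℝ} (hs : 0 ≤ s) (hs1 : s ≤ 1)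
    (hp : 0 ≤ p) (hp1 : p ≤ 1 / 2) (hsp : s < 1 → p ≤ 3 / 10)
    (he : 99 / 100 ≤ e) (he1 : e ≤ 1) (hC : |C| ≤ 1 / 200) (hD : |D| ≤ 1 / 200)
    (hc1 : |c1| ≤ 1 / 100) (hd1 : |d1 - e| ≤ 1 / 50)
    (hBc : Bc' = s * (-3 * Real.cos p + 4 * Real.sin p) + 3 * C)
    (hBs : Bs' = s * (-3 * Real.sin p - 4 * Real.cos p + 4 * e) - 4 * e + 3 * D)
    (hal : al' = -s * (Bc' * Real.cos p + Bs' * Real.sin p))
    (h1 : al' + Bc' * Real.cos (2 * θ) + Bs' * Real.sin (2 * θ) = 0) :
    d1 * Real.cos (2 * θ) - c1 * Real.sin (2 * θ) ≠ 0 := by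
  intro h0
  have hcs := Real.sin_sq_add_cos_sq (2 * θ)
  set c := Real.cos (2 * θ) with hc
  set σ := Real.sin (2 * θ) with hσ
  have hσ1 : |σ| ≤ 1 := Real.abs_sin_le_one _
  have hcosp : |Real.cos p| ≤ 1 := Real.abs_cos_le_one _
  have hsinp : |Real.sin p| ≤ 1 := Real.abs_sin_le_one _
  have hcs' := Real.sin_sq_add_cos_sq p
  have hd1' : 97 / 100 ≤ d1 := by
    have := (abs_le.1 hd1).1
    linarith
  -- |c| is small
  have hcsm : |c| ≤ 1 / 90 := by
    have h2 : d1 * c = c1 * σ := by linarith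
    have h3 : |d1| * |c| = |c1| * |σ| := by rw [← abs_mul, ← abs_mul, h2]
    have h4 : |c1| * |σ| ≤ 1 / 100 * 1 := mul_le_mul hc1 hσ1 (abs_nonneg _) (by norm_num)
    rw [abs_of_pos (by linarith : 0 < d1)] at h3
    have h5 : 97 / 100 * |c| ≤ d1 * |c| := mul_le_mul_of_nonneg_right hd1' (abs_nonneg _)
    linarith
  have hσ2 : 99 / 100 ≤ |σ| := by
    by_contra hlt
    push Not at hlt
    have h2 : σ ^ 2 < (99 / 100) ^ 2 := by
      rw [← sq_abs]
      exact pow_lt_pow_left₀ hlt (abs_nonneg _) (by norm_num)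
    have h3 : c ^ 2 ≤ (1 / 90) ^ 2 := by
      rw [← sq_abs]
      exact pow_le_pow_left₀ (abs_nonneg _) hcsm 2
    norm_num at h2 h3
    linarith
  -- bounds on sin p, cos p
  have hsin0 : 0 ≤ Real.sin p := Real.sin_nonneg_of_nonneg_of_le_pi hp (by linarith [Real.pi_gt_three])
  have hcosl : 1 - p ^ 2 / 2 ≤ Real.cos p := Real.one_sub_sq_div_two_le_cos
  have hsinl : p - p ^ 3 / 4 ≤ Real.sin p := by
    rcases hp.eq_or_lt with h | h
    · rw [← h]; simp
    · have := Real.sin_gt_sub_cube h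
      have h3 : 0 ≤ p ^ 3 := by positivity
      linarith
  have hsinu : Real.sin p ≤ p := Real.sin_le hp
  have hkey : 4 ≤ 3 * Real.sin p + 4 * Real.cos p := by nlinarith [mul_nonneg hp hp, mul_nonneg (mul_nonneg hp hp) hp]
  have hD' := abs_le.1 hD
  have hC' := abs_le.1 hC
  have hBsl : 394 / 100 ≤ -Bs' := by
    have hid : -Bs' = s * (3 * Real.sin p + 4 * Real.cos p - 4) + 4 * ((1 - s) * (e - 99 / 100)) +
        396 / 100 + 4 / 100 * s - 3 * D := by rw [hBs]; ring
    have h3 := mul_nonneg hs (by linarith : 0 ≤ 3 * Real.sin p + 4 * Real.cos p - 4)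
    have h4 := mul_nonneg (by linarith : 0 ≤ 1 - s) (by linarith : 0 ≤ e - 99 / 100)
    rw [hid]
    linarith [hD'.2]
  have hBcu : |Bc'| ≤ 8 := by
    rw [hBc]
    have h2 := abs_le.1 hcosp
    have h3 := abs_le.1 hsinp
    have h4 : |s * (-3 * Real.cos p + 4 * Real.sin p)| ≤ 1 * 7 := by
      rw [abs_mul, abs_of_nonneg hs]
      refine mul_le_mul hs1 ?_ (abs_nonneg _) (by norm_num)
      rw [abs_le]
      constructor <;> linarith
    have h5 := abs_le.1 h4
    rw [abs_le]
    constructor <;> linarith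
  have halval : al' = s * (3 * s + 4 * e * (1 - s) * Real.sin p - 3 * (C * Real.cos p + D * Real.sin p)) := by
    rw [hal, hBc, hBs]
    have : Real.cos p ^ 2 = 1 - Real.sin p ^ 2 := by linarith
    linear_combination (s ^ 2 * 3) * hcs'
  have hsm := abs_le.1 (lin_small hC hD hcosp hsinp)
  have hesin : 4 * e * (1 - s) * Real.sin p ≤ 3 * (1 - s) := by
    rcases hs1.eq_or_lt with h | h
    · rw [h]; simp
    · have hp3 := hsp h
      have h2 : e * Real.sin p ≤ 1 * (3 / 10) := mul_le_mul he1 (by linarith) hsin0 (by norm_num)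
      have h3 : (1 - s) * (e * Real.sin p) ≤ (1 - s) * (1 * (3 / 10)) :=
        mul_le_mul_of_nonneg_left h2 (by linarith)
      have h4 : 4 * e * (1 - s) * Real.sin p = 4 * ((1 - s) * (e * Real.sin p)) := by ring
      rw [h4]
      linarith
  have hesin0 : 0 ≤ 4 * e * (1 - s) * Real.sin p := by
    have : 0 ≤ 1 - s := by linarith
    positivity
  have halu : |al'| ≤ 304 / 100 := by
    rw [halval, abs_mul, abs_of_nonneg hs]
    have h2 : |3 * s + 4 * e * (1 - s) * Real.sin p - 3 * (C * Real.cos p + D * Real.sin p)| ≤ 303 / 100 := by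
      rw [abs_le]
      constructor <;> linarith
    calc s * |3 * s + 4 * e * (1 - s) * Real.sin p - 3 * (C * Real.cos p + D * Real.sin p)| ≤ 1 * (303 / 100) :=
          mul_le_mul hs1 h2 (abs_nonneg _) (by norm_num)
      _ ≤ _ := by norm_num
  have hfin : |Bs' * σ| ≤ 304 / 100 + 8 * (1 / 90) := by
    have h2 : Bs' * σ = -(al' + Bc' * c) := by linarith
    rw [h2, abs_neg]
    refine (abs_add_le _ _).trans (add_le_add halu ?_)
    rw [abs_mul]
    exact mul_le_mul hBcu hcsm (abs_nonneg _) (by norm_num)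
  rw [abs_mul] at hfin
  have hBsabs : 394 / 100 ≤ |Bs'| := hBsl.trans (neg_le_abs _)
  have : 394 / 100 * (99 / 100) ≤ |Bs'| * |σ| := mul_le_mul hBsabs hσ2 (by norm_num) (abs_nonneg _)
  norm_num at this hfin
  linarith

/-- bound for the full expression in terms of its main part -/
theorem expr_eq (e a b p w : ℝ) : (e + Gs p - b) * Real.cos w - (Gc p - a) * Real.sin w =
    e * Real.cos w + (∫ s in (0:ℝ)..p, tau s * Real.sin (s - w)) + (a * Real.sin w - b * Real.cos w) := by
  rw [← comb]; ring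

theorem err {a b : ℝ} (w : ℝ) (ha : |a| ≤ 1 / 100) (hb : |b| ≤ 1 / 50) :
    |a * Real.sin w - b * Real.cos w| ≤ 3 / 100 := by
  refine (abs_sub _ _).trans ?_
  rw [abs_mul, abs_mul]
  have h1 : |a| * |Real.sin w| ≤ 1 / 100 * 1 := mul_le_mul ha (Real.abs_sin_le_one _) (abs_nonneg _) (by norm_num)
  have h2 : |b| * |Real.cos w| ≤ 1 / 50 * 1 := mul_le_mul hb (Real.abs_cos_le_one _) (abs_nonneg _) (by norm_num)
  linarith

theorem N_lower' {p e a b w : ℝ} (he : 0 ≤ e) (he1 : e ≤ 1)
    (ha : |a| ≤ 1 / 100) (hb : |b| ≤ 1 / 50) :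
    -13 ≤ 4 * ((e + Gs p - b) * Real.cos w - (Gc p - a) * Real.sin w) := by
  rw [expr_eq]
  have h1 := abs_le.1 (err w ha hb)
  have h2 : -1 ≤ e * Real.cos w := by
    nlinarith [Real.neg_one_le_cos w]
  have h3 : -(11 / 5) ≤ ∫ s in (0:ℝ)..p, tau s * Real.sin (s - w) := by
    rcases le_total p (12 / 5) with h | h
    · rw [comb_zero w h]; norm_num
    rcases le_total p (13 / 5) with h' | h'
    · rw [comb_mid]
      have := abs_le.1 (mid_abs w h h')
      linarith
    · rw [comb_far w h']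
      have h4 := abs_le.1 (mid_abs w (q := 13 / 5) (by norm_num) le_rfl)
      have h5 := Real.neg_one_le_cos (13 / 5 - w)
      have h6 := Real.cos_le_one (p - w)
      linarith
  linarith

/-- lower bound of cos by the double angle -/
theorem cos_lower {x r : ℝ} (hx : |x| ≤ 2 * r) (hr : 0 ≤ r) (hr1 : r ≤ 1) :
    2 * (1 - r ^ 2 / 2) ^ 2 - 1 ≤ Real.cos x := by
  have h1 : 1 - (x / 2) ^ 2 / 2 ≤ Real.cos (x / 2) := Real.one_sub_sq_div_two_le_cos
  have h2 : (x / 2) ^ 2 ≤ r ^ 2 := by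
    rw [← sq_abs (x / 2)]
    apply pow_le_pow_left₀ (abs_nonneg _)
    rw [abs_div, abs_of_pos (by norm_num : (0:ℝ) < 2)]
    linarith
  have h3 : 0 ≤ 1 - r ^ 2 / 2 := by nlinarith
  have h4 : (1 - r ^ 2 / 2) ^ 2 ≤ Real.cos (x / 2) ^ 2 := pow_le_pow_left₀ h3 (by linarith) 2
  have h5 : Real.cos x = 2 * Real.cos (x / 2) ^ 2 - 1 := by
    rw [← Real.cos_two_mul]; congr 1; ring
  rw [h5]
  linarith

theorem N_ramp' {p e a b w : ℝ} (hp : 0 ≤ p) (hp1 : p ≤ 6 / 5)
    (he : 99 / 100 ≤ e) (he1 : e ≤ 1)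
    (ha : |a| ≤ 1 / 100) (hb : |b| ≤ 1 / 50) (hw : |w - p| ≤ 1 / 1000) :
    1 ≤ 4 * ((e + Gs p - b) * Real.cos w - (Gc p - a) * Real.sin w) := by
  rw [expr_eq, comb_zero w (by linarith)]
  have h1 := abs_le.1 (err w ha hb)
  have hw' := abs_le.1 hw
  have h2 : |w| ≤ 2 * (6005 / 10000) := by
    rw [abs_le]; constructor <;> linarith
  have h3 := cos_lower h2 (by norm_num) (by norm_num)
  norm_num at h3
  nlinarith

theorem near_wall' {t k C D p μ : ℝ} (ht : 0 ≤ t) (ht1 : t ≤ 1) (hk : 1000 ≤ k)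
    (hC : |C| ≤ 1 / 200) (hD : |D| ≤ 1 / 200) (hmu : |4 * μ * k| ≤ 1) :
    5 * |μ| ≤ |2 * Real.sin μ * ((3 + 2 * t * k - 3 * (C * Real.cos p + D * Real.sin p)) *
      Real.sin μ - (4 + 3 * (C * Real.sin p - D * Real.cos p)) * Real.cos μ)| := by
  have hcp := Real.abs_cos_le_one p
  have hsp := Real.abs_sin_le_one p
  have h1 := abs_le.1 (lin_small hC hD hcp hsp)
  have h2 := abs_le.1 (lin_small' hC hD hsp hcp)
  set A := 3 + 2 * t * k - 3 * (C * Real.cos p + D * Real.sin p) with hA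
  set B := 4 + 3 * (C * Real.sin p - D * Real.cos p) with hB
  have hmk : |μ| * k ≤ 1 / 4 := by
    rw [abs_mul, abs_mul, abs_of_pos (by norm_num : (0:ℝ) < 4), abs_of_pos (by linarith : 0 < k)] at hmu
    linarith
  have hm : |μ| ≤ 1 / 4000 := by nlinarith [abs_nonneg μ]
  have hsinu : |Real.sin μ| ≤ |μ| := Real.abs_sin_le_abs
  have htk : 0 ≤ t * k := mul_nonneg ht (by linarith)
  have htk' : t * k ≤ k := by nlinarith
  have hA0 : 0 ≤ A := by rw [hA]; nlinarith
  have hA1 : A ≤ 4 + 2 * k := by rw [hA]; nlinarith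
  have hAs : |A * Real.sin μ| ≤ 6 / 10 := by
    rw [abs_mul, abs_of_nonneg hA0]
    calc A * |Real.sin μ| ≤ (4 + 2 * k) * |μ| := mul_le_mul hA1 hsinu (abs_nonneg _) (by linarith)
      _ ≤ 6 / 10 := by nlinarith
  have hcos : 9 / 10 ≤ Real.cos μ := by
    have h3 : 1 - μ ^ 2 / 2 ≤ Real.cos μ := Real.one_sub_sq_div_two_le_cos
    have h4 : μ ^ 2 ≤ (1 / 4000) ^ 2 := by
      rw [← sq_abs]; exact pow_le_pow_left₀ (abs_nonneg _) hm 2
    norm_num at h4
    linarith
  have hBl : 397 / 100 ≤ B := by rw [hB]; linarith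
  have hin : 29 / 10 ≤ |A * Real.sin μ - B * Real.cos μ| := by
    have h3 : B * Real.cos μ - A * Real.sin μ ≤ |A * Real.sin μ - B * Real.cos μ| := by
      rw [abs_sub_comm]; exact le_abs_self _
    have h4 := (abs_le.1 hAs).2
    have h5 : 397 / 100 * (9 / 10) ≤ B * Real.cos μ := mul_le_mul hBl hcos (by norm_num) (by linarith)
    norm_num at h5
    linarith
  have hsinl : 9 / 10 * |μ| ≤ |Real.sin μ| := by
    rcases (abs_nonneg μ).eq_or_lt with h | h
    · rw [← h]; simp
    · have h3 := Real.sin_gt_sub_cube h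
      have h4 : Real.sin |μ| ≤ |Real.sin μ| := by
        rcases abs_cases μ with ⟨h5, _⟩ | ⟨h5, _⟩
        · rw [h5]; exact le_abs_self _
        · rw [h5, Real.sin_neg]; exact neg_le_abs _
      have h6 : |μ| ^ 3 ≤ |μ| * (1 / 4000) ^ 2 := by
        have : |μ| ^ 2 ≤ (1 / 4000) ^ 2 := pow_le_pow_left₀ (abs_nonneg _) hm 2
        nlinarith
      norm_num at h6
      linarith
  rw [abs_mul, abs_mul, abs_of_pos (by norm_num : (0:ℝ) < 2)]
  calc 5 * |μ| ≤ 2 * (9 / 10 * |μ|) * (29 / 10) := by nlinarith [abs_nonneg μ]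
    _ ≤ 2 * |Real.sin μ| * |A * Real.sin μ - B * Real.cos μ| :=
        mul_le_mul (by linarith) hin (by norm_num) (by positivity)

theorem sin_half_lower {x : ℝ} (hx : 0 < x) : x - x ^ 3 / 6 ≤ Real.sin x := (Real.sin_gt_sub_cube hx).le

/-- upper bound of cos by the half angle -/
theorem cos_upper {x : ℝ} (hx : 0 < x) (hx1 : x ≤ 1) : Real.cos (2 * x) ≤ 1 - 2 * (x - x ^ 3 / 6) ^ 2 := by
  have h1 := sin_half_lower hx
  have h2 : 0 ≤ x - x ^ 3 / 6 := by
    have : x ^ 3 ≤ x := by
      calc x ^ 3 = x * (x * x) := by ring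
        _ ≤ x * (1 * 1) := by
          apply mul_le_mul_of_nonneg_left _ hx.le
          exact mul_le_mul hx1 hx1 hx.le zero_le_one
        _ = x := by ring
    linarith
  have h3 : (x - x ^ 3 / 6) ^ 2 ≤ Real.sin x ^ 2 := pow_le_pow_left₀ h2 h1 2
  rw [Real.cos_two_mul]
  have := Real.sin_sq_add_cos_sq x
  linarith

theorem mu_le {S K μ : ℝ} (hS : S = Real.sin μ) (hK : K = Real.cos μ) (h0 : 0 < μ) (h1 : μ < Real.pi / 2)
    (h : 297 / 100 * S ≤ 403 / 100 * K) : μ ≤ 19 / 20 := by
  by_contra hlt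
  push Not at hlt
  have hpi := Real.pi_gt_three
  have h2 : Real.sin (19 / 20) < Real.sin μ := by
    apply Real.sin_lt_sin_of_lt_of_le_pi_div_two <;> linarith
  have h3 : Real.cos μ < Real.cos (19 / 20) := by
    apply Real.cos_lt_cos_of_nonneg_of_le_pi <;> linarith
  have h4 : Real.cos (19 / 20) ≤ 583 / 1000 := by
    have := cos_upper (x := 19 / 40) (by norm_num) (by norm_num)
    rw [show (2:ℝ) * (19 / 40) = 19 / 20 by norm_num] at this
    norm_num at this
    linarith
  have h5 : 811 / 1000 ≤ Real.sin (19 / 20) := by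
    have h6 := sin_half_lower (x := 19 / 40) (by norm_num)
    have h7 : 1 - (19 / 40) ^ 2 / 2 ≤ Real.cos (19 / 40) := Real.one_sub_sq_div_two_le_cos
    have h8 : Real.sin (19 / 20) = 2 * Real.sin (19 / 40) * Real.cos (19 / 40) := by
      rw [← Real.sin_two_mul]; congr 1; norm_num
    have h9 : (457 / 1000 : ℝ) ≤ Real.sin (19 / 40) := by norm_num at h6; linarith
    have h10 : (8871 / 10000 : ℝ) ≤ Real.cos (19 / 40) := by norm_num at h7; linarith
    have h11 : (457 / 1000 : ℝ) * (8871 / 10000) ≤ Real.sin (19 / 40) * Real.cos (19 / 40) :=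
      mul_le_mul h9 h10 (by norm_num) (by linarith)
    rw [h8]
    norm_num at h11
    linarith
  rw [hS, hK] at h
  linarith

theorem le_mu {S K μ : ℝ} (hS : S = Real.sin μ) (hK : K = Real.cos μ) (h0 : 0 < μ)
    (h : 397 / 100 * K ≤ 303 / 100 * S) : 9 / 10 ≤ μ := by
  by_contra hlt
  push Not at hlt
  have hpi := Real.pi_gt_three
  have h2 : Real.sin μ < Real.sin (9 / 10) := by
    apply Real.sin_lt_sin_of_lt_of_le_pi_div_two <;> linarith
  have h3 : Real.cos (9 / 10) < Real.cos μ := by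
    apply Real.cos_lt_cos_of_nonneg_of_le_pi <;> linarith
  have h4 := cos_lower (x := 9 / 10) (r := 9 / 20) (by rw [abs_of_pos] <;> norm_num) (by norm_num) (by norm_num)
  have h5 : 615 / 1000 ≤ Real.cos (9 / 10) := by norm_num at h4; linarith
  have h6 : Real.sin (9 / 10) ≤ 789 / 1000 := by
    by_contra hlt'
    push Not at hlt'
    have h7 := Real.sin_sq_add_cos_sq (9 / 10)
    have h8 : (789 / 1000 : ℝ) ^ 2 < Real.sin (9 / 10) ^ 2 := pow_lt_pow_left₀ hlt' (by norm_num) (by norm_num)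
    have h9 : (615 / 1000 : ℝ) ^ 2 ≤ Real.cos (9 / 10) ^ 2 := pow_le_pow_left₀ (by norm_num) h5 2
    norm_num at h8 h9
    linarith
  rw [hS, hK] at h
  linarith

theorem far_wall' {p k C D e a b μ : ℝ} (hp : 2 / 5 ≤ p) (hk : 1000 ≤ k)
    (hC : |C| ≤ 1 / 200) (hD : |D| ≤ 1 / 200) (he : 99 / 100 ≤ e) (he1 : e ≤ 1)
    (ha : |a| ≤ 1 / 100) (hb : |b| ≤ 1 / 50)
    (hmu : |μ| ≤ Real.pi / 2) (hne : μ ≠ 0)
    (h1 : (3 + 2 * tau p * k - 3 * (C * Real.cos p + D * Real.sin p)) * Real.sin μ =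
      (4 + 3 * (C * Real.sin p - D * Real.cos p)) * Real.cos μ) :
    (e + Gs p - b) * Real.cos (p + 2 * μ) - (Gc p - a) * Real.sin (p + 2 * μ) < 0 := by
  rw [expr_eq]
  have herr := abs_le.1 (err (p + 2 * μ) ha hb)
  have hcp := Real.abs_cos_le_one p
  have hsp := Real.abs_sin_le_one p
  have hl1 := abs_le.1 (lin_small hC hD hcp hsp)
  have hl2 := abs_le.1 (lin_small' hC hD hsp hcp)
  set A := 3 + 2 * tau p * k - 3 * (C * Real.cos p + D * Real.sin p) with hA
  set B := 4 + 3 * (C * Real.sin p - D * Real.cos p) with hB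
  have hmu' := abs_le.1 hmu
  have htk : 0 ≤ tau p * k := mul_nonneg (taunn p) (by linarith)
  have hA0 : 297 / 100 ≤ A := by rw [hA]; linarith
  have hB0 : 397 / 100 ≤ B := by rw [hB]; linarith
  have hB1 : B ≤ 403 / 100 := by rw [hB]; linarith
  have hcos0 : 0 ≤ Real.cos μ := Real.cos_nonneg_of_neg_pi_div_two_le_of_le (by linarith) (by linarith)
  have hcs := Real.sin_sq_add_cos_sq μ
  have hcospos : 0 < Real.cos μ := by
    rcases hcos0.eq_or_lt with h | h
    · exfalso
      rw [← h, mul_zero] at h1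
      have h2 : Real.sin μ = 0 := by
        rcases mul_eq_zero.1 h1 with h3 | h3
        · linarith
        · exact h3
      rw [h2, ← h] at hcs
      norm_num at hcs
    · exact h
  have hsinpos : 0 < Real.sin μ := by
    by_contra hle
    push Not at hle
    have h2 : A * Real.sin μ ≤ 0 := mul_nonpos_of_nonneg_of_nonpos (by linarith) hle
    have h3 : 0 < B * Real.cos μ := mul_pos (by linarith) hcospos
    linarith
  have hmupos : 0 < μ := by
    by_contra hle
    push Not at hle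
    have := Real.sin_nonpos_of_nonpos_of_neg_pi_le hle (by linarith [Real.pi_pos])
    linarith
  have hmult : μ < Real.pi / 2 := by
    rcases hmu'.2.eq_or_lt with h | h
    · exfalso
      rw [h, Real.cos_pi_div_two] at hcospos
      exact lt_irrefl _ hcospos
    · exact h
  have hpi1 := Real.pi_gt_d2
  have hpi2 := Real.pi_lt_d2
  -- the bound for `μ`
  have hup : 297 / 100 * Real.sin μ ≤ 403 / 100 * Real.cos μ := by
    have h2 : 297 / 100 * Real.sin μ ≤ A * Real.sin μ := mul_le_mul_of_nonneg_right hA0 hsinpos.le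
    have h3 : B * Real.cos μ ≤ 403 / 100 * Real.cos μ := mul_le_mul_of_nonneg_right hB1 hcospos.le
    linarith
  have hmu95 := mu_le rfl rfl hmupos hmult hup
  have hcosw : ∀ r, 0 ≤ r → r ≤ 1 → |p + 2 * μ - Real.pi| ≤ 2 * r →
      Real.cos (p + 2 * μ) ≤ -(2 * (1 - r ^ 2 / 2) ^ 2 - 1) := by
    intro r hr hr1 h
    have h2 := cos_lower h hr hr1
    rw [Real.cos_sub_pi] at h2
    linarith
  rcases le_total p (12 / 5) with hp1 | hp1
  · -- first range
    have htau : tau p = 0 := tau0 hp1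
    have hA1 : A ≤ 303 / 100 := by rw [hA, htau]; linarith
    have hlow : 397 / 100 * Real.cos μ ≤ 303 / 100 * Real.sin μ := by
      have h2 : A * Real.sin μ ≤ 303 / 100 * Real.sin μ := mul_le_mul_of_nonneg_right hA1 hsinpos.le
      have h3 : 397 / 100 * Real.cos μ ≤ B * Real.cos μ := mul_le_mul_of_nonneg_right hB0 hcospos.le
      linarith
    have hmu9 := le_mu rfl rfl hmupos hlow
    have hw := hcosw (58 / 100) (by norm_num) (by norm_num) (by rw [abs_le]; constructor <;> linarith)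
    rw [comb_zero _ hp1]
    norm_num at hw
    have h2 : e * Real.cos (p + 2 * μ) ≤ 99 / 100 * (-(38 / 100)) := by
      nlinarith
    norm_num at h2
    linarith
  · rcases le_total p (13 / 5) with hp2 | hp2
    · have hw := hcosw (68 / 100) (by norm_num) (by norm_num) (by rw [abs_le]; constructor <;> linarith)
      rw [comb_mid]
      have hint : ∫ s in (12 / 5:ℝ)..p, tau s * Real.sin (s - (p + 2 * μ)) ≤ 0 := by
        have h2 : 0 ≤ ∫ s in (12 / 5:ℝ)..p, -(tau s * Real.sin (s - (p + 2 * μ))) := by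
          refine intervalIntegral.integral_nonneg hp1 fun s hs => ?_
          have h3 : 0 ≤ Real.sin ((p + 2 * μ) - s) :=
            Real.sin_nonneg_of_nonneg_of_le_pi (by linarith [hs.2]) (by linarith [hs.1])
          have h4 : Real.sin (s - (p + 2 * μ)) = - Real.sin ((p + 2 * μ) - s) := by
            rw [← Real.sin_neg]; congr 1; ring
          rw [h4]
          have := mul_nonneg (taunn s) h3
          linarith
        rw [intervalIntegral.integral_neg] at h2
        linarith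
      norm_num at hw
      have h2 : e * Real.cos (p + 2 * μ) ≤ 99 / 100 * (-(18 / 100)) := by
        nlinarith
      norm_num at h2
      linarith
    · have htau : tau p = 1 := tau1 hp2
      have hA1 : 2002 ≤ A := by rw [hA, htau]; linarith
      have hS : Real.sin μ ≤ 1 / 400 := by
        have h2 : 2002 * Real.sin μ ≤ A * Real.sin μ := mul_le_mul_of_nonneg_right hA1 hsinpos.le
        have h3 : B * Real.cos μ ≤ 403 / 100 * 1 :=
          mul_le_mul hB1 (Real.cos_le_one _) hcospos.le (by norm_num)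
        linarith
      have hc2 : 999 / 1000 ≤ Real.cos (2 * μ) := by
        rw [Real.cos_two_mul]
        have h2 : Real.sin μ ^ 2 ≤ (1 / 400) ^ 2 := pow_le_pow_left₀ hsinpos.le hS 2
        norm_num at h2
        linarith
      rw [comb_far _ hp2]
      have hI := abs_le.1 (mid_abs (p + 2 * μ) (q := 13 / 5) (by norm_num) le_rfl)
      have h2 : Real.cos (p - (p + 2 * μ)) = Real.cos (2 * μ) := by
        rw [← Real.cos_neg]; congr 1; ring
      have h3 : Real.cos (p + 2 * μ) + Real.cos (13 / 5 - (p + 2 * μ)) =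
          2 * Real.cos (13 / 10) * Real.cos (p + 2 * μ - 13 / 10) := by
        rw [Real.cos_add_cos]
        congr 2
        · congr 1; ring
        · ring
      have h4 : Real.cos (13 / 10) ≤ 27 / 100 := by
        have := cos_upper (x := 13 / 20) (by norm_num) (by norm_num)
        rw [show (2:ℝ) * (13 / 20) = 13 / 10 by norm_num] at this
        norm_num at this
        linarith
      have h5 : 0 ≤ Real.cos (13 / 10) := Real.cos_nonneg_of_neg_pi_div_two_le_of_le (by linarith only [hpi1]) (by linarith only [hpi1])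
      have h6 : Real.cos (p + 2 * μ - 13 / 10) ≤ 1 := Real.cos_le_one _
      have h7 : Real.cos (13 / 10) * Real.cos (p + 2 * μ - 13 / 10) ≤ 27 / 100 := by
        calc Real.cos (13 / 10) * Real.cos (p + 2 * μ - 13 / 10) ≤ Real.cos (13 / 10) * 1 :=
              mul_le_mul_of_nonneg_left h6 h5
          _ ≤ 27 / 100 := by rw [mul_one]; exact h4
      have h8 : e * Real.cos (p + 2 * μ) ≤ Real.cos (p + 2 * μ) + 1 / 100 := by
        have h9 := Real.neg_one_le_cos (p + 2 * μ)
        have h10 : (1 - e) * (-1) ≤ (1 - e) * Real.cos (p + 2 * μ) :=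
          mul_le_mul_of_nonneg_left h9 (by linarith only [he1])
        linarith only [h10, he]
      rw [h2]
      linarith only [hI.2, h3, h7, h8, hc2, herr.2]

end Pool.Agent.TH993.J1786
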