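import Pool.Agent.TH317.CC.Arr

/-!
# Limit of the smoothed intersection number of two half arcs
(project MP_86dbc7_gt of helper317)
-/

set_option autoImplicit false

universe u v w

namespace Pool.Agent.TH317.CC

open Filter Topology

namespace H993

/-- clamping to the interval `[0, 1/2]` -/
noncomputable def cl (s : ℝ) : ℝ := max 0 (min s (1 / 2))

theorem cl_cont : Continuous cl := by
  unfold cl
  fun_prop

theorem cl_mem (s : ℝ) : cl s ∈ Set.Icc (0 : ℝ) (1 / 2) := by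
  unfold cl
  exact ⟨le_max_left _ _, max_le (by norm_num) (min_le_right _ _)⟩

theorem cl_eq {s : ℝ} (h : s ∈ Set.Icc (0 : ℝ) (1 / 2)) : cl s = s := by
  unfold cl
  rw [min_eq_left h.2, max_eq_right h.1]

theorem cont_cl {f : ℝ → ℝ × ℝ} (hf : ContinuousOn f (Set.Icc 0 (1 / 2))) :
    Continuous (fun s => f (cl s)) := hf.comp_continuous cl_cont cl_mem

/-- the rescaled integrand -/
noncomputable def H (ψ : ℝ → ℝ) (a a' b b' : ℝ → ℝ × ℝ) (ε s t : ℝ) : ℝ :=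
  ψ (((a (cl s)).1 - (b (cl t)).1) / ε) * ψ (((a (cl s)).2 - (b (cl t)).2) / ε) *
    det2 (a' (cl s)) (b' (cl t))

/-- the limit integrand -/
noncomputable def G0 (ψ : ℝ → ℝ) (A B : ℝ × ℝ) (x y : ℝ) : ℝ :=
  ψ (x * A.1 - y * B.1) * ψ (x * A.2 - y * B.2) * det2 A B

theorem psi_zero {ψ : ℝ → ℝ} (hsupp : ∀ x, 1 ≤ |x| → ψ x = 0) (p : ℝ × ℝ) (h : 1 ≤ ‖p‖) :
    ψ p.1 * ψ p.2 = 0 := by
  rw [Prod.norm_def, le_max_iff, Real.norm_eq_abs, Real.norm_eq_abs] at h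
  rcases h with h | h
  · rw [hsupp _ h, zero_mul]
  · rw [hsupp _ h, mul_zero]

theorem psi_zero' {ψ : ℝ → ℝ} (hsupp : ∀ x, 1 ≤ |x| → ψ x = 0) (p q : ℝ × ℝ) {ε : ℝ}
    (hε : 0 < ε) (h : ε ≤ ‖p - q‖) :
    ψ ((p.1 - q.1) / ε) * ψ ((p.2 - q.2) / ε) = 0 := by
  have h1 := psi_zero hsupp (ε⁻¹ • (p - q)) (by
    rw [norm_smul, norm_inv, Real.norm_eq_abs, abs_of_pos hε, inv_mul_eq_div]
    rwa [one_le_div hε])
  have e1 : (ε⁻¹ • (p - q)).1 = (p.1 - q.1) / ε := by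
    rw [Prod.smul_fst, Prod.fst_sub, smul_eq_mul, inv_mul_eq_div]
  have e2 : (ε⁻¹ • (p - q)).2 = (p.2 - q.2) / ε := by
    rw [Prod.smul_snd, Prod.snd_sub, smul_eq_mul, inv_mul_eq_div]
  rwa [e1, e2] at h1

/-! ### Substitution -/

theorem subst (f : ℝ → ℝ) {ε : ℝ} (hε : 0 < ε) :
    ∫ s in (0 : ℝ)..(1 / 2), f s = ε * ∫ x in (0 : ℝ)..(1 / (2 * ε)), f (ε * x) := by
  have h := intervalIntegral.smul_integral_comp_mul_left (a := 0) (b := 1 / (2 * ε)) f ε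
  rw [smul_eq_mul, mul_zero] at h
  rw [h]
  congr 1
  field_simp

theorem Ihalf_eq (ψ : ℝ → ℝ) (a a' b b' : ℝ → ℝ × ℝ) {ε : ℝ} (hε : 0 < ε) :
    Ihalf (scal ψ ε) a a' b b' = ∫ x in (0 : ℝ)..(1 / (2 * ε)), ∫ y in (0 : ℝ)..(1 / (2 * ε)),
      H ψ a a' b b' ε (ε * x) (ε * y) := by
  have h1 : Ihalf (scal ψ ε) a a' b b' = ∫ s in (0 : ℝ)..(1 / 2), ∫ t in (0 : ℝ)..(1 / 2),
      (ε⁻¹ * ε⁻¹) * H ψ a a' b b' ε s t := by
    rw [Ihalf]
    apply intervalIntegral.integral_congr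
    intro s hs
    apply intervalIntegral.integral_congr
    intro t ht
    rw [Set.uIcc_of_le (by norm_num)] at hs ht
    simp only [H, scal, cl_eq hs, cl_eq ht]
    field_simp
  rw [h1, subst _ hε]
  have h2 : ∀ x, ∫ t in (0 : ℝ)..(1 / 2), (ε⁻¹ * ε⁻¹) * H ψ a a' b b' ε (ε * x) t =
      ε⁻¹ * ∫ y in (0 : ℝ)..(1 / (2 * ε)), H ψ a a' b b' ε (ε * x) (ε * y) := by
    intro x
    rw [subst _ hε, intervalIntegral.integral_const_mul]
    field_simp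
  simp only [h2]
  rw [intervalIntegral.integral_const_mul]
  field_simp

/-! ### Cutting the domain -/

theorem int_zero (f : ℝ → ℝ) {u v : ℝ} (huv : u ≤ v) (h : ∀ x ∈ Set.Icc u v, f x = 0) :
    ∫ x in u..v, f x = 0 := by
  have h2 : ∫ x in u..v, f x = ∫ x in u..v, (0 : ℝ) := by
    apply intervalIntegral.integral_congr
    intro x hx
    rw [Set.uIcc_of_le huv] at hx
    exact h x hx
  rw [h2, intervalIntegral.integral_zero]

theorem cut1 (f : ℝ → ℝ) (hf : Continuous f) {R N : ℝ} (hRN : R ≤ N)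
    (h : ∀ x ∈ Set.Icc R N, f x = 0) : ∫ x in (0 : ℝ)..N, f x = ∫ x in (0 : ℝ)..R, f x := by
  rw [← intervalIntegral.integral_add_adjacent_intervals (b := R)
    (hf.intervalIntegrable _ _) (hf.intervalIntegrable _ _)]
  have h1 : ∫ x in R..N, f x = 0 := by
    have h2 : ∫ x in R..N, f x = ∫ x in R..N, (0 : ℝ) := by
      apply intervalIntegral.integral_congr
      intro x hx
      rw [Set.uIcc_of_le hRN] at hx
      exact h x hx
    rw [h2, intervalIntegral.integral_zero]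
  rw [h1, add_zero]

theorem cut2 (G : ℝ → ℝ → ℝ) (hG : Continuous (Function.uncurry G)) {R N : ℝ} (hR : 0 ≤ R)
    (hRN : R ≤ N)
    (h : ∀ x ∈ Set.Icc 0 N, ∀ y ∈ Set.Icc 0 N, R ≤ x + y → G x y = 0) :
    ∫ x in (0 : ℝ)..N, ∫ y in (0 : ℝ)..N, G x y =
      ∫ x in (0 : ℝ)..R, ∫ y in (0 : ℝ)..R, G x y := by
  rw [cut1 _ (intervalIntegral.continuous_parametric_intervalIntegral_of_continuous' hG 0 N) hRN]
  · apply intervalIntegral.integral_congr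
    intro x hx
    rw [Set.uIcc_of_le hR] at hx
    apply cut1 _ (hG.comp (f := fun y : ℝ => (x, y)) (by fun_prop)) hRN
    intro y hy
    exact h x ⟨hx.1, hx.2.trans hRN⟩ y ⟨hR.trans hy.1, hy.2⟩ (by linarith [hx.1, hy.1])
  · intro x hx
    have h2 : ∫ y in (0 : ℝ)..N, G x y = ∫ y in (0 : ℝ)..N, (0 : ℝ) := by
      apply intervalIntegral.integral_congr
      intro y hy
      rw [Set.uIcc_of_le (hR.trans hRN)] at hy
      exact h x ⟨hR.trans hx.1, hx.2⟩ y hy (by linarith [hx.1, hy.1])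
    rw [h2, intervalIntegral.integral_zero]

/-! ### Expansion at the common point -/

theorem expand {a : ℝ → ℝ × ℝ} {A : ℝ × ℝ}
    (ha : HasDerivWithinAt a A (Set.Icc 0 (1 / 2)) 0) {η : ℝ} (hη : 0 < η) :
    ∃ τ : ℝ, 0 < τ ∧ τ ≤ 1 / 2 ∧ ∀ s : ℝ, 0 ≤ s → s ≤ τ → ‖a s - a 0 - s • A‖ ≤ η * s := by
  have h1 := (hasDerivWithinAt_iff_isLittleO.1 ha).def hη
  rw [Filter.Eventually, Metric.mem_nhdsWithin_iff] at h1
  obtain ⟨r, hr, h2⟩ := h1
  refine ⟨min (r / 2) (1 / 2), lt_min (by linarith) (by norm_num), min_le_right _ _, ?_⟩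
  intro s hs0 hs1
  have hs2 : s ≤ r / 2 := hs1.trans (min_le_left _ _)
  have hs3 : s ≤ 1 / 2 := hs1.trans (min_le_right _ _)
  have h3 := h2 (show s ∈ Metric.ball (0 : ℝ) r ∩ Set.Icc 0 (1 / 2) from
    ⟨by rw [Metric.mem_ball, Real.dist_eq, sub_zero, abs_of_nonneg hs0]; linarith, hs0, hs3⟩)
  simp only [Set.mem_ofPred_eq, sub_zero, Real.norm_eq_abs, abs_of_nonneg hs0] at h3
  exact h3

theorem lower {A B : ℝ × ℝ} (hA : A ≠ 0) (hB : B ≠ 0) (hp : ∀ μ : ℝ, 0 < μ → B ≠ μ • A) :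
    ∃ c : ℝ, 0 < c ∧ ∀ x y : ℝ, 0 ≤ x → 0 ≤ y → 2 * c * (x + y) ≤ ‖x • A - y • B‖ := by
  obtain ⟨z, hz, hmin⟩ := isCompact_Icc.exists_isMinOn (Set.nonempty_Icc.2 zero_le_one)
    (f := fun x : ℝ => ‖x • A - (1 - x) • B‖) (by fun_prop)
  have hpos : 0 < ‖z • A - (1 - z) • B‖ := by
    rw [norm_pos_iff]
    intro h0
    have h1 : z • A = (1 - z) • B := sub_eq_zero.1 h0
    rcases eq_or_lt_of_le hz.1 with h2 | h2
    · rw [← h2, zero_smul, sub_zero, one_smul] at h1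
      exact hB h1.symm
    · rcases eq_or_lt_of_le hz.2 with h3 | h3
      · rw [h3, sub_self, zero_smul, one_smul] at h1
        exact hA h1
      · have h4 : 0 < 1 - z := by linarith
        apply hp (z / (1 - z)) (div_pos h2 h4)
        rw [div_eq_inv_mul, mul_smul, h1, smul_smul, inv_mul_cancel₀ h4.ne', one_smul]
  refine ⟨‖z • A - (1 - z) • B‖ / 2, by linarith, ?_⟩
  intro x y hx hy
  rcases eq_or_lt_of_le (add_nonneg hx hy) with h0 | h0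
  · rw [← h0, mul_zero]
    exact norm_nonneg _
  · have h1 : x / (x + y) ∈ Set.Icc (0 : ℝ) 1 :=
      ⟨by positivity, by rw [div_le_one h0]; linarith⟩
    have h2 : ‖z • A - (1 - z) • B‖ ≤ ‖(x / (x + y)) • A - (1 - x / (x + y)) • B‖ := hmin h1
    have h3 : x • A - y • B = (x + y) • ((x / (x + y)) • A - (1 - x / (x + y)) • B) := by
      rw [smul_sub, smul_smul, smul_smul]
      congr 2
      · field_simp
      · field_simp
        ring
    rw [h3, norm_smul, Real.norm_eq_abs, abs_of_pos h0]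
    nlinarith

theorem sep {a b : ℝ → ℝ × ℝ} (ha : ContinuousOn a (Set.Icc 0 (1 / 2)))
    (hb : ContinuousOn b (Set.Icc 0 (1 / 2))) {τ : ℝ} (hτ : τ ≤ 1)
    (hne : ∀ s ∈ Set.Icc (0 : ℝ) (1 / 2), ∀ t ∈ Set.Icc (0 : ℝ) (1 / 2), τ ≤ s + t → a s ≠ b t) :
    ∃ δ : ℝ, 0 < δ ∧ ∀ s ∈ Set.Icc (0 : ℝ) (1 / 2), ∀ t ∈ Set.Icc (0 : ℝ) (1 / 2),
      τ ≤ s + t → δ ≤ ‖a s - b t‖ := by
  set K : Set (ℝ × ℝ) := (Set.Icc (0 : ℝ) (1 / 2) ×ˢ Set.Icc (0 : ℝ) (1 / 2)) ∩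
    {p | τ ≤ p.1 + p.2} with hK
  have hKc : IsCompact K := (isCompact_Icc.prod isCompact_Icc).inter_right
    (isClosed_le continuous_const (by fun_prop))
  have hKne : K.Nonempty := ⟨(1 / 2, 1 / 2), ⟨⟨by norm_num, by norm_num⟩, by norm_num, by norm_num⟩,
    by
      change τ ≤ 1 / 2 + 1 / 2
      linarith⟩
  have hcont : ContinuousOn (fun p : ℝ × ℝ => ‖a p.1 - b p.2‖) K := by
    apply ContinuousOn.norm
    apply ContinuousOn.sub
    · exact ha.comp continuousOn_fst (fun p hp => hp.1.1)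
    · exact hb.comp continuousOn_snd (fun p hp => hp.1.2)
  obtain ⟨z, hz, hmin⟩ := hKc.exists_isMinOn hKne hcont
  refine ⟨‖a z.1 - b z.2‖, ?_, ?_⟩
  · rw [norm_pos_iff, sub_ne_zero]
    exact hne z.1 hz.1.1 z.2 hz.1.2 hz.2
  · intro s hs t ht hst
    exact hmin (show (s, t) ∈ K from ⟨⟨hs, ht⟩, hst⟩)

theorem psi_bound {ψ : ℝ → ℝ} (hψ : Continuous ψ) (hsupp : ∀ x, 1 ≤ |x| → ψ x = 0) :
    ∃ M : ℝ, 0 ≤ M ∧ ∀ x, |ψ x| ≤ M := by
  obtain ⟨M, hM⟩ := (isCompact_Icc (a := (-1 : ℝ)) (b := 1)).exists_bound_of_continuousOn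
    hψ.continuousOn
  refine ⟨max M 0, le_max_right _ _, fun x => ?_⟩
  by_cases hx : x ∈ Set.Icc (-1 : ℝ) 1
  · exact (hM x hx).trans (le_max_left _ _)
  · rw [hsupp x, abs_zero]
    · exact le_max_right _ _
    · by_contra h
      exact hx (abs_le.1 (not_le.1 h).le)

theorem det2_le (P Q : ℝ × ℝ) : |det2 P Q| ≤ 2 * (‖P‖ * ‖Q‖) := by
  have h1 : |P.1| ≤ ‖P‖ := norm_fst_le P
  have h2 : |P.2| ≤ ‖P‖ := norm_snd_le P
  have h3 : |Q.1| ≤ ‖Q‖ := norm_fst_le Q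
  have h4 : |Q.2| ≤ ‖Q‖ := norm_snd_le Q
  rw [det2]
  calc |P.1 * Q.2 - P.2 * Q.1| ≤ |P.1 * Q.2| + |P.2 * Q.1| := abs_sub _ _
    _ = |P.1| * |Q.2| + |P.2| * |Q.1| := by rw [abs_mul, abs_mul]
    _ ≤ ‖P‖ * ‖Q‖ + ‖P‖ * ‖Q‖ := by gcongr
    _ = 2 * (‖P‖ * ‖Q‖) := by ring

theorem H_bound {ψ : ℝ → ℝ} (hψ : Continuous ψ) (hsupp : ∀ x, 1 ≤ |x| → ψ x = 0)
    (a b : ℝ → ℝ × ℝ) {a' b' : ℝ → ℝ × ℝ}
    (hca : ContinuousOn a' (Set.Icc 0 (1 / 2))) (hcb : ContinuousOn b' (Set.Icc 0 (1 / 2))) :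
    ∃ C : ℝ, 0 ≤ C ∧ ∀ ε s t, |H ψ a a' b b' ε s t| ≤ C := by
  obtain ⟨M, hM0, hM⟩ := psi_bound hψ hsupp
  obtain ⟨Ma, hMa⟩ := isCompact_Icc.exists_bound_of_continuousOn hca
  obtain ⟨Mb, hMb⟩ := isCompact_Icc.exists_bound_of_continuousOn hcb
  have hMa0 : 0 ≤ Ma := (norm_nonneg _).trans (hMa (cl 0) (cl_mem 0))
  have hMb0 : 0 ≤ Mb := (norm_nonneg _).trans (hMb (cl 0) (cl_mem 0))
  refine ⟨M * M * (2 * (Ma * Mb)), by positivity, fun ε s t => ?_⟩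
  rw [H, abs_mul, abs_mul]
  have h1 := det2_le (a' (cl s)) (b' (cl t))
  have h2 := hMa _ (cl_mem s)
  have h3 := hMb _ (cl_mem t)
  have h4 : ‖a' (cl s)‖ * ‖b' (cl t)‖ ≤ Ma * Mb := by gcongr
  gcongr
  · exact hM _
  · exact hM _
  · linarith

theorem H_cont {ψ : ℝ → ℝ} (hψ : Continuous ψ) {a a' b b' : ℝ → ℝ × ℝ}
    (ha : ContinuousOn a (Set.Icc 0 (1 / 2))) (hb : ContinuousOn b (Set.Icc 0 (1 / 2)))
    (hca : ContinuousOn a' (Set.Icc 0 (1 / 2))) (hcb : ContinuousOn b' (Set.Icc 0 (1 / 2)))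
    (ε : ℝ) : Continuous (Function.uncurry fun x y => H ψ a a' b b' ε (ε * x) (ε * y)) := by
  have h1 := cont_cl ha
  have h2 := cont_cl hb
  have h3 := cont_cl hca
  have h4 := cont_cl hcb
  have e1 : Continuous (fun p : ℝ × ℝ => a (cl (ε * p.1))) :=
    h1.comp (f := fun p : ℝ × ℝ => ε * p.1) (by fun_prop)
  have e2 : Continuous (fun p : ℝ × ℝ => b (cl (ε * p.2))) :=
    h2.comp (f := fun p : ℝ × ℝ => ε * p.2) (by fun_prop)
  have e3 : Continuous (fun p : ℝ × ℝ => a' (cl (ε * p.1))) :=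
    h3.comp (f := fun p : ℝ × ℝ => ε * p.1) (by fun_prop)
  have e4 : Continuous (fun p : ℝ × ℝ => b' (cl (ε * p.2))) :=
    h4.comp (f := fun p : ℝ × ℝ => ε * p.2) (by fun_prop)
  unfold Function.uncurry H det2
  apply Continuous.mul
  · apply Continuous.mul
    · exact hψ.comp ((e1.fst.sub e2.fst).div_const ε)
    · exact hψ.comp ((e1.snd.sub e2.snd).div_const ε)
  · exact (e3.fst.mul e4.snd).sub (e3.snd.mul e4.fst)

/-- the estimate near the common point -/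
theorem near {a b : ℝ → ℝ × ℝ} {A B : ℝ × ℝ}
    (ha : HasDerivWithinAt a A (Set.Icc 0 (1 / 2)) 0)
    (hb : HasDerivWithinAt b B (Set.Icc 0 (1 / 2)) 0) (h0 : a 0 = b 0) {η : ℝ} (hη : 0 < η) :
    ∃ τ : ℝ, 0 < τ ∧ τ ≤ 1 / 2 ∧ ∀ s t : ℝ, 0 ≤ s → 0 ≤ t → s ≤ τ → t ≤ τ →
      ‖a s - b t - (s • A - t • B)‖ ≤ η * (s + t) := by
  obtain ⟨τ1, h1, h1', h1''⟩ := expand ha hη
  obtain ⟨τ2, h2, h2', h2''⟩ := expand hb hη
  refine ⟨min τ1 τ2, lt_min h1 h2, (min_le_left _ _).trans h1', ?_⟩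
  intro s t hs ht hsτ htτ
  have h3 := h1'' s hs (hsτ.trans (min_le_left _ _))
  have h4 := h2'' t ht (htτ.trans (min_le_right _ _))
  have h5 : a s - b t - (s • A - t • B) = (a s - a 0 - s • A) - (b t - b 0 - t • B) := by
    rw [h0]
    abel
  rw [h5]
  refine (norm_sub_le _ _).trans ?_
  rw [mul_add]
  exact add_le_add h3 h4

theorem H_lim {ψ : ℝ → ℝ} (hψ : Continuous ψ) {a a' b b' : ℝ → ℝ × ℝ}
    (ha : HasDerivWithinAt a (a' 0) (Set.Icc 0 (1 / 2)) 0)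
    (hb : HasDerivWithinAt b (b' 0) (Set.Icc 0 (1 / 2)) 0) (h0 : a 0 = b 0)
    (hca : ContinuousOn a' (Set.Icc 0 (1 / 2))) (hcb : ContinuousOn b' (Set.Icc 0 (1 / 2)))
    {x y : ℝ} (hx : 0 ≤ x) (hy : 0 ≤ y) :
    Tendsto (fun ε => H ψ a a' b b' ε (ε * x) (ε * y)) (𝓝[>] 0)
      (𝓝 (G0 ψ (a' 0) (b' 0) x y)) := by
  have hcl0 : cl 0 = 0 := cl_eq ⟨le_rfl, by norm_num⟩
  have key : Tendsto (fun ε : ℝ => ε⁻¹ • (a (cl (ε * x)) - b (cl (ε * y)))) (𝓝[>] 0)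
      (𝓝 (x • a' 0 - y • b' 0)) := by
    rw [Metric.tendsto_nhds]
    intro η hη
    obtain ⟨τ, hτ, hτ', hn⟩ := near ha hb h0 (η := η / (x + y + 1)) (by positivity)
    have hpos : 0 < τ / (x + y + 1) := by positivity
    filter_upwards [Ioo_mem_nhdsGT hpos] with ε hε
    have hε0 : 0 < ε := hε.1
    have hε1 : ε * (x + y + 1) < τ := by
      have := hε.2
      rwa [lt_div_iff₀ (by positivity)] at this
    have hsx : ε * x ≤ τ := by nlinarith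
    have hsy : ε * y ≤ τ := by nlinarith
    have hx0 : 0 ≤ ε * x := by positivity
    have hy0 : 0 ≤ ε * y := by positivity
    have h1 := hn (ε * x) (ε * y) hx0 hy0 hsx hsy
    rw [cl_eq ⟨hx0, hsx.trans hτ'⟩, cl_eq ⟨hy0, hsy.trans hτ'⟩, dist_eq_norm]
    have h2 : ε⁻¹ • (a (ε * x) - b (ε * y)) - (x • a' 0 - y • b' 0) =
        ε⁻¹ • (a (ε * x) - b (ε * y) - ((ε * x) • a' 0 - (ε * y) • b' 0)) := by
      rw [smul_sub ε⁻¹ (a (ε * x) - b (ε * y)), smul_sub ε⁻¹ ((ε * x) • a' 0), smul_smul,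
        smul_smul, inv_mul_cancel_left₀ hε0.ne', inv_mul_cancel_left₀ hε0.ne']
    rw [h2, norm_smul, norm_inv, Real.norm_eq_abs, abs_of_pos hε0]
    calc ε⁻¹ * ‖a (ε * x) - b (ε * y) - ((ε * x) • a' 0 - (ε * y) • b' 0)‖
        ≤ ε⁻¹ * (η / (x + y + 1) * (ε * x + ε * y)) := by gcongr
      _ = η * ((x + y) / (x + y + 1)) := by field_simp
      _ < η * 1 := by
          apply mul_lt_mul_of_pos_left _ hη
          rw [div_lt_one (by positivity)]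
          linarith
      _ = η := mul_one η
  have hid : ∀ z : ℝ, Tendsto (fun ε : ℝ => ε * z) (𝓝[>] 0) (𝓝 0) := by
    intro z
    have h1 : Tendsto (fun ε : ℝ => ε * z) (𝓝 0) (𝓝 (0 * z)) :=
      (continuous_id.mul continuous_const).tendsto 0
    rw [zero_mul] at h1
    exact h1.mono_left nhdsWithin_le_nhds
  have ka : Tendsto (fun ε : ℝ => a' (cl (ε * x))) (𝓝[>] 0) (𝓝 (a' 0)) := by
    have h1 := ((cont_cl hca).tendsto 0).comp (hid x)
    rwa [hcl0] at h1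
  have kb : Tendsto (fun ε : ℝ => b' (cl (ε * y))) (𝓝[>] 0) (𝓝 (b' 0)) := by
    have h1 := ((cont_cl hcb).tendsto 0).comp (hid y)
    rwa [hcl0] at h1
  have k1 : Tendsto (fun ε : ℝ => ((a (cl (ε * x))).1 - (b (cl (ε * y))).1) / ε) (𝓝[>] 0)
      (𝓝 (x * (a' 0).1 - y * (b' 0).1)) := by
    refine ((continuous_fst.tendsto _).comp key).congr fun ε => ?_
    simp only [Function.comp, Prod.smul_fst, Prod.fst_sub, smul_eq_mul, inv_mul_eq_div]
  have k2 : Tendsto (fun ε : ℝ => ((a (cl (ε * x))).2 - (b (cl (ε * y))).2) / ε) (𝓝[>] 0)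
      (𝓝 (x * (a' 0).2 - y * (b' 0).2)) := by
    refine ((continuous_snd.tendsto _).comp key).congr fun ε => ?_
    simp only [Function.comp, Prod.smul_snd, Prod.snd_sub, smul_eq_mul, inv_mul_eq_div]
  have ka1 := (continuous_fst.tendsto _).comp ka
  have ka2 := (continuous_snd.tendsto _).comp ka
  have kb1 := (continuous_fst.tendsto _).comp kb
  have kb2 := (continuous_snd.tendsto _).comp kb
  unfold H G0 det2
  exact (((hψ.tendsto _).comp k1).mul ((hψ.tendsto _).comp k2)).mul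
    ((ka1.mul kb2).sub (ka2.mul kb1))

/-- the integrand vanishes far from the corner -/
theorem H_supp {ψ : ℝ → ℝ} (hsupp : ∀ x, 1 ≤ |x| → ψ x = 0) {a a' b b' : ℝ → ℝ × ℝ}
    (hac : ContinuousOn a (Set.Icc 0 (1 / 2))) (hbc : ContinuousOn b (Set.Icc 0 (1 / 2)))
    (ha : HasDerivWithinAt a (a' 0) (Set.Icc 0 (1 / 2)) 0)
    (hb : HasDerivWithinAt b (b' 0) (Set.Icc 0 (1 / 2)) 0) (h0 : a 0 = b 0)
    (hne : ∀ s ∈ Set.Icc (0 : ℝ) (1 / 2), ∀ t ∈ Set.Icc (0 : ℝ) (1 / 2), a s = b t →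
      s = 0 ∧ t = 0)
    {c : ℝ} (hc : 0 < c)
    (hlow : ∀ x y : ℝ, 0 ≤ x → 0 ≤ y → 2 * c * (x + y) ≤ ‖x • a' 0 - y • b' 0‖) :
    ∃ δ : ℝ, 0 < δ ∧ ∀ ε, 0 < ε → ε ≤ δ → ∀ x ∈ Set.Icc 0 (1 / (2 * ε)),
      ∀ y ∈ Set.Icc 0 (1 / (2 * ε)), 1 / c ≤ x + y → H ψ a a' b b' ε (ε * x) (ε * y) = 0 := by
  obtain ⟨τ, hτ, hτ', hn⟩ := near ha hb h0 hc
  obtain ⟨δ, hδ, hsep⟩ := sep hac hbc (τ := τ) (by linarith) (by
    intro s hs t ht hst h
    obtain ⟨h1, h2⟩ := hne s hs t ht h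
    rw [h1, h2] at hst
    linarith)
  refine ⟨δ, hδ, ?_⟩
  intro ε hε hεδ x hx y hy hxy
  have hsc : ∀ z ∈ Set.Icc 0 (1 / (2 * ε)), ε * z ∈ Set.Icc (0 : ℝ) (1 / 2) := by
    intro z hz
    refine ⟨mul_nonneg hε.le hz.1, ?_⟩
    have h1 := mul_le_mul_of_nonneg_left hz.2 hε.le
    have h2 : ε * (1 / (2 * ε)) = 1 / 2 := by field_simp
    rwa [h2] at h1
  have hs := hsc x hx
  have ht := hsc y hy
  have hmain : ε ≤ ‖a (ε * x) - b (ε * y)‖ := by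
    rcases le_or_gt τ (ε * x + ε * y) with h1 | h1
    · exact hεδ.trans (hsep _ hs _ ht h1)
    · have h2 := hn _ _ hs.1 ht.1 (by linarith [ht.1]) (by linarith [hs.1])
      have h3 := hlow _ _ hs.1 ht.1
      have h4 : ‖(ε * x) • a' 0 - (ε * y) • b' 0‖ ≤ ‖a (ε * x) - b (ε * y)‖ +
          ‖a (ε * x) - b (ε * y) - ((ε * x) • a' 0 - (ε * y) • b' 0)‖ := by
        have h5 : (ε * x) • a' 0 - (ε * y) • b' 0 = (a (ε * x) - b (ε * y)) -
          (a (ε * x) - b (ε * y) - ((ε * x) • a' 0 - (ε * y) • b' 0)) := by abel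
        calc ‖(ε * x) • a' 0 - (ε * y) • b' 0‖ = ‖(a (ε * x) - b (ε * y)) -
          (a (ε * x) - b (ε * y) - ((ε * x) • a' 0 - (ε * y) • b' 0))‖ := by rw [← h5]
          _ ≤ _ := norm_sub_le _ _
      have h5 : ε ≤ c * (ε * x + ε * y) := by
        rw [div_le_iff₀ hc] at hxy
        nlinarith
      linarith
  rw [H, cl_eq hs, cl_eq ht, psi_zero' hsupp _ _ hε hmain, zero_mul]

end H993

open H993

theorem half_zero (ψ : ℝ → ℝ) (hψ : Continuous ψ) (hsupp : ∀ x, 1 ≤ |x| → ψ x = 0)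
    (a a' b b' : ℝ → ℝ × ℝ)
    (ha : ContinuousOn a (Set.Icc 0 (1 / 2))) (hb : ContinuousOn b (Set.Icc 0 (1 / 2)))
    (hne : ∀ s ∈ Set.Icc (0 : ℝ) (1 / 2), ∀ t ∈ Set.Icc (0 : ℝ) (1 / 2), a s ≠ b t) :
    ∀ᶠ ε in 𝓝[>] (0 : ℝ), Ihalf (scal ψ ε) a a' b b' = 0 := by
  obtain ⟨δ, hδ, hsep⟩ := sep ha hb (τ := 0) zero_le_one (fun s hs t ht _ => hne s hs t ht)
  filter_upwards [Ioo_mem_nhdsGT hδ] with ε hε
  have h1 : ∀ s ∈ Set.Icc (0 : ℝ) (1 / 2), ∀ t ∈ Set.Icc (0 : ℝ) (1 / 2),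
      scal ψ ε ((a s).1 - (b t).1) * scal ψ ε ((a s).2 - (b t).2) * det2 (a' s) (b' t) = 0 := by
    intro s hs t ht
    have h2 := psi_zero' hsupp (a s) (b t) hε.1
      (hε.2.le.trans (hsep s hs t ht (add_nonneg hs.1 ht.1)))
    rw [scal, scal, div_mul_div_comm, h2, zero_div, zero_mul]
  rw [Ihalf]
  have h3 : ∀ s ∈ Set.Icc (0 : ℝ) (1 / 2), (∫ t in (0 : ℝ)..(1 / 2),
      scal ψ ε ((a s).1 - (b t).1) * scal ψ ε ((a s).2 - (b t).2) * det2 (a' s) (b' t)) = 0 := by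
    intro s hs
    exact int_zero _ (by norm_num) (h1 s hs)
  exact int_zero _ (by norm_num) h3

theorem half_limit (ψ : ℝ → ℝ) (hψ : Continuous ψ) (hsupp : ∀ x, 1 ≤ |x| → ψ x = 0)
    (a a' b b' : ℝ → ℝ × ℝ)
    (ha : ∀ t ∈ Set.Icc (0 : ℝ) (1 / 2), HasDerivWithinAt a (a' t) (Set.Icc 0 (1 / 2)) t)
    (hb : ∀ t ∈ Set.Icc (0 : ℝ) (1 / 2), HasDerivWithinAt b (b' t) (Set.Icc 0 (1 / 2)) t)
    (hca : ContinuousOn a' (Set.Icc 0 (1 / 2))) (hcb : ContinuousOn b' (Set.Icc 0 (1 / 2)))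
    (h0 : a 0 = b 0)
    (hne : ∀ s ∈ Set.Icc (0 : ℝ) (1 / 2), ∀ t ∈ Set.Icc (0 : ℝ) (1 / 2), a s = b t →
      s = 0 ∧ t = 0)
    (hA : a' 0 ≠ 0) (hB : b' 0 ≠ 0) (hp : ∀ μ : ℝ, 0 < μ → b' 0 ≠ μ • a' 0) :
    Tendsto (fun ε => Ihalf (scal ψ ε) a a' b b') (𝓝[>] 0) (𝓝 (kap ψ (a' 0) (b' 0))) := by
  have h00 : (0 : ℝ) ∈ Set.Icc (0 : ℝ) (1 / 2) := ⟨le_rfl, by norm_num⟩
  have hac : ContinuousOn a (Set.Icc 0 (1 / 2)) := fun t ht => (ha t ht).continuousWithinAt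
  have hbc : ContinuousOn b (Set.Icc 0 (1 / 2)) := fun t ht => (hb t ht).continuousWithinAt
  obtain ⟨c, hc, hlow⟩ := lower hA hB hp
  obtain ⟨δ, hδ, hsup⟩ := H_supp hsupp hac hbc (ha 0 h00) (hb 0 h00) h0 hne hc hlow
  obtain ⟨C, hC0, hC⟩ := H_bound hψ hsupp a b hca hcb
  set R := 1 / c with hR
  have hR0 : 0 < R := by positivity
  have hG0c : Continuous (Function.uncurry (G0 ψ (a' 0) (b' 0))) := by
    unfold Function.uncurry G0
    fun_prop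
  have hG0z : ∀ x y : ℝ, 0 ≤ x → 0 ≤ y → R ≤ x + y → G0 ψ (a' 0) (b' 0) x y = 0 := by
    intro x y hx hy hxy
    have h1 := hlow x y hx hy
    have h2 : 1 ≤ c * (x + y) := by
      rw [hR, div_le_iff₀ hc] at hxy
      linarith
    have h3 := psi_zero hsupp (x • a' 0 - y • b' 0) (by linarith)
    have e1 : (x • a' 0 - y • b' 0).1 = x * (a' 0).1 - y * (b' 0).1 := rfl
    have e2 : (x • a' 0 - y • b' 0).2 = x * (a' 0).2 - y * (b' 0).2 := rfl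
    rw [e1, e2] at h3
    rw [G0, h3, zero_mul]
  -- the limit
  have hkap : kap ψ (a' 0) (b' 0) = ∫ x in (0 : ℝ)..R, ∫ y in (0 : ℝ)..R,
      G0 ψ (a' 0) (b' 0) x y := by
    have h1 : ∀ x : ℝ, 0 < x → ∫ t in Set.Ioi (0 : ℝ), G0 ψ (a' 0) (b' 0) x t =
        ∫ y in (0 : ℝ)..R, G0 ψ (a' 0) (b' 0) x y := by
      intro x hx
      rw [intervalIntegral.integral_of_le hR0.le]
      apply MeasureTheory.setIntegral_eq_of_subset_of_forall_sdiff_eq_zero measurableSet_Ioi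
        Set.Ioc_subset_Ioi_self
      intro y hy
      have hy1 : 0 < y := hy.1
      have hy2 : R < y := by
        by_contra h
        exact hy.2 ⟨hy1, not_lt.1 h⟩
      exact hG0z x y hx.le hy1.le (by linarith)
    have h2 : kap ψ (a' 0) (b' 0) = ∫ s in Set.Ioi (0 : ℝ), ∫ y in (0 : ℝ)..R,
        G0 ψ (a' 0) (b' 0) s y := by
      rw [kap]
      apply MeasureTheory.setIntegral_congr_fun measurableSet_Ioi
      intro s hs
      exact h1 s hs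
    rw [h2, intervalIntegral.integral_of_le hR0.le]
    apply MeasureTheory.setIntegral_eq_of_subset_of_forall_sdiff_eq_zero measurableSet_Ioi
      Set.Ioc_subset_Ioi_self
    intro x hx
    have hx1 : 0 < x := hx.1
    have hx2 : R < x := by
      by_contra h
      exact hx.2 ⟨hx1, not_lt.1 h⟩
    apply int_zero _ hR0.le
    intro y hy
    exact hG0z x y hx1.le hy.1 (by linarith [hy.1])
  have hev : ∀ᶠ ε in 𝓝[>] (0 : ℝ), (∫ x in (0 : ℝ)..R, ∫ y in (0 : ℝ)..R,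
      H ψ a a' b b' ε (ε * x) (ε * y)) = Ihalf (scal ψ ε) a a' b b' := by
    have hpos : 0 < min δ (1 / (2 * R)) := lt_min hδ (by positivity)
    filter_upwards [Ioo_mem_nhdsGT hpos] with ε hε
    have hε0 : 0 < ε := hε.1
    have hεδ : ε ≤ δ := hε.2.le.trans (min_le_left _ _)
    have hεR : R ≤ 1 / (2 * ε) := by
      have h1 := hε.2.le.trans (min_le_right _ _)
      rw [le_div_iff₀ (by positivity)] at h1 ⊢
      linarith
    rw [Ihalf_eq ψ a a' b b' hε0]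
    exact (cut2 _ (H_cont hψ hac hbc hca hcb ε) hR0.le hεR (hsup ε hε0 hεδ)).symm
  rw [hkap]
  refine Tendsto.congr' hev ?_
  apply intervalIntegral.tendsto_integral_filter_of_dominated_convergence (fun _ => C * R)
  · refine Eventually.of_forall fun ε => ?_
    exact (intervalIntegral.continuous_parametric_intervalIntegral_of_continuous'
      (H_cont hψ hac hbc hca hcb ε) 0 R).aestronglyMeasurable
  · refine Eventually.of_forall fun ε => MeasureTheory.ae_of_all _ fun x _ => ?_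
    have h1 := intervalIntegral.norm_integral_le_of_norm_le_const (a := (0 : ℝ)) (b := R)
      (f := fun y => H ψ a a' b b' ε (ε * x) (ε * y)) (C := C) (fun y _ => hC _ _ _)
    rwa [sub_zero, abs_of_pos hR0] at h1
  · exact intervalIntegrable_const
  · refine MeasureTheory.ae_of_all _ fun x hx => ?_
    rw [Set.uIoc_of_le hR0.le] at hx
    apply intervalIntegral.tendsto_integral_filter_of_dominated_convergence (fun _ => C)
    · refine Eventually.of_forall fun ε => ?_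
      exact ((H_cont hψ hac hbc hca hcb ε).comp
        (f := fun y : ℝ => (x, y)) (by fun_prop)).aestronglyMeasurable
    · exact Eventually.of_forall fun ε => MeasureTheory.ae_of_all _ fun y _ => hC _ _ _
    · exact intervalIntegrable_const
    · refine MeasureTheory.ae_of_all _ fun y hy => ?_
      rw [Set.uIoc_of_le hR0.le] at hy
      exact H_lim hψ (ha 0 h00) (hb 0 h00) h0 hca hcb hx.1.le hy.1.le

end Pool.Agent.TH317.CC
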