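import Pool.Agent.TH317.CC.Riem

/-!
# Almost minimizing paths and their total variation in a Riemannian manifold
(project MP_86dbc7_gt of helper317)
-/

set_option autoImplicit false

universe u

namespace Pool.Agent.TH317.CC

open Set Manifold Bundle
open scoped ContDiff Topology

section Riemannian

variable {E : Type} [NormedAddCommGroup E] [NormedSpace ℝ E] [FiniteDimensional ℝ E]
  {M : Type u} [EMetricSpace M] [ChartedSpace E M] [IsManifold 𝓘(ℝ, E) ∞ M]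
  [RiemannianBundle (fun x : M => TangentSpace 𝓘(ℝ, E) x)]
  [IsContMDiffRiemannianBundle 𝓘(ℝ, E) ∞ E (fun x : M => TangentSpace 𝓘(ℝ, E) x)]
  [IsRiemannianManifold 𝓘(ℝ, E) M]

omit [FiniteDimensional ℝ E] [IsManifold 𝓘(ℝ, E) ∞ M]
  [IsContMDiffRiemannianBundle 𝓘(ℝ, E) ∞ E (fun x : M => TangentSpace 𝓘(ℝ, E) x)] in
/-- the variation is at most the length -/
theorem H993.sum_le (f : ℝ → M) (hf : ContMDiffOn 𝓘(ℝ, ℝ) 𝓘(ℝ, E) 1 f (Icc 0 1))
    (v : ℕ → ℝ) (hv : Monotone v) (hm : ∀ i, v i ∈ Icc (0 : ℝ) 1) (n : ℕ) :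
    ∑ i ∈ Finset.range n, edist (f (v (i + 1))) (f (v i)) ≤
      pathELength 𝓘(ℝ, E) f (v 0) (v n) := by
  induction n with
  | zero => simp
  | succ n ih =>
    rw [Finset.sum_range_succ, ← pathELength_add (hv (Nat.zero_le n)) (hv (Nat.le_succ n))]
    apply add_le_add ih
    rw [edist_comm, IsRiemannianManifold.out (I := 𝓘(ℝ, E))]
    exact riemannianEDist_le_pathELength
      (hf.mono (Icc_subset_Icc (hm n).1 (hm (n + 1)).2)) rfl rfl (hv (Nat.le_succ n))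

omit [FiniteDimensional ℝ E] [IsManifold 𝓘(ℝ, E) ∞ M]
  [IsContMDiffRiemannianBundle 𝓘(ℝ, E) ∞ E (fun x : M => TangentSpace 𝓘(ℝ, E) x)] in
theorem H993.var_le (f : ℝ → M) (hf : ContMDiffOn 𝓘(ℝ, ℝ) 𝓘(ℝ, E) 1 f (Icc 0 1)) :
    eVariationOn f (Icc 0 1) ≤ pathELength 𝓘(ℝ, E) f 0 1 := by
  rw [eVariationOn]
  apply iSup_le
  rintro ⟨n, v, hv, hm⟩
  exact (H993.sum_le f hf v hv hm n).trans (pathELength_mono (hm 0).1 (hm n).2)

include E in
theorem riem_len (x : M) : ∃ U ∈ 𝓝 x, ∀ y ∈ U, ∀ z ∈ U, edist y z ≠ ⊤ ∧ ∀ ε : ℝ, 0 < ε →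
    ∃ f : ℝ → M, ContinuousOn f (Icc 0 1) ∧ f 0 = y ∧ f 1 = z ∧
      eVariationOn f (Icc 0 1) ≤ edist y z + ENNReal.ofReal ε := by
  refine ⟨Metric.eball x 1, Metric.eball_mem_nhds x one_pos, ?_⟩
  intro y hy z hz
  have hfin : edist y z ≠ ⊤ := by
    have h1 : edist y z ≤ edist y x + edist z x := by
      rw [edist_comm z x]
      exact edist_triangle _ _ _
    have h2 : edist y x < 1 := hy
    have h3 : edist z x < 1 := hz
    exact ne_top_of_le_ne_top (ENNReal.add_ne_top.2 ⟨ne_top_of_lt h2, ne_top_of_lt h3⟩) h1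
  refine ⟨hfin, fun ε hε => ?_⟩
  have h1 : riemannianEDist 𝓘(ℝ, E) y z < edist y z + ENNReal.ofReal ε := by
    rw [← IsRiemannianManifold.out (I := 𝓘(ℝ, E)) y z]
    exact ENNReal.lt_add_right hfin (ENNReal.ofReal_pos.2 hε).ne'
  obtain ⟨f, hf0, hf1, hfs, hfl⟩ := exists_lt_of_riemannianEDist_lt h1
  exact ⟨f, hfs.continuousOn, hf0, hf1, (H993.var_le f hfs).trans hfl.le⟩

end Riemannian

end Pool.Agent.TH317.CC
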