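import Pool.Agent.TH694.FV.Defs2
import Pool.Agent.H442R3.MPar.Main
import Pool.Agent.NPC.Dec
import Pool.Agent.H671R2.PolyAuto

/-!
# Feedback vertex sets of subcubic graphs via hypergraphic matroid parity
-/

set_option autoImplicit false

namespace Pool.Agent.TH993.FVS

open Pool.Agent Pool.Agent.TH694.FV Pool.Agent.H442R3.MPar

/-! ### The algorithm -/

/-- relevant edges -/
def es (F : List Ed) (D : List ℕ) : List Ed :=
  F.filter (fun e => decide (cd e = 1) && (!decide (px e ∈ D) && !decide (py e ∈ D)))

/-- their ends -/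
def vv (L : List Ed) : List ℕ := (L.flatMap (fun e => [px e, py e])).dedup

/-- positions of the edges at `v` -/
def inc (L : List Ed) (v : ℕ) : List ℕ :=
  (L.zipIdx.filter (fun q => decide (v = px q.1) || decide (v = py q.1))).map (fun q => q.2)

/-- the same with dummies -/
def lst (L : List Ed) (v : ℕ) : List ℕ :=
  inc L v ++ [L.length + 3 * v, L.length + 3 * v + 1, L.length + 3 * v + 2]

/-- the pair of hyperedges of `v` -/
def pr (L : List Ed) (v : ℕ) : List ℕ × List ℕ :=
  ([(lst L v).getD 0 0, (lst L v).getD 1 0], [(lst L v).getD 1 0, (lst L v).getD 2 0])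

/-- all pairs -/
def prs (L : List Ed) : List (List ℕ × List ℕ) := (vv L).map (fun v => pr L v)

/-- the algorithm -/
def par (F : List Ed) (D : List ℕ) : ℕ := (vv (es F D)).length - nuF (prs (es F D))

/-! ### The triples -/

theorem mem_inc {L : List Ed} {v i : ℕ} : i ∈ inc L v ↔ ∃ e, L[i]? = some e ∧ v ∈ ends e := by
  simp only [inc, List.mem_map, List.mem_filter, Bool.or_eq_true, decide_eq_true_eq, mem_ends]
  constructor
  · rintro ⟨⟨e, j⟩, ⟨h1, h2⟩, rfl⟩
    exact ⟨e, (List.mk_mem_zipIdx_iff_getElem?).1 h1, h2⟩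
  · rintro ⟨e, h1, h2⟩
    exact ⟨(e, i), ⟨(List.mk_mem_zipIdx_iff_getElem?).2 h1, h2⟩, rfl⟩

theorem inc_nodup (L : List Ed) (v : ℕ) : (inc L v).Nodup := by
  have h : (L.zipIdx.map Prod.snd).Nodup := by
    rw [List.zipIdx_map_snd]
    exact List.nodup_range'
  exact h.sublist (List.Sublist.map _ List.filter_sublist)

theorem inc_length (L : List Ed) (hL : L.Nodup) (v : ℕ) :
    (inc L v).length = dg L.toFinset v := by
  have h1 : (inc L v).length = (L.filter (fun e => decide (v ∈ ends e))).length := by
    rw [inc, List.length_map]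
    have h2 : L.filter (fun e => decide (v ∈ ends e)) =
        (L.zipIdx.filter ((fun e => decide (v ∈ ends e)) ∘ Prod.fst)).map Prod.fst := by
      rw [← List.filter_map, List.zipIdx_map_fst]
    rw [h2, List.length_map]
    congr 1
    apply List.filter_congr
    intro q _
    simp [mem_ends]
  rw [h1, dg, ← List.toFinset_card_of_nodup (hL.filter _), List.toFinset_filter]
  congr 1
  ext e
  simp

theorem lst_nodup (L : List Ed) (v : ℕ) : (lst L v).Nodup := by
  rw [lst, List.nodup_append]
  refine ⟨inc_nodup L v, by simp, ?_⟩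
  intro i hi j hj
  obtain ⟨e, h1, _⟩ := mem_inc.1 hi
  have h2 : i < L.length := (List.getElem?_eq_some_iff.1 h1).1
  simp only [List.mem_cons, List.not_mem_nil, or_false] at hj
  omega

/-- the triple of `v` -/
def T (L : List Ed) (v : ℕ) : Finset ℕ := ((lst L v).take 3).toFinset

theorem take3 (l : List ℕ) (h : 3 ≤ l.length) : l.take 3 = [l.getD 0 0, l.getD 1 0, l.getD 2 0] := by
  match l, h with
  | a :: b :: c :: l', _ => simp

theorem lst_len (L : List Ed) (v : ℕ) : 3 ≤ (lst L v).length := by
  rw [lst, List.length_append]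
  simp

theorem T_card (L : List Ed) (v : ℕ) : (T L v).card = 3 := by
  rw [T, List.toFinset_card_of_nodup ((lst_nodup L v).sublist (List.take_sublist _ _)),
    List.length_take]
  have := lst_len L v
  omega

theorem T_eq (L : List Ed) (v : ℕ) : T L v = (pr L v).1.toFinset ∪ (pr L v).2.toFinset := by
  rw [T, take3 _ (lst_len L v), pr]
  ext x
  simp

theorem pr_card (L : List Ed) (v : ℕ) : (pr L v).1.toFinset.card = 2 ∧
    (pr L v).2.toFinset.card = 2 := by
  have h := (lst_nodup L v).sublist (List.take_sublist 3 _)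
  rw [take3 _ (lst_len L v)] at h
  simp only [List.nodup_cons, List.mem_cons, List.not_mem_nil, or_false, not_or] at h
  rw [pr]
  constructor
  · rw [List.toFinset_card_of_nodup]
    · rfl
    · simp only [List.nodup_cons, List.mem_cons, List.not_mem_nil, or_false]
      exact ⟨h.1.1, not_false, List.nodup_nil⟩
  · rw [List.toFinset_card_of_nodup]
    · rfl
    · simp only [List.nodup_cons, List.mem_cons, List.not_mem_nil, or_false]
      exact ⟨h.2.1, not_false, List.nodup_nil⟩

/-- elements of the triple are edges at `v` or dummies of `v` -/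
theorem T_cases {L : List Ed} {v x : ℕ} (h : x ∈ T L v) :
    (∃ e, L[x]? = some e ∧ v ∈ ends e) ∨ (L.length + 3 * v ≤ x ∧ x < L.length + 3 * v + 3) := by
  rw [T, List.mem_toFinset] at h
  have h1 := List.mem_of_mem_take h
  rw [lst, List.mem_append] at h1
  rcases h1 with h1 | h1
  · exact Or.inl (mem_inc.1 h1)
  · simp only [List.mem_cons, List.not_mem_nil, or_false] at h1
    right
    omega

theorem T_of {L : List Ed} (hL : L.Nodup) (hdg : ∀ v, dg L.toFinset v ≤ 3) {v x : ℕ} {e : Ed}
    (h : L[x]? = some e) (hv : v ∈ ends e) : x ∈ T L v := by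
  rw [T, List.mem_toFinset, lst, List.take_append]
  apply List.mem_append_left
  rw [List.take_of_length_le (by rw [inc_length L hL]; exact hdg v)]
  exact mem_inc.2 ⟨e, h, hv⟩

/-- the edges inside `K` -/
def ind (L : List Ed) (K : Finset ℕ) : Finset Ed :=
  L.toFinset.filter (fun e => px e ∈ K ∧ py e ∈ K)

theorem mem_ind {L : List Ed} {K : Finset ℕ} {e : Ed} :
    e ∈ ind L K ↔ e ∈ L ∧ px e ∈ K ∧ py e ∈ K := by
  rw [ind, Finset.mem_filter, List.mem_toFinset]

theorem count (L : List Ed) (hL : L.Nodup) (hne : ∀ e ∈ L, px e ≠ py e)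
    (hdg : ∀ v, dg L.toFinset v ≤ 3) (K : Finset ℕ) :
    (K.biUnion (T L)).card + (ind L K).card = 3 * K.card := by
  classical
  set U := K.biUnion (T L) with hU
  set I := (ind L K).image (fun e => L.idxOf e) with hI
  have hget : ∀ e ∈ L, L[L.idxOf e]? = some e := fun e he => by
    rw [List.getElem?_eq_getElem (List.idxOf_lt_length_of_mem he), List.getElem_idxOf]
  have hIc : I.card = (ind L K).card := by
    apply Finset.card_image_of_injOn
    intro e he e' he' h
    have h1 := hget e (mem_ind.1 he).1
    have h2 := hget e' (mem_ind.1 he').1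
    have h : L.idxOf e = L.idxOf e' := h
    rw [h, h2] at h1
    exact (Option.some.inj h1).symm
  have hIU : I ⊆ U := by
    intro x hx
    obtain ⟨e, he, rfl⟩ := Finset.mem_image.1 hx
    obtain ⟨h1, h2, _⟩ := mem_ind.1 he
    exact Finset.mem_biUnion.2 ⟨px e, h2, T_of hL hdg (hget e h1) (mem_ends.2 (Or.inl rfl))⟩
  have hmem_I : ∀ x e, L[x]? = some e → (x ∈ I ↔ px e ∈ K ∧ py e ∈ K) := by
    intro x e hx
    have hxl : x < L.length := (List.getElem?_eq_some_iff.1 hx).1
    have hxe : L[x] = e := (List.getElem?_eq_some_iff.1 hx).2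
    have he : e ∈ L := List.mem_of_getElem? hx
    constructor
    · intro h
      obtain ⟨e', he', h'⟩ := Finset.mem_image.1 h
      have h1 := hget e' (mem_ind.1 he').1
      rw [h', hx] at h1
      rw [Option.some.inj h1]
      exact (mem_ind.1 he').2
    · intro h
      refine Finset.mem_image.2 ⟨e, mem_ind.2 ⟨he, h⟩, ?_⟩
      rw [← hxe]
      exact hL.idxOf_getElem x hxl
  have hmult : ∀ x ∈ U, (K.filter (fun v => x ∈ T L v)).card = 1 + (if x ∈ I then 1 else 0) := by
    intro x hx
    obtain ⟨v0, hv0, hx0⟩ := Finset.mem_biUnion.1 hx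
    rcases T_cases hx0 with ⟨e, he, hve⟩ | hd
    · have hxl : x < L.length := (List.getElem?_eq_some_iff.1 he).1
      have h1 : K.filter (fun v => x ∈ T L v) = K.filter (fun v => v ∈ ends e) := by
        apply Finset.filter_congr
        intro v _
        constructor
        · intro h
          rcases T_cases h with ⟨e', he', hve'⟩ | hd
          · rw [he] at he'
            rw [Option.some.inj he']
            exact hve'
          · omega
        · exact fun h => T_of hL hdg he h
      have hne' := hne e (List.mem_of_getElem? he)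
      rw [h1]
      by_cases hxI : x ∈ I
      · rw [if_pos hxI]
        have h2 := (hmem_I x e he).1 hxI
        have h3 : K.filter (fun v => v ∈ ends e) = {px e, py e} := by
          ext v
          rw [Finset.mem_filter, mem_ends]
          simp only [Finset.mem_insert, Finset.mem_singleton]
          constructor
          · exact fun h => h.2
          · rintro (rfl | rfl)
            · exact ⟨h2.1, Or.inl rfl⟩
            · exact ⟨h2.2, Or.inr rfl⟩
        rw [h3, Finset.card_pair hne']
      · rw [if_neg hxI]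
        have h2 : ¬(px e ∈ K ∧ py e ∈ K) := fun h => hxI ((hmem_I x e he).2 h)
        have h3 : K.filter (fun v => v ∈ ends e) = {v0} := by
          ext v
          rw [Finset.mem_filter, mem_ends, Finset.mem_singleton]
          rw [mem_ends] at hve
          constructor
          · rintro ⟨h4, h5⟩
            rcases h5 with h5 | h5 <;> rcases hve with h6 | h6
            · rw [h5, h6]
            · exact absurd ⟨h5 ▸ h4, h6 ▸ hv0⟩ h2
            · exact absurd ⟨h6 ▸ hv0, h5 ▸ h4⟩ h2
            · rw [h5, h6]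
          · rintro rfl
            exact ⟨hv0, hve⟩
        rw [h3, Finset.card_singleton]
    · have hxI : x ∉ I := by
        intro h
        obtain ⟨e', he', h'⟩ := Finset.mem_image.1 h
        have h1 := List.idxOf_lt_length_of_mem (mem_ind.1 he').1
        omega
      rw [if_neg hxI]
      have h3 : K.filter (fun v => x ∈ T L v) = {v0} := by
        ext v
        rw [Finset.mem_filter, Finset.mem_singleton]
        constructor
        · rintro ⟨_, h5⟩
          rcases T_cases h5 with ⟨e', he', _⟩ | hd'
          · have := (List.getElem?_eq_some_iff.1 he').1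
            omega
          · omega
        · rintro rfl
          exact ⟨hv0, hx0⟩
      rw [h3, Finset.card_singleton]
  have hsum : ∑ v ∈ K, (T L v).card = ∑ x ∈ U, (K.filter (fun v => x ∈ T L v)).card := by
    have h1 : ∀ v ∈ K, (T L v).card = (U.filter (fun x => x ∈ T L v)).card := by
      intro v hv
      congr 1
      ext x
      rw [Finset.mem_filter]
      exact ⟨fun h => ⟨Finset.mem_biUnion.2 ⟨v, hv, h⟩, h⟩, fun h => h.2⟩
    rw [Finset.sum_congr rfl h1]
    exact Finset.sum_card_bipartiteAbove_eq_sum_card_bipartiteBelow (fun v x => x ∈ T L v)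
  have h2 : ∑ v ∈ K, (T L v).card = 3 * K.card := by
    rw [Finset.sum_congr rfl (fun v _ => T_card L v), Finset.sum_const, smul_eq_mul, mul_comm]
  rw [← h2, hsum, Finset.sum_congr rfl hmult, Finset.sum_add_distrib, Finset.sum_const,
    smul_eq_mul, mul_one, Finset.sum_boole]
  have h3 : U.filter (fun x => x ∈ I) = I := by
    ext x
    rw [Finset.mem_filter]
    exact ⟨fun h => h.2, fun h => ⟨hIU h, h⟩⟩
  rw [h3, hIc]
  simp

/-! ### Independent pairs and forests -/

/-- the vertex with a given number -/
def ph (L : List Ed) (i : ℕ) : ℕ := (vv L).getD i 0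

theorem vv_nodup (L : List Ed) : (vv L).Nodup := List.nodup_dedup _

theorem mem_vv {L : List Ed} {v : ℕ} : v ∈ vv L ↔ v ∈ vs L.toFinset := by
  rw [vv, List.mem_dedup, List.mem_flatMap, mem_vs]
  constructor
  · rintro ⟨e, he, hv⟩
    exact ⟨e, List.mem_toFinset.2 he, mem_ends.2 (by simpa using hv)⟩
  · rintro ⟨e, he, hv⟩
    exact ⟨e, List.mem_toFinset.1 he, by simpa using mem_ends.1 hv⟩

theorem vv_card (L : List Ed) : (vv L).length = (vs L.toFinset).card := by
  rw [← List.toFinset_card_of_nodup (vv_nodup L)]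
  congr 1
  ext v
  rw [List.mem_toFinset, mem_vv]

theorem ph_inj {L : List Ed} {i j : ℕ} (hi : i < (vv L).length) (hj : j < (vv L).length)
    (h : ph L i = ph L j) : i = j := by
  rw [ph, ph, List.getD_eq_getElem _ _ hi, List.getD_eq_getElem _ _ hj] at h
  exact (vv_nodup L).getElem_inj_iff.1 h

theorem ph_mem {L : List Ed} {i : ℕ} (hi : i < (vv L).length) : ph L i ∈ vs L.toFinset := by
  rw [ph, List.getD_eq_getElem _ _ hi, ← mem_vv]
  exact List.getElem_mem hi

theorem ph_surj {L : List Ed} {v : ℕ} (hv : v ∈ vs L.toFinset) :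
    ∃ i, i < (vv L).length ∧ ph L i = v := by
  obtain ⟨i, hi, h⟩ := List.getElem_of_mem (mem_vv.2 hv)
  exact ⟨i, hi, by rw [ph, List.getD_eq_getElem _ _ hi, h]⟩

theorem getD_prs {L : List Ed} {i : ℕ} (hi : i < (vv L).length) :
    (prs L).getD i ([], []) = pr L (ph L i) := by
  rw [prs, ph, List.getD_eq_getElem _ _ (by simpa using hi), List.getD_eq_getElem _ _ hi,
    List.getElem_map]

theorem edgeOf_union {L : List Ed} {i : ℕ} (hi : i < (vv L).length) (s : Bool) :
    edgeOf (prs L) (i, s) ∪ edgeOf (prs L) (i, !s) = T L (ph L i) := by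
  rw [T_eq, ← getD_prs hi]
  cases s
  · rfl
  · rw [Finset.union_comm]
    rfl

theorem edgeOf_card {L : List Ed} {i : ℕ} (hi : i < (vv L).length) (s : Bool) :
    (edgeOf (prs L) (i, s)).card = 2 := by
  have h := pr_card L (ph L i)
  rw [← getD_prs hi] at h
  cases s
  · exact h.1
  · exact h.2

theorem indep_iff (L : List Ed) (hL : L.Nodup) (hne : ∀ e ∈ L, px e ≠ py e)
    (hdg : ∀ v, dg L.toFinset v ≤ 3) (M : Finset ℕ) (hM : M ⊆ Finset.range (vv L).length) :
    HypIndep (edgeOf (prs L)) (M ×ˢ (Finset.univ : Finset Bool)) ↔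
      Forest (ind L (M.image (ph L))) := by
  classical
  have hMl : ∀ i ∈ M, i < (vv L).length := fun i hi => Finset.mem_range.1 (hM hi)
  have hinj : ∀ M' ⊆ M, (M'.image (ph L)).card = M'.card := by
    intro M' hM'
    apply Finset.card_image_of_injOn
    intro i hi j hj h
    exact ph_inj (hMl i (hM' hi)) (hMl j (hM' hj)) h
  constructor
  · intro h Y hY hYne
    set K' := vs Y with hK'
    set M' := M.filter (fun i => ph L i ∈ K') with hM'
    have hM'M : M' ⊆ M := Finset.filter_subset _ _
    have him : M'.image (ph L) = K' := by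
      ext v
      rw [Finset.mem_image]
      constructor
      · rintro ⟨i, hi, rfl⟩
        exact (Finset.mem_filter.1 hi).2
      · intro hv
        obtain ⟨e, he, hve⟩ := mem_vs.1 hv
        obtain ⟨_, h1, h2⟩ := mem_ind.1 (hY he)
        have h3 : v ∈ M.image (ph L) := by
          rcases mem_ends.1 hve with rfl | rfl
          · exact h1
          · exact h2
        obtain ⟨i, hi, h4⟩ := Finset.mem_image.1 h3
        exact ⟨i, Finset.mem_filter.2 ⟨hi, by rw [h4]; exact hv⟩, h4⟩
    have hc := hinj M' hM'M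
    rw [him] at hc
    obtain ⟨e, he⟩ := hYne
    have hpx : px e ∈ K' := mem_vs.2 ⟨e, he, mem_ends.2 (Or.inl rfl)⟩
    have hM'ne : M'.Nonempty := by
      rw [← Finset.card_pos, ← hc, Finset.card_pos]
      exact ⟨_, hpx⟩
    have h1 := h (M' ×ˢ Finset.univ) (Finset.product_subset_product_left hM'M)
      (hM'ne.product Finset.univ_nonempty)
    have h2 : (M' ×ˢ (Finset.univ : Finset Bool)).biUnion (edgeOf (prs L)) ⊆
        K'.biUnion (T L) := by
      intro x hx
      obtain ⟨⟨i, s⟩, hz, hx⟩ := Finset.mem_biUnion.1 hx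
      have hi := (Finset.mem_product.1 hz).1
      refine Finset.mem_biUnion.2 ⟨ph L i, (Finset.mem_filter.1 hi).2, ?_⟩
      rw [← edgeOf_union (hMl i (hM'M hi)) s]
      exact Finset.mem_union_left _ hx
    have h3 := Finset.card_le_card h2
    have h4 := count L hL hne hdg K'
    have h5 : Y ⊆ ind L K' := by
      intro f hf
      exact mem_ind.2 ⟨(mem_ind.1 (hY hf)).1, mem_vs.2 ⟨f, hf, mem_ends.2 (Or.inl rfl)⟩,
        mem_vs.2 ⟨f, hf, mem_ends.2 (Or.inr rfl)⟩⟩
    have h6 := Finset.card_le_card h5
    rw [Finset.card_product, Finset.card_univ, Fintype.card_bool] at h1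
    omega
  · intro h Z hZ hZne
    set M' := Z.image Prod.fst with hM'
    have hM'M : M' ⊆ M := by
      intro i hi
      obtain ⟨z, hz, rfl⟩ := Finset.mem_image.1 hi
      exact (Finset.mem_product.1 (hZ hz)).1
    set K' := M'.image (ph L) with hK'
    have hc : K'.card = M'.card := hinj M' hM'M
    have hcnt := count L hL hne hdg K'
    have hM'ne : M'.Nonempty := hZne.image _
    have hind : (ind L K').card + 1 ≤ M'.card := by
      rcases (ind L K').eq_empty_or_nonempty with h0 | h0
      · rw [h0, Finset.card_empty, zero_add]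
        exact Finset.card_pos.2 hM'ne
      · have h1 : ind L K' ⊆ ind L (M.image (ph L)) := by
          intro e he
          obtain ⟨h2, h3, h4⟩ := mem_ind.1 he
          have h5 := Finset.image_subset_image (f := ph L) hM'M
          exact mem_ind.2 ⟨h2, h5 h3, h5 h4⟩
        have h2 := h _ h1 h0
        have h3 : vs (ind L K') ⊆ K' := by
          intro v hv
          obtain ⟨e, he, hve⟩ := mem_vs.1 hv
          obtain ⟨_, h4, h5⟩ := mem_ind.1 he
          rcases mem_ends.1 hve with rfl | rfl
          · exact h4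
          · exact h5
        have h4 := Finset.card_le_card h3
        omega
    have hZM : Z ⊆ M' ×ˢ (Finset.univ : Finset Bool) := by
      intro z hz
      exact Finset.mem_product.2 ⟨Finset.mem_image_of_mem _ hz, Finset.mem_univ _⟩
    set miss := (M' ×ˢ (Finset.univ : Finset Bool)) \ Z with hmiss
    have hmc : miss.card + Z.card = 2 * M'.card := by
      rw [hmiss, Finset.card_sdiff_add_card_eq_card hZM, Finset.card_product, Finset.card_univ,
        Fintype.card_bool, mul_comm]
    have hsub : K'.biUnion (T L) ⊆ Z.biUnion (edgeOf (prs L)) ∪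
        miss.biUnion (fun z => T L (ph L z.1) \ edgeOf (prs L) (z.1, !z.2)) := by
      intro x hx
      obtain ⟨v, hv, hx⟩ := Finset.mem_biUnion.1 hx
      obtain ⟨i, hi, rfl⟩ := Finset.mem_image.1 hv
      obtain ⟨⟨i', s⟩, hz, h1⟩ := Finset.mem_image.1 hi
      have h1 : i' = i := h1
      subst h1
      have hxT := hx
      rw [← edgeOf_union (hMl i' (hM'M hi)) s, Finset.mem_union] at hx
      rw [Finset.mem_union]
      rcases hx with hx | hx
      · exact Or.inl (Finset.mem_biUnion.2 ⟨_, hz, hx⟩)
      · by_cases hz' : (i', !s) ∈ Z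
        · exact Or.inl (Finset.mem_biUnion.2 ⟨_, hz', hx⟩)
        · by_cases hx' : x ∈ edgeOf (prs L) (i', s)
          · exact Or.inl (Finset.mem_biUnion.2 ⟨_, hz, hx'⟩)
          · refine Or.inr (Finset.mem_biUnion.2 ⟨(i', !s), ?_, ?_⟩)
            · exact Finset.mem_sdiff.2
                ⟨Finset.mem_product.2 ⟨hi, Finset.mem_univ _⟩, hz'⟩
            · simp only [Bool.not_not]
              exact Finset.mem_sdiff.2 ⟨hxT, hx'⟩
    have hmb : (miss.biUnion (fun z => T L (ph L z.1) \ edgeOf (prs L) (z.1, !z.2))).card ≤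
        miss.card := by
      refine Finset.card_biUnion_le.trans ?_
      rw [Finset.card_eq_sum_ones]
      apply Finset.sum_le_sum
      rintro ⟨i, s⟩ hz
      have hi : i ∈ M' := (Finset.mem_product.1 (Finset.mem_sdiff.1 hz).1).1
      have hil := hMl i (hM'M hi)
      have h1 : edgeOf (prs L) (i, !s) ⊆ T L (ph L i) := by
        rw [← edgeOf_union hil s]
        exact Finset.subset_union_right
      simp only
      rw [Finset.card_sdiff_of_subset h1, T_card, edgeOf_card hil]
    have h1 := Finset.card_le_card hsub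
    have h2 := Finset.card_union_le (Z.biUnion (edgeOf (prs L)))
      (miss.biUnion (fun z => T L (ph L z.1) \ edgeOf (prs L) (z.1, !z.2)))
    omega

/-! ### The minimum cost -/

/-- conditions on the instance -/
structure Good (F : List Ed) : Prop where
  nodup : F.Nodup
  lab : ∀ e ∈ F, px e ≠ py e ∧ ca e = 0 ∧ cb e = 0 ∧ cc e = 0 ∧ cd e ≤ 1
  deg : ∀ v, dg (F.toFinset.filter (fun e => cd e = 1)) v ≤ 3

theorem mem_es {F : List Ed} {D : List ℕ} {e : Ed} :
    e ∈ es F D ↔ e ∈ F ∧ cd e = 1 ∧ px e ∉ D ∧ py e ∉ D := by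
  rw [es, List.mem_filter]
  simp

theorem tau_le_of {F : List Ed} (D : List ℕ) (hF : Good F) (K : Finset ℕ)
    (hK : K ⊆ vs (es F D).toFinset) (hf : Forest (ind (es F D) K)) :
    tau F.toFinset D.toFinset ≤ (vs (es F D).toFinset).card - K.card := by
  classical
  set W := vs (es F D).toFinset with hW
  set X := D.toFinset ∪ (W \ K) with hX
  have hcfg : Cfg F.toFinset D.toFinset X (ind (es F D) K) := by
    refine ⟨Finset.subset_union_left, ?_, ?_, hf⟩
    · intro e he
      exact List.mem_toFinset.2 (mem_es.1 (mem_ind.1 he).1).1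
    · intro e he
      obtain ⟨h1, h2, h3⟩ := mem_ind.1 he
      obtain ⟨_, _, h4, h5⟩ := mem_es.1 h1
      rw [hX]
      simp only [Finset.mem_union, List.mem_toFinset, Finset.mem_sdiff, not_or, not_and, not_not]
      exact ⟨⟨h4, fun _ => h2⟩, ⟨h5, fun _ => h3⟩⟩
  refine (tau_le hcfg).trans ?_
  have h1 : (X \ D.toFinset).card ≤ W.card - K.card := by
    rw [← Finset.card_sdiff_of_subset hK]
    apply Finset.card_le_card
    rw [hX, Finset.union_sdiff_left]
    exact Finset.sdiff_subset
  have h2 : ∑ e ∈ F.toFinset, ecost X (ind (es F D) K) e = 0 := by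
    apply Finset.sum_eq_zero
    intro e he
    have heF := List.mem_toFinset.1 he
    obtain ⟨_, ha, hb, hc, hd⟩ := hF.lab e heF
    rw [ecost]
    by_cases hx : px e ∈ X
    · rw [if_pos hx]
      split_ifs
      · rfl
      · exact ha
    · rw [if_neg hx]
      by_cases hy : py e ∈ X
      · rw [if_pos hy]
        exact hb
      · rw [if_neg hy]
        by_cases hC : e ∈ ind (es F D) K
        · rw [if_pos hC]
          exact hc
        · rw [if_neg hC]
          by_contra hd0
          have hd1 : cd e = 1 := by omega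
          rw [hX] at hx hy
          simp only [Finset.mem_union, List.mem_toFinset, Finset.mem_sdiff, not_or, not_and,
            not_not] at hx hy
          have he' : e ∈ es F D := mem_es.2 ⟨heF, hd1, hx.1, hy.1⟩
          have he'' : e ∈ (es F D).toFinset := List.mem_toFinset.2 he'
          exact hC (mem_ind.2 ⟨he', hx.2 (mem_vs.2 ⟨e, he'', mem_ends.2 (Or.inl rfl)⟩),
            hy.2 (mem_vs.2 ⟨e, he'', mem_ends.2 (Or.inr rfl)⟩)⟩)
  rw [cost, h2, add_zero]
  exact h1

theorem exists_of_tau {F : List Ed} (D : List ℕ) :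
    ∃ K ⊆ vs (es F D).toFinset, Forest (ind (es F D) K) ∧
      (vs (es F D).toFinset).card ≤ tau F.toFinset D.toFinset + K.card := by
  classical
  set W := vs (es F D).toFinset with hW
  obtain ⟨X, C, hcfg, hcost⟩ := exists_tau F.toFinset D.toFinset
  set G := (es F D).toFinset.filter (fun e => px e ∉ X ∧ py e ∉ X ∧ e ∉ C) with hG
  set R := G.image (fun e => px e) with hR
  refine ⟨W \ (X ∪ R), Finset.sdiff_subset, ?_, ?_⟩
  · refine hcfg.forest.mono ?_
    intro e he
    obtain ⟨h1, h2, h3⟩ := mem_ind.1 he
    simp only [Finset.mem_sdiff, Finset.mem_union, not_or] at h2 h3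
    by_contra hC
    exact h2.2.2 (Finset.mem_image.2 ⟨e, Finset.mem_filter.2
      ⟨List.mem_toFinset.2 h1, h2.2.1, h3.2.1, hC⟩, rfl⟩)
  · have h1 : (W ∩ X).card ≤ (X \ D.toFinset).card := by
      apply Finset.card_le_card
      intro v hv
      obtain ⟨hvW, hvX⟩ := Finset.mem_inter.1 hv
      refine Finset.mem_sdiff.2 ⟨hvX, fun hvD => ?_⟩
      rw [List.mem_toFinset] at hvD
      obtain ⟨e, he, hve⟩ := mem_vs.1 hvW
      obtain ⟨_, _, h4, h5⟩ := mem_es.1 (List.mem_toFinset.1 he)
      rcases mem_ends.1 hve with rfl | rfl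
      · exact h4 hvD
      · exact h5 hvD
    have h2 : G.card ≤ ∑ e ∈ F.toFinset, ecost X C e := by
      have h3 : G ⊆ F.toFinset := by
        intro e he
        exact List.mem_toFinset.2 (mem_es.1 (List.mem_toFinset.1 (Finset.mem_filter.1 he).1)).1
      refine le_trans ?_ (Finset.sum_le_sum_of_subset h3)
      rw [Finset.card_eq_sum_ones]
      apply Finset.sum_le_sum
      intro e he
      obtain ⟨h4, h5, h6, h7⟩ := Finset.mem_filter.1 he
      rw [ecost, if_neg h5, if_neg h6, if_neg h7, (mem_es.1 (List.mem_toFinset.1 h4)).2.1]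
    have h3 : R.card ≤ G.card := Finset.card_image_le
    have h4 : W.card ≤ (W \ (X ∪ R)).card + (W ∩ (X ∪ R)).card :=
      (Finset.card_sdiff_add_card_inter W (X ∪ R)).ge
    have h5 : (W ∩ (X ∪ R)).card ≤ (W ∩ X).card + R.card := by
      rw [Finset.inter_union_distrib_left]
      exact (Finset.card_union_le _ _).trans
        (Nat.add_le_add_left (Finset.card_le_card Finset.inter_subset_right) _)
    rw [← hcost, cost]
    omega

theorem par_eq {F : List Ed} (D : List ℕ) (hF : Good F) :
    par F D = tau F.toFinset D.toFinset := by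
  classical
  set L := es F D with hLdef
  have hL : L.Nodup := hF.nodup.filter _
  have hne : ∀ e ∈ L, px e ≠ py e := fun e he => (hF.lab e (mem_es.1 he).1).1
  have hdg : ∀ v, dg L.toFinset v ≤ 3 := by
    intro v
    refine le_trans ?_ (hF.deg v)
    rw [dg, dg]
    apply Finset.card_le_card
    apply Finset.filter_subset_filter
    intro e he
    have h1 := mem_es.1 (List.mem_toFinset.1 he)
    exact Finset.mem_filter.2 ⟨List.mem_toFinset.2 h1.1, h1.2.1⟩
  obtain ⟨⟨M, hM, hMc⟩, hub⟩ := nuF_correct (prs L)
  have hlen : (prs L).length = (vv L).length := by rw [prs, List.length_map]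
  have hinj : ∀ M ⊆ Finset.range (vv L).length, (M.image (ph L)).card = M.card := by
    intro M' hM'
    apply Finset.card_image_of_injOn
    intro i hi j hj h
    exact ph_inj (Finset.mem_range.1 (hM' hi)) (Finset.mem_range.1 (hM' hj)) h
  have h1 : tau F.toFinset D.toFinset ≤ (vv L).length - nuF (prs L) := by
    have hMr : M ⊆ Finset.range (vv L).length := by
      rw [← hlen]
      exact hM.1
    have h2 := tau_le_of D hF (M.image (ph L)) ?_
      ((indep_iff L hL hne hdg M hMr).1 hM.2)
    · rw [hinj M hMr, hMc, ← vv_card] at h2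
      exact h2
    · intro v hv
      obtain ⟨i, hi, rfl⟩ := Finset.mem_image.1 hv
      exact ph_mem (Finset.mem_range.1 (hMr hi))
  have h2 : (vv L).length ≤ tau F.toFinset D.toFinset + nuF (prs L) := by
    obtain ⟨K, hK, hf, hle⟩ := exists_of_tau (F := F) D
    have hle' : (vs L.toFinset).card ≤ tau F.toFinset D.toFinset + K.card := hle
    set M' := (Finset.range (vv L).length).filter (fun i => ph L i ∈ K) with hM'
    have hMr : M' ⊆ Finset.range (vv L).length := Finset.filter_subset _ _
    have him : M'.image (ph L) = K := by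
      ext v
      rw [Finset.mem_image]
      constructor
      · rintro ⟨i, hi, rfl⟩
        exact (Finset.mem_filter.1 hi).2
      · intro hv
        obtain ⟨i, hi, rfl⟩ := ph_surj (hK hv)
        exact ⟨i, Finset.mem_filter.2 ⟨Finset.mem_range.2 hi, hv⟩, rfl⟩
    have hc := hinj M' hMr
    rw [him] at hc
    have h3 : IsMatch (prs L) M' := by
      refine ⟨by rw [hlen]; exact hMr, ?_⟩
      rw [indep_iff L hL hne hdg M' hMr, him]
      exact hf
    have h4 : M'.card ≤ nuF (prs L) := hub ⟨M', h3, rfl⟩
    rw [vv_card]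
    omega
  have h3 : par F D = (vv L).length - nuF (prs L) := rfl
  omega

/-! ### Polynomial time -/

section poly

open NPC

theorem sz_sublist {β : Type} [TEnc β] {l l' : List β} (h : l.Sublist l') : sz l ≤ sz l' := by
  induction h with
  | slnil => exact le_rfl
  | cons a _ ih => simp; omega
  | cons_cons a _ ih => simp; omega

theorem poly_dedup {α β : Type} [TEnc α] [TEnc β] [DecidableEq β] {l : α → List β}
    (hl : NPC.Poly l) : NPC.Poly (fun a => (l a).dedup) := by
  obtain ⟨r, hr⟩ := hl.sz_le
  have key : ∀ l : List β, l.foldr (fun b acc => if b ∈ acc then acc else b :: acc) [] =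
      l.dedup := by
    intro l
    induction l with
    | nil => rfl
    | cons b l ih =>
      rw [List.foldr_cons, ih]
      by_cases h : b ∈ l
      · rw [if_pos (List.mem_dedup.2 h), List.dedup_cons_of_mem h]
      · rw [if_neg (fun h' => h (List.mem_dedup.1 h')), List.dedup_cons_of_notMem h]
  refine (NPC.Poly.foldr (l := l) (s := fun _ => ([] : List β))
    (F := fun _ b acc => if b ∈ acc then acc else b :: acc) hl (NPC.Poly.const _)
    (NPC.Poly.ite (NPC.Poly.decide_mem (NPC.Poly.fst (NPC.Poly.snd NPC.Poly.id))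
      (NPC.Poly.snd (NPC.Poly.snd NPC.Poly.id)))
      (NPC.Poly.snd (NPC.Poly.snd NPC.Poly.id))
      (NPC.Poly.cons (NPC.Poly.fst (NPC.Poly.snd NPC.Poly.id))
        (NPC.Poly.snd (NPC.Poly.snd NPC.Poly.id)))) r ?_).congr
    fun a => key (l a)
  intro a k _
  rw [key]
  exact (sz_sublist (List.dedup_sublist _)).trans ((NPC.Poly.sz_drop_le _ _).trans (hr a))

variable {α : Type} [TEnc α]

theorem poly_es {F : α → List Ed} {D : α → List ℕ} (hF : Poly F) (hD : Poly D) :
    Poly (fun a => es (F a) (D a)) := by
  unfold es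
  fun_prop

theorem poly_vv {L : α → List Ed} (hL : Poly L) : Poly (fun a => vv (L a)) := by
  unfold vv
  apply poly_dedup
  fun_prop

theorem poly_inc {L : α → List Ed} {v : α → ℕ} (hL : Poly L) (hv : Poly v) :
    Poly (fun a => inc (L a) (v a)) := by
  unfold inc
  fun_prop

attribute [fun_prop] poly_es poly_vv poly_inc

theorem poly_lst {L : α → List Ed} {v : α → ℕ} (hL : Poly L) (hv : Poly v) :
    Poly (fun a => lst (L a) (v a)) := by
  unfold lst
  fun_prop

attribute [fun_prop] poly_lst

theorem poly_pr {L : α → List Ed} {v : α → ℕ} (hL : Poly L) (hv : Poly v) :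
    Poly (fun a => pr (L a) (v a)) := by
  unfold pr
  fun_prop

attribute [fun_prop] poly_pr

theorem poly_prs {L : α → List Ed} (hL : Poly L) : Poly (fun a => prs (L a)) := by
  unfold prs
  fun_prop

theorem poly_par : Poly (fun p : List Ed × List ℕ => par p.1 p.2) := by
  have h1 : Poly (fun p : List Ed × List ℕ => es p.1 p.2) := by fun_prop
  unfold par
  exact NPC.Poly.sub (NPC.Poly.length (poly_vv h1)) (poly_nuF (poly_prs h1))

end poly

/-- The case of ordinary and of free edges in which the ordinary edges form a graph of maximum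
degree at most three. -/
theorem exists_par : ∃ par : List Ed → List ℕ → ℕ,
    NPC.Poly (fun p : List Ed × List ℕ => par p.1 p.2) ∧
    ∀ (F : List Ed) (D : List ℕ), F.Nodup →
      (∀ e ∈ F, px e ≠ py e ∧ ca e = 0 ∧ cb e = 0 ∧ cc e = 0 ∧ cd e ≤ 1) →
      (∀ v, dg (F.toFinset.filter (fun e => cd e = 1)) v ≤ 3) →
      par F D = tau F.toFinset D.toFinset :=
  ⟨par, poly_par, fun _ D h1 h2 h3 => par_eq D ⟨h1, h2, h3⟩⟩

end Pool.Agent.TH993.FVS
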