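import Pool.Agent.TH714.TD.Defs

set_option autoImplicit false

namespace Pool.Agent.TH993.J2159

open Pool.Agent.TH64 Pool.Agent.TH714.TD

theorem numeric (N a b c1 C2 C3 : ℤ) (hc1 : 0 ≤ c1) (hC2 : 0 ≤ C2) (hC3 : 0 ≤ C3)
    (h1 : 2 * |a| ≤ N + c1) (h2 : 2 * |b| ≤ N + C2) (hN : 2 * C3 + C2 < N)
    (h3 : C3 < |a| → C3 < |b| → |a + b| = |a| + |b| → |a| ≤ abs (N - |a| - |b|) + C3) :
    4 * |a + b| ≤ 3 * N + (2 * c1 + 2 * C2 + 4 * C3) := by
  have ht := abs_add_le a b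
  by_cases ha : C3 < |a|
  · by_cases hb : C3 < |b|
    · by_cases hab : |a + b| = |a| + |b|
      · have h4 := h3 ha hb hab
        rcases abs_cases (N - |a| - |b|) with h | h <;> omega
      · rcases abs_cases a with h4 | h4 <;> rcases abs_cases b with h5 | h5 <;>
          rcases abs_cases (a + b) with h6 | h6 <;> omega
    · omega
  · omega

theorem len_unbounded {G : Type} [Group G] (H : Hyp G) {z : G} (hz : ¬ IsOfFinOrder z) (K : ℕ) :
    ∃ r : ℕ, 1 ≤ r ∧ K < H.len (z ^ r) := by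
  by_contra hcon
  push Not at hcon
  have hinj := injective_pow_iff_not_isOfFinOrder.2 hz
  have hfin := H.fin K
  have h1 : Function.Injective (fun r : ℕ => z ^ (r + 1)) := by
    intro i j h
    have := hinj h
    omega
  have h2 : Set.range (fun r : ℕ => z ^ (r + 1)) ⊆ {g | H.len g ≤ K} := by
    rintro _ ⟨r, rfl⟩
    exact hcon (r + 1) (by omega)
  exact (Set.infinite_range_of_injective h1) (hfin.subset h2)

/-- the main step: `1` is the point nearest to `h` among the minimal points of `z` -/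
theorem core {G : Type} [Group G] {H : Hyp G} {x : G} (A : Ax H x) (L : Subgroup G)
    (hcl : Clos A L) (hgood : GoodZ A) (hcor : Corner A) : ∃ N0 : ℕ, ∀ N ≥ N0,
    ∀ (M : Subgroup G) [M.Normal], Fill A N M → ∀ z : G,
    (∀ g : G, ∀ n ∈ M, H.len z ≤ H.len (g⁻¹ * (z * n) * g)) → ¬ IsOfFinOrder (z : G ⧸ M) →
    ∀ (S : Set G) (h : G), h ∈ S → (∀ m ∈ M, ∀ g ∈ S, m * g ∈ S) → (∀ g ∈ S, z * g ∈ S) →
    (∀ p ∈ S, ∀ q ∈ S, ∃ l ∈ L, l⁻¹ * (p⁻¹ * q) ∈ M) →
    (∀ g : G, H.len (g⁻¹ * z * g) ≤ H.len z → ∀ h' ∈ S, H.len h ≤ H.d g h') →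
    ∃ r : ℕ, 1 ≤ r ∧ h⁻¹ * z ^ r * h ∈ L := by
  classical
  obtain ⟨c1, N1, hp⟩ := pmin A
  obtain ⟨C2, N2, hg⟩ := hgood
  obtain ⟨C3, N3, hc⟩ := hcor
  have hθ : ∀ w : G, ∃ θ : ℕ, ¬ IsOfFinOrder w → ∀ (u : G) (k : ℤ),
      (θ : ℤ) < |A.s u 1 (w ^ k)| →
      ∃ s : ℕ, 1 ≤ s ∧ ∃ t : ℤ, t ≠ 0 ∧ u * x ^ t * u⁻¹ = w ^ (s : ℤ) := by
    intro w
    by_cases hw : IsOfFinOrder w
    · exact ⟨0, fun h => absurd hw h⟩
    · obtain ⟨P⟩ := exists_pax' H hw
      obtain ⟨θ, h⟩ := pig A.toPAx P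
      exact ⟨θ, fun _ => h⟩
  choose θ hθ using hθ
  set Th : ℕ := (H.fin (4 * H.D + 2)).toFinset.sup θ with hTh
  obtain ⟨N4, hN4⟩ := hcl (2 * c1 + 2 * (C2 + 2 * Th) + 4 * C3 + 4 * A.c)
  refine ⟨N1 + N2 + N3 + N4 + 2 * C3 + C2 + 2 * Th + 1, ?_⟩
  intro N hN M hM hF z hmin hz S h hhS hSM hSz hSL hnear
  have hNZ : ((2 * C3 + C2 + 2 * Th : ℕ) : ℤ) < N := by exact_mod_cast (by omega)
  push_cast at hNZ
  -- no conjugate of `z` is in `⟨x⟩`
  have hzx : ∀ u : G, u⁻¹ * z * u ∉ Subgroup.zpowers x := by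
    rintro u ⟨k, hk⟩
    apply hz
    have hk' : x ^ k = u⁻¹ * z * u := hk
    have h1 : z ^ N = PAx.rt x u (N * k) := by
      unfold PAx.rt
      rw [mul_comm, zpow_mul, hk', zpow_natCast, conj_pow']
      group
    rw [isOfFinOrder_iff_pow_eq_one]
    refine ⟨N, by omega, ?_⟩
    rw [← QuotientGroup.mk_pow, QuotientGroup.eq_one_iff, h1]
    exact hF.rot u k
  have hzi : ¬ IsOfFinOrder z := by
    intro h1
    apply hz
    rw [isOfFinOrder_iff_pow_eq_one] at h1 ⊢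
    obtain ⟨n, hn, hn1⟩ := h1
    exact ⟨n, hn, by rw [← QuotientGroup.mk_pow, hn1, QuotientGroup.mk_one]⟩
  -- (i)
  have hi : ∀ U : G, 2 * |A.s U h 1| ≤ N + c1 := by
    intro U
    have h1 := hp N (by omega) M hF 1 h (fun m hm => by
      rw [H.d_one]
      exact hnear 1 (by simp) _ (hSM m hm h hhS)) U
    rw [A.s_symm, abs_neg] at h1
    rwa [A.s_symm, abs_neg, A.s_symm, abs_neg]
  -- (ii)
  have hii : ∀ (U : G) (k : ℤ), 2 * |A.s U 1 (z ^ k)| ≤ N + (C2 + 2 * Th : ℕ) := by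
    by_cases hlen : 4 * H.D + 2 ≤ H.len z
    · have h1 : ∀ (U : G) (m : ℕ), 2 * |A.s U 1 (z ^ m)| ≤ N + C2 := fun U m =>
        hg N (by omega) M hF z hmin hlen U (hzx U) m
      intro U k
      push_cast
      rcases Int.natAbs_eq k with hk | hk
      · have h2 := h1 U k.natAbs
        rw [← zpow_natCast, ← hk] at h2
        omega
      · have h2 := h1 (z ^ k.natAbs * U) k.natAbs
        have h3 := A.s_mul (z ^ k.natAbs) U 1 (z ^ k)
        have h4 : z ^ k.natAbs * z ^ k = 1 := by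
          rw [← zpow_natCast, ← zpow_add]
          rw [show ((k.natAbs : ℕ) : ℤ) + k = 0 by omega, zpow_zero]
        rw [h4, mul_one] at h3
        rw [← h3, A.s_symm, abs_neg]
        omega
    · intro U k
      have hsup : θ z ≤ Th := Finset.le_sup (by
        rw [Set.Finite.mem_toFinset]
        show H.len z ≤ _
        omega)
      by_contra hcon
      push Not at hcon
      push_cast at hcon
      obtain ⟨s, hs, t, ht, hst⟩ := hθ z hzi U k (by
        have : (θ z : ℤ) ≤ Th := by exact_mod_cast hsup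
        omega)
      have hcomm : (U⁻¹ * z * U) * x ^ t = x ^ t * (U⁻¹ * z * U) := by
        have h1 : x ^ t = U⁻¹ * z ^ (s : ℤ) * U := by rw [← hst]; group
        rw [h1]
        have h2 : z * z ^ (s : ℤ) = z ^ (s : ℤ) * z := by
          rw [← zpow_one_add, ← zpow_add_one, add_comm]
        calc U⁻¹ * z * U * (U⁻¹ * z ^ (s : ℤ) * U) = U⁻¹ * (z * z ^ (s : ℤ)) * U := by group
          _ = U⁻¹ * (z ^ (s : ℤ) * z) * U := by rw [h2]
          _ = _ := by group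
      exact hzx U (A.comm ht hcomm)
  -- the sum of two pieces
  have hsum : ∀ (U : G) (k : ℤ), 4 * |A.s U h 1 + A.s U 1 (z ^ k)| ≤
      3 * N + (2 * c1 + 2 * (C2 + 2 * Th : ℕ) + 4 * C3) := by
    intro U k
    by_cases hlen : 4 * H.D + 2 ≤ H.len z
    · refine numeric N (A.s U h 1) (A.s U 1 (z ^ k)) c1 (C2 + 2 * Th : ℕ) C3 (by positivity)
        (by positivity) (by positivity) (hi U) (hii U k) (by push_cast; omega) ?_
      intro h1 h2 h3
      exact hc N (by omega) M hF z (fun p => by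
        have := hmin p 1 M.one_mem
        rwa [mul_one] at this) hlen S h hhS hSM hnear U k h1 h2 h3
    · have h1 := hi U
      have h2 : |A.s U 1 (z ^ k)| ≤ Th := by
        by_contra hcon
        push Not at hcon
        have hsup : θ z ≤ Th := Finset.le_sup (by
          rw [Set.Finite.mem_toFinset]
          show H.len z ≤ _
          omega)
        obtain ⟨s, hs, t, ht, hst⟩ := hθ z hzi U k (by
          have : (θ z : ℤ) ≤ Th := by exact_mod_cast hsup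
          omega)
        have hcomm : (U⁻¹ * z * U) * x ^ t = x ^ t * (U⁻¹ * z * U) := by
          have h1 : x ^ t = U⁻¹ * z ^ (s : ℤ) * U := by rw [← hst]; group
          rw [h1]
          have h2 : z * z ^ (s : ℤ) = z ^ (s : ℤ) * z := by
            rw [← zpow_one_add, ← zpow_add_one, add_comm]
          calc U⁻¹ * z * U * (U⁻¹ * z ^ (s : ℤ) * U) = U⁻¹ * (z * z ^ (s : ℤ)) * U := by group
            _ = U⁻¹ * (z ^ (s : ℤ) * z) * U := by rw [h2]
            _ = _ := by group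
        exact hzx U (A.comm ht hcomm)
      have h3 := abs_add_le (A.s U h 1) (A.s U 1 (z ^ k))
      push_cast
      omega
  -- (iii)
  obtain ⟨r, hr1, hr⟩ := len_unbounded H hzi
    (2 * H.len h + 2 * A.c + (N + (C2 + 2 * Th)) * H.len x)
  have hclaim : ∀ U : G, 4 * |A.s U h (z ^ r * h)| ≤
      3 * N + (2 * c1 + 2 * (C2 + 2 * Th) + 4 * C3 + 4 * A.c : ℕ) := by
    intro U
    have e1 := A.s_add U h 1 (z ^ r * h)
    have e2 := A.s_add U 1 (z ^ r) (z ^ r * h)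
    have hb := hii U (r : ℤ)
    rw [zpow_natCast] at hb
    have hxb : H.len (x ^ A.s U 1 (z ^ r)) ≤ (N + (C2 + 2 * Th)) * H.len x := by
      rw [PAx.len_zpow]
      refine (H.len_pow_le x _).trans (Nat.mul_le_mul_right _ ?_)
      rw [Int.abs_eq_natAbs] at hb
      omega
    by_cases ha : |A.s U h 1| ≤ A.c
    · -- `a` is small
      have e3 := A.s_mul (z ^ (-(r : ℤ))) U (z ^ r) (z ^ r * h)
      have e4 := A.s_mul (z ^ (-(r : ℤ))) U 1 (z ^ r)
      have f1 : z ^ (-(r : ℤ)) * z ^ r = 1 := by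
        rw [← zpow_natCast z r, ← zpow_add, neg_add_cancel, zpow_zero]
      rw [← mul_assoc, f1, one_mul] at e3
      rw [f1, mul_one] at e4
      have h1 := hsum (z ^ (-(r : ℤ)) * U) (-(r : ℤ))
      have h2 : A.s (z ^ (-(r : ℤ)) * U) h 1 + A.s (z ^ (-(r : ℤ)) * U) 1 (z ^ (-(r : ℤ))) =
          -(A.s U 1 (z ^ r) + A.s U (z ^ r) (z ^ r * h)) := by
        rw [A.s_symm _ 1 h, A.s_symm _ (z ^ (-(r : ℤ))) 1, e3, e4]
        ring
      rw [h2, abs_neg] at h1
      have h3 := abs_add_le (A.s U h 1) (A.s U 1 (z ^ r) + A.s U (z ^ r) (z ^ r * h))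
      rw [e2, e1] at h3
      rw [e2] at h1
      push_cast at h1 ⊢
      omega
    · by_cases hc3 : |A.s U (z ^ r) (z ^ r * h)| ≤ A.c
      · have h1 := hsum U (r : ℤ)
        rw [zpow_natCast] at h1
        have h3 := abs_add_le (A.s U h 1 + A.s U 1 (z ^ r)) (A.s U (z ^ r) (z ^ r * h))
        rw [add_assoc, e2, e1] at h3
        push_cast at h1 ⊢
        omega
      · exfalso
        push Not at ha hc3
        have g1 := A.pr_between' U h 1 ha
        have g2 := A.pr_between U (z ^ r) (z ^ r * h) hc3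
        have g3 := A.d_le_pr U 1 (z ^ r)
        have g4 : H.d (z ^ r) (z ^ r * h) = H.len h := by
          have := H.d_mul (z ^ r) 1 h
          rw [mul_one, H.d_one] at this
          exact this
        rw [g4] at g2
        simp only [H.d_one, H.d_one'] at g1 g3
        omega
  -- (iv)
  refine ⟨r, hr1, ?_⟩
  apply hN4 N (by omega) M hF
  · intro V
    have h1 := A.s_mul h V 1 (h⁻¹ * z ^ r * h)
    rw [← h1, mul_one, show h * (h⁻¹ * z ^ r * h) = z ^ r * h by group]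
    exact hclaim _
  · have hzr : ∀ n : ℕ, z ^ n * h ∈ S := by
      intro n
      induction n with
      | zero => rwa [pow_zero, one_mul]
      | succ n ih =>
        rw [pow_succ', mul_assoc]
        exact hSz _ ih
    obtain ⟨l, hl, hlM⟩ := hSL h hhS _ (hzr r)
    exact ⟨l, hl, by rwa [mul_assoc]⟩

theorem keyK {G : Type} [Group G] {H : Hyp G} {x : G} (A : Ax H x) (L : Subgroup G)
    (hcl : Clos A L) (hgood : GoodZ A) (hcor : Corner A) : KeyK A L := by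
  classical
  obtain ⟨N0, hcore⟩ := core A L hcl hgood hcor
  refine ⟨N0, ?_⟩
  intro N hN M hM hF z hmin hz h0 hh0
  obtain ⟨l1, hl1, hn1⟩ := hh0
  let S : Set G := {g | ∃ m ∈ M, ∃ l ∈ L, g = m * h0 * l}
  have hh0S : h0 ∈ S := ⟨1, M.one_mem, 1, L.one_mem, by group⟩
  have hSM : ∀ m ∈ M, ∀ g ∈ S, m * g ∈ S := by
    rintro m hm _ ⟨m', hm', l, hl, rfl⟩
    exact ⟨m * m', M.mul_mem hm hm', l, hl, by group⟩
  have hSz : ∀ g ∈ S, z * g ∈ S := by
    rintro _ ⟨m, hm, l, hl, rfl⟩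
    refine ⟨(z * m * z⁻¹) * ((h0 * l1) * (l1⁻¹ * (h0⁻¹ * z * h0)) * (h0 * l1)⁻¹),
      M.mul_mem (hM.conj_mem _ hm _) (hM.conj_mem _ hn1 _), l1 * l, L.mul_mem hl1 hl, by group⟩
  have hSL : ∀ p ∈ S, ∀ q ∈ S, ∃ l ∈ L, l⁻¹ * (p⁻¹ * q) ∈ M := by
    rintro _ ⟨m, hm, l, hl, rfl⟩ _ ⟨m', hm', l', hl', rfl⟩
    refine ⟨l⁻¹ * l', L.mul_mem (L.inv_mem hl) hl', ?_⟩
    have := hM.conj_mem _ (M.mul_mem (M.inv_mem hm) hm') (h0 * l')⁻¹
    rw [inv_inv] at this
    rwa [show (l⁻¹ * l')⁻¹ * ((m * h0 * l)⁻¹ * (m' * h0 * l')) =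
      (h0 * l')⁻¹ * (m⁻¹ * m') * (h0 * l') by group]
  -- the nearest point
  have hne : ∃ k, ∃ g : G, H.len (g⁻¹ * z * g) ≤ H.len z ∧ ∃ h ∈ S, H.d g h = k :=
    ⟨_, 1, by simp, h0, hh0S, rfl⟩
  obtain ⟨g, hg, h, hh, hgh⟩ := Nat.find_spec hne
  have hnear : ∀ g' : G, H.len (g'⁻¹ * z * g') ≤ H.len z → ∀ h' ∈ S, H.d g h ≤ H.d g' h' := by
    intro g' hg' h' hh'
    rw [hgh]
    exact Nat.find_min' hne ⟨g', hg', h', hh', rfl⟩
  obtain ⟨r, hr1, hr⟩ := hcore N hN M hF (g⁻¹ * z * g) (by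
      intro p n hn
      refine hg.trans ?_
      have h1 := hmin (g * p) (g * n * g⁻¹) (hM.conj_mem _ hn _)
      rwa [show (g * p)⁻¹ * (z * (g * n * g⁻¹)) * (g * p) = p⁻¹ * (g⁻¹ * z * g * n) * p by
        group] at h1)
    (by
      intro h1
      apply hz
      rw [isOfFinOrder_iff_pow_eq_one] at h1 ⊢
      obtain ⟨n, hn, hn1⟩ := h1
      refine ⟨n, hn, ?_⟩
      rw [← QuotientGroup.mk_pow, QuotientGroup.eq_one_iff] at hn1 ⊢
      rw [conj_pow'] at hn1
      have := hM.conj_mem _ hn1 g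
      rwa [show g * (g⁻¹ * z ^ n * g) * g⁻¹ = z ^ n by group] at this)
    {p | g * p ∈ S} (g⁻¹ * h) (by
      show g * (g⁻¹ * h) ∈ S
      rwa [mul_inv_cancel_left])
    (by
      intro m hm p hp
      show g * (m * p) ∈ S
      rw [show g * (m * p) = (g * m * g⁻¹) * (g * p) by group]
      exact hSM _ (hM.conj_mem _ hm _) _ hp)
    (by
      intro p hp
      show g * (g⁻¹ * z * g * p) ∈ S
      rw [show g * (g⁻¹ * z * g * p) = z * (g * p) by group]
      exact hSz _ hp)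
    (by
      intro p hp q hq
      obtain ⟨l, hl, hlM⟩ := hSL _ hp _ hq
      refine ⟨l, hl, ?_⟩
      rwa [show (g * p)⁻¹ * (g * q) = p⁻¹ * q by group] at hlM)
    (by
      intro g' hg' h' hh'
      have h1 := hnear (g * g') (by
        rw [show (g * g')⁻¹ * z * (g * g') = g'⁻¹ * (g⁻¹ * z * g) * g' by group]
        exact hg'.trans hg) _ hh'
      rwa [H.d_mul] at h1)
  obtain ⟨m, hm, l, hl, hhe⟩ := hh
  refine ⟨m, hm, l, hl, r, hr1, ?_⟩
  rw [← hhe]
  rw [conj_pow'] at hr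
  rwa [show (g⁻¹ * h)⁻¹ * (g⁻¹ * z ^ r * g) * (g⁻¹ * h) = h⁻¹ * z ^ r * h by group] at hr

end Pool.Agent.TH993.J2159
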