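import Pool.Agent.TH714.TD.Base

set_option autoImplicit false

namespace Pool.Agent.TH993.J2324

open Pool.Agent.TH64 Pool.Agent.TH714.TD

section
variable {G : Type*} [Group G] {H : Hyp G} {x : G} (A : Ax H x)

theorem s_own (u : G) (j : ℤ) : A.s u u (u * x ^ j) = j := by
  rw [A.s_line, inv_mul_cancel, A.κ_one, sub_zero]

/-- only finitely many lines of a sequence of distinct lines separate two points -/
theorem ev_small (e : ℕ → G) (he : ∀ i j, i ≠ j → (e i)⁻¹ * e j ∉ Subgroup.zpowers x) (h h' : G) :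
    ∃ K : ℕ, ∀ i ≥ K, |A.s (e i) h h'| ≤ A.c := by
  classical
  obtain ⟨K, hK⟩ := far_count A h h'
  have hfin : {i : ℕ | (A.c : ℤ) < |A.s (e i) h h'|}.Finite := by
    by_contra hinf
    obtain ⟨I, hI, hc⟩ := Set.Infinite.exists_subset_card_eq hinf (K + 1)
    have := hK I e (fun i _ j _ hij => he i j hij) (fun i hi => hI hi)
    omega
  obtain ⟨K0, hK0⟩ := hfin.bddAbove
  refine ⟨K0 + 1, fun i hi => ?_⟩
  by_contra hcon
  push Not at hcon
  have := hK0 hcon
  omega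

section word
variable {k : ℕ} (c : G) (a b : Fin k → G) (n : ℕ)

theorem P_shift {σ : G} {R : ℕ} {P : ℕ → G} (hP : ∀ i, P (i + R) = σ * P i) (m i : ℕ) :
    P (i + m * R) = σ ^ m * P i := by
  induction m with
  | zero => simp
  | succ m ih =>
    rw [show i + (m + 1) * R = (i + m * R) + R by ring, hP, ih, pow_succ', mul_assoc]

theorem w_shift {R : ℕ} {w : ℕ → Bool × Fin k} (hw : ∀ i, w (i + R) = w i) (m i : ℕ) :
    w (i + m * R) = w i := by
  induction m with
  | zero => simp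
  | succ m ih =>
    rw [show i + (m + 1) * R = (i + m * R) + R by ring, hw, ih]

theorem we_shift {σ : G} {R : ℕ} {P : ℕ → G} {w : ℕ → Bool × Fin k}
    (hP : ∀ i, P (i + R) = σ * P i) (hw : ∀ i, w (i + R) = w i) (m l : ℕ) :
    we x c n a b P w (l + 3 * (m * R)) = σ ^ m * we x c n a b P w l := by
  unfold we
  rw [show (l + 3 * (m * R)) / 3 = l / 3 + m * R by omega,
    show (l + 3 * (m * R)) % 3 = l % 3 by omega, P_shift hP, w_shift hw]
  group

theorem sl_cases (s : Bool) (r : ℕ) (hr : r < 3) :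
    (s = true ∧ r = 0 ∧ sl n s r = n) ∨ (s = true ∧ r = 1 ∧ sl n s r = 2 * n) ∨
    (s = true ∧ r = 2 ∧ sl n s r = 3 * n) ∨ (s = false ∧ r = 0 ∧ sl n s r = -(3 * n)) ∨
    (s = false ∧ r = 1 ∧ sl n s r = -(2 * n)) ∨ (s = false ∧ r = 2 ∧ sl n s r = - n) := by
  have hr3 : r = 0 ∨ r = 1 ∨ r = 2 := by omega
  cases s <;> rcases hr3 with rfl | rfl | rfl <;> simp [sl]

/-- two letters with almost the same signed length -/
theorem sl_eq {s s' : Bool} {r r' : ℕ} (hr : r < 3) (hr' : r' < 3)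
    (h : |sl n s r - sl n s' r'| < n) : s = s' ∧ r = r' := by
  rw [abs_lt] at h
  rcases sl_cases n s r hr with ⟨h1, h2, h3⟩ | ⟨h1, h2, h3⟩ | ⟨h1, h2, h3⟩ | ⟨h1, h2, h3⟩ |
      ⟨h1, h2, h3⟩ | ⟨h1, h2, h3⟩ <;>
    rcases sl_cases n s' r' hr' with ⟨h4, h5, h6⟩ | ⟨h4, h5, h6⟩ | ⟨h4, h5, h6⟩ | ⟨h4, h5, h6⟩ |
      ⟨h4, h5, h6⟩ | ⟨h4, h5, h6⟩ <;>
    rw [h3, h6] at h <;>
    first
      | (exfalso; omega)
      | exact ⟨h1.trans h4.symm, h2.trans h5.symm⟩

end word

section per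
variable {k : ℕ} {c : G} {a b : Fin k → G} {n : ℕ} {B : ℤ}

/-- the lines of an infinite word are distinct -/
theorem lines_inj {P : ℕ → G} {w : ℕ → Bool × Fin k}
    (hC : ∀ r, 0 < r → Chn A n B (we x c n a b P w) (wf x c n a b P w) (3 * r) (P 0) (P r))
    (hn : 2 * B + 4 * A.th + 4 * A.c < n) :
    ∀ i j, i ≠ j → (we x c n a b P w i)⁻¹ * we x c n a b P w j ∉ Subgroup.zpowers x := by
  intro i j hij
  exact (hC (i + j + 1) (by omega)).inj' hn i j hij (by omega) (by omega)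

/-- the lines of a periodic word appear among the lines of the other word -/
theorem lines_match {σ : G} {R R' : ℕ} {P P' : ℕ → G} {w w' : ℕ → Bool × Fin k}
    (hR : 0 < R) (hR' : 0 < R')
    (hC : ∀ r, 0 < r → Chn A n B (we x c n a b P w) (wf x c n a b P w) (3 * r) (P 0) (P r))
    (hP : ∀ i, P (i + R) = σ * P i) (hw : ∀ i, w (i + R) = w i)
    (hC' : ∀ r, 0 < r → Chn A n B (we x c n a b P' w') (wf x c n a b P' w') (3 * r) (P' 0) (P' r))
    (hP' : ∀ i, P' (i + R') = σ * P' i)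
    (hn : 2 * B + 4 * A.th + 4 * A.c < n) (hn2 : 4 * B + 6 * A.th + 4 * A.c < n) :
    ∃ K : ℕ, ∀ l ≥ K, ∃ l' : ℕ,
      (we x c n a b P' w' l')⁻¹ * we x c n a b P w l ∈ Subgroup.zpowers x ∧
      (w (l / 3)).1 = (w' (l' / 3)).1 ∧ l % 3 = l' % 3 := by
  have hth := th_pos A
  have hinj := lines_inj A hC hn
  obtain ⟨K0, hK0⟩ := ev_small A (we x c n a b P w) hinj (P 0) (P' 0)
  refine ⟨K0, fun l hl => ?_⟩
  -- the translated lines
  have hinj2 : ∀ i j : ℕ, i ≠ j → ((σ ^ i)⁻¹ * we x c n a b P w l)⁻¹ *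
      ((σ ^ j)⁻¹ * we x c n a b P w l) ∉ Subgroup.zpowers x := by
    have key : ∀ i j : ℕ, i < j → ((σ ^ i)⁻¹ * we x c n a b P w l)⁻¹ *
        ((σ ^ j)⁻¹ * we x c n a b P w l) ∉ Subgroup.zpowers x := by
      intro i j hij hmem
      have h1 := hinj (l + 3 * ((j - i) * R)) l (by
        have : 0 < (j - i) * R := Nat.mul_pos (by omega) hR
        omega)
      rw [we_shift c a b n hP hw] at h1
      apply h1
      have h2 : σ ^ j = σ ^ i * σ ^ (j - i) := by
        rw [← pow_add]; congr 1; omega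
      have h3 : (σ ^ (j - i) * we x c n a b P w l)⁻¹ * we x c n a b P w l =
          ((σ ^ i)⁻¹ * we x c n a b P w l)⁻¹ * ((σ ^ j)⁻¹ * we x c n a b P w l) := by
        have h4 : σ ^ i * (σ ^ j)⁻¹ = (σ ^ (j - i))⁻¹ := by
          rw [h2, mul_inv_rev, ← mul_assoc]
          have h5 : σ ^ i * (σ ^ (j - i))⁻¹ = (σ ^ (j - i))⁻¹ * σ ^ i :=
            ((Commute.refl σ).pow_pow i (j - i)).inv_right.eq
          rw [h5, mul_inv_cancel_right]
        calc (σ ^ (j - i) * we x c n a b P w l)⁻¹ * we x c n a b P w l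
            = (we x c n a b P w l)⁻¹ * (σ ^ (j - i))⁻¹ * we x c n a b P w l := by group
          _ = (we x c n a b P w l)⁻¹ * (σ ^ i * (σ ^ j)⁻¹) * we x c n a b P w l := by rw [h4]
          _ = _ := by group
      rw [h3]
      exact hmem
    intro i j hij
    rcases lt_or_gt_of_ne hij with h | h
    · exact key i j h
    · exact not_mem_symm (key j i h)
  obtain ⟨M0, hM0⟩ := ev_small A (fun m : ℕ => (σ ^ m)⁻¹ * we x c n a b P w l) hinj2 (P 0) (P' 0)
  obtain ⟨m, hm⟩ : ∃ m : ℕ, m = M0 + l + 1 := ⟨_, rfl⟩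
  have hmR : m ≤ m * R := Nat.le_mul_of_pos_right _ hR
  have hmR' : m ≤ m * R' := Nat.le_mul_of_pos_right _ hR'
  have e1 : P (m * R) = σ ^ m * P 0 := by
    have := P_shift (R := R) hP m 0
    rwa [zero_add] at this
  have e2 : P' (m * R') = σ ^ m * P' 0 := by
    have := P_shift (R := R') hP' m 0
    rwa [zero_add] at this
  have c1 := hC (m * R) (by omega)
  have c2 := hC' (m * R') (by omega)
  rw [e1] at c1
  rw [e2] at c2
  have s1 : |A.s (we x c n a b P w l) (P 0) (P' 0)| ≤ A.c := hK0 l hl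
  have s2 : |A.s (we x c n a b P w l) (σ ^ m * P 0) (σ ^ m * P' 0)| ≤ A.c := by
    have := hM0 m (by omega)
    rw [← A.s_mul (σ ^ m)] at this
    rwa [mul_inv_cancel_left] at this
  have a1 := A.s_add (we x c n a b P w l) (P' 0) (P 0) (σ ^ m * P' 0)
  have a2 := A.s_add (we x c n a b P w l) (P 0) (σ ^ m * P 0) (σ ^ m * P' 0)
  have v1 := c1.val_ge hn l (by omega)
  have v2 := c1.val hn l (by omega)
  rw [← abs_s_symm] at s1
  have b1 : |A.s (we x c n a b P w l) (P' 0) (σ ^ m * P' 0) -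
      A.s (we x c n a b P w l) (P 0) (σ ^ m * P 0)| ≤ 2 * A.c := by
    rw [← a1, ← a2, show A.s (we x c n a b P w l) (P' 0) (P 0) +
      (A.s (we x c n a b P w l) (P 0) (σ ^ m * P 0) +
        A.s (we x c n a b P w l) (σ ^ m * P 0) (σ ^ m * P' 0)) -
      A.s (we x c n a b P w l) (P 0) (σ ^ m * P 0) = A.s (we x c n a b P w l) (P' 0) (P 0) +
        A.s (we x c n a b P w l) (σ ^ m * P 0) (σ ^ m * P' 0) by ring]
    have := abs_add_le (A.s (we x c n a b P w l) (P' 0) (P 0))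
      (A.s (we x c n a b P w l) (σ ^ m * P 0) (σ ^ m * P' 0))
    omega
  have b2 : 2 * A.th + B + A.c < |A.s (we x c n a b P w l) (P' 0) (σ ^ m * P' 0)| := by
    have := abs_sub_abs_le_abs_sub (A.s (we x c n a b P w l) (P 0) (σ ^ m * P 0))
      (A.s (we x c n a b P w l) (P' 0) (σ ^ m * P' 0))
    rw [abs_sub_comm] at this
    omega
  obtain ⟨l', hl', hmem⟩ : ∃ l' < 3 * (m * R'),
      (we x c n a b P' w' l')⁻¹ * we x c n a b P w l ∈ Subgroup.zpowers x := by
    by_contra hcon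
    push Not at hcon
    have := c2.out hn (we x c n a b P w l) hcon
    omega
  refine ⟨l', hmem, ?_⟩
  obtain ⟨s, hs⟩ := hmem
  have hs' : x ^ s = (we x c n a b P' w' l')⁻¹ * we x c n a b P w l := hs
  have he : we x c n a b P w l = we x c n a b P' w' l' * x ^ s := by rw [hs']; group
  have v3 := c2.val hn l' hl'
  have o1 : A.s (we x c n a b P w l) (we x c n a b P w l) (wf x c n a b P w l) =
      sl n (w (l / 3)).1 (l % 3) := s_own A _ _
  have o2 : A.s (we x c n a b P' w' l') (we x c n a b P' w' l') (wf x c n a b P' w' l') =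
      sl n (w' (l' / 3)).1 (l' % 3) := s_own A _ _
  have o3 : A.s (we x c n a b P w l) (P' 0) (σ ^ m * P' 0) =
      A.s (we x c n a b P' w' l') (P' 0) (σ ^ m * P' 0) := by
    rw [he, A.s_base]
  rw [o1] at v2
  rw [o2, ← o3] at v3
  refine sl_eq n (Nat.mod_lt _ (by omega)) (Nat.mod_lt _ (by omega)) ?_
  rw [abs_le] at v2 v3 b1
  rw [abs_lt]
  constructor <;> omega

end per

/-- the index of the line of a letter through its base -/
def nb (s : Bool) : ℕ := if s then 0 else 2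

section geo
variable {k : ℕ} (x) (c : G) (a b : Fin k → G) (n : ℕ)

theorem base_nb (P : ℕ → G) (w : ℕ → Bool × Fin k) (i : ℕ) :
    ∃ j : ℤ, we x c n a b P w (3 * i + nb (w i).1) = bs x c n a b (P i) (w i) * x ^ j := by
  unfold we nb bs
  rcases hs : (w i).1 with _ | _
  · refine ⟨n, ?_⟩
    simp only [Bool.false_eq_true, if_false]
    rw [show (3 * i + 2) / 3 = i by omega, show (3 * i + 2) % 3 = 2 by omega, hs]
    simp only [pp, hs, so, tt, Bool.false_eq_true, if_false, show (2 : ℕ) ≠ 0 by omega,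
      show (2 : ℕ) ≠ 1 by omega, zpow_natCast]
    group
  · refine ⟨0, ?_⟩
    simp only [if_true]
    rw [show (3 * i + 0) / 3 = i by omega, show (3 * i + 0) % 3 = 0 by omega, hs]
    simp only [pp, hs, so, if_true, zpow_zero]

theorem base_mid (P : ℕ → G) (w : ℕ → Bool × Fin k) (i : ℕ) :
    ∃ j : ℤ, we x c n a b P w (3 * i + 1) = bs x c n a b (P i) (w i) * (x ^ n * c) * x ^ j := by
  unfold we bs
  rw [show (3 * i + 1) / 3 = i by omega, show (3 * i + 1) % 3 = 1 by omega]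
  rcases hs : (w i).1 with _ | _
  · refine ⟨2 * n, ?_⟩
    simp only [pp, hs, so, tt, Bool.false_eq_true, if_false, show (1 : ℕ) ≠ 0 by omega, if_true]
    have : x ^ (2 * (n : ℤ)) = x ^ (2 * n) := by
      rw [← zpow_natCast]; push_cast; rfl
    rw [this]
    group
  · refine ⟨0, ?_⟩
    simp only [pp, hs, so, if_true, show (1 : ℕ) ≠ 0 by omega, if_false, zpow_zero, mul_one]

end geo

end

theorem common_seg {G : Type*} [Group G] {H : Hyp G} {x : G} (A : Ax H x) {k : ℕ} (L : Subgroup G)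
    (c : G) (a b : Fin k → G) (hch : WdChain A L c a b) (hc : c ∉ Subgroup.zpowers x) :
    ∃ n0 : ℕ, ∀ n ≥ n0, ∀ (σ : G) (R R' : ℕ) (P P' : ℕ → G)
      (w w' : ℕ → Bool × Fin k) (l l' : ℕ → G), 0 < R → 0 < R' →
      (∀ r, Wd L x c n a b r P w l) → (∀ i, P (i + R) = σ * P i) → (∀ i, w (i + R) = w i) →
      (∀ r, Wd L x c n a b r P' w' l') → (∀ i, P' (i + R') = σ * P' i) →
      (∀ i, w' (i + R') = w' i) →
      ∃ K : ℕ, ∀ i ≥ K, ∃ i' : ℕ, bs x c n a b (P i) (w i) = bs x c n a b (P' i') (w' i') := by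
  obtain ⟨B, hB0, hB⟩ := hch
  obtain ⟨Λ, hΛ⟩ : ∃ Λ : ℕ, Λ = A.c * H.len c + A.c * A.c + A.c := ⟨_, rfl⟩
  refine ⟨4 * B.toNat + 6 * A.th + 4 * A.c + Λ + 1, ?_⟩
  intro n hn σ R R' P P' w w' l l' hR hR' hW hP hw hW' hP' hw'
  have hnZ : 4 * B + 6 * A.th + 4 * A.c + Λ < n := by omega
  have hth := th_pos A
  have hn1 : 2 * B + 4 * A.th + 4 * A.c < n := by omega
  have hn2 : 4 * B + 6 * A.th + 4 * A.c < n := by omega
  have hC : ∀ r, 0 < r → Chn A n B (we x c n a b P w) (wf x c n a b P w) (3 * r) (P 0) (P r) :=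
    fun r hr => hB n r P w l hr (hW r) _ _ (by rw [inv_mul_cancel]; exact L.one_mem)
      (by rw [inv_mul_cancel]; exact L.one_mem)
  have hC' : ∀ r, 0 < r →
      Chn A n B (we x c n a b P' w') (wf x c n a b P' w') (3 * r) (P' 0) (P' r) :=
    fun r hr => hB n r P' w' l' hr (hW' r) _ _ (by rw [inv_mul_cancel]; exact L.one_mem)
      (by rw [inv_mul_cancel]; exact L.one_mem)
  obtain ⟨K, hK⟩ := lines_match A hR hR' hC hP hw hC' hP' hn1 hn2
  refine ⟨K, fun i hi => ?_⟩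
  obtain ⟨l1, hl1, hl1s, hl1r⟩ := hK (3 * i + 1) (by omega)
  obtain ⟨l2, hl2, hl2s, hl2r⟩ := hK (3 * i + nb (w i).1) (by omega)
  rw [show (3 * i + 1) / 3 = i by omega] at hl1s
  rw [show (3 * i + 1) % 3 = 1 by omega] at hl1r
  have hnb : nb (w i).1 < 3 ∧ nb (w i).1 ≠ 1 := by
    unfold nb; split_ifs <;> omega
  rw [show (3 * i + nb (w i).1) / 3 = i by omega] at hl2s
  rw [show (3 * i + nb (w i).1) % 3 = nb (w i).1 by omega] at hl2r
  obtain ⟨i', hi'⟩ : ∃ i', l1 = 3 * i' + 1 := ⟨l1 / 3, by omega⟩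
  subst hi'
  rw [show (3 * i' + 1) / 3 = i' by omega] at hl1s
  obtain ⟨j1, hj1⟩ := base_nb x c a b n P w i
  obtain ⟨j2, hj2⟩ := base_mid x c a b n P w i
  obtain ⟨j3, hj3⟩ := base_nb x c a b n P' w' i'
  obtain ⟨j4, hj4⟩ := base_mid x c a b n P' w' i'
  obtain ⟨t1, ht1⟩ := hl1
  obtain ⟨t2, ht2⟩ := hl2
  have ht1' : x ^ t1 = (we x c n a b P' w' (3 * i' + 1))⁻¹ * we x c n a b P w (3 * i + 1) := ht1
  have ht2' : x ^ t2 = (we x c n a b P' w' l2)⁻¹ * we x c n a b P w (3 * i + nb (w i).1) := ht2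
  have g1 : we x c n a b P w (3 * i + 1) = we x c n a b P' w' (3 * i' + 1) * x ^ t1 := by
    rw [ht1']; group
  have g2 : we x c n a b P w (3 * i + nb (w i).1) = we x c n a b P' w' l2 * x ^ t2 := by
    rw [ht2']; group
  obtain ⟨v, hv⟩ : ∃ v, v = bs x c n a b (P i) (w i) := ⟨_, rfl⟩
  obtain ⟨v', hv'⟩ : ∃ v', v' = bs x c n a b (P' i') (w' i') := ⟨_, rfl⟩
  rw [← hv] at hj1 hj2
  rw [← hv'] at hj3 hj4
  -- two points of the two lines
  have p1 : v * x ^ n = we x c n a b P' w' l2 * x ^ (t2 - j1 + n) := by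
    have h1 : v = we x c n a b P' w' l2 * x ^ t2 * x ^ (-j1) := by
      rw [← g2, hj1]; group
    rw [h1]
    have : x ^ (t2 - j1 + n) = x ^ t2 * x ^ (-j1) * x ^ n := by
      rw [← zpow_natCast, ← zpow_add, ← zpow_add]; congr 1
    rw [this]; group
  have p2 : v * (x ^ n * c) = we x c n a b P' w' (3 * i' + 1) * x ^ (t1 - j2) := by
    have h1 : v * (x ^ n * c) = we x c n a b P' w' (3 * i' + 1) * x ^ t1 * x ^ (-j2) := by
      rw [← g1, hj2]; group
    rw [h1]
    have : x ^ (t1 - j2) = x ^ t1 * x ^ (-j2) := by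
      rw [← zpow_add]; congr 1
    rw [this]; group
  have hsmall : ∀ u, |A.s u (v * x ^ n) (v * (x ^ n * c))| ≤ Λ := by
    intro u
    have h1 := A.lip_s u (v * x ^ n) (v * (x ^ n * c))
    have h2 : H.d (v * x ^ n) (v * (x ^ n * c)) = H.len c := by
      rw [← mul_assoc]
      have := H.d_mul (v * x ^ n) 1 c
      rwa [mul_one, H.d_one] at this
    rw [h2] at h1
    rw [hΛ]
    push_cast
    exact h1
  -- the position of `l2`
  have hl2i : l2 / 3 = i' := by
    by_contra hne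
    rcases lt_or_gt_of_ne hne with h1 | h1
    · -- `l2 < 3 i'`
      have h2 := (hC' (i' + 1) (by omega)).btw hn1 l2 (3 * i') (3 * i' + 1) (by omega) (by omega)
        (by omega) (t2 - j1 + n) (t1 - j2)
      rw [← p1, ← p2] at h2
      have h3 := hsmall (we x c n a b P' w' (3 * i'))
      omega
    · have h2 := (hC' (l2 + 1) (by omega)).btw hn1 (3 * i' + 1) (3 * i' + 2) l2 (by omega)
        (by omega) (by omega) (t1 - j2) (t2 - j1 + n)
      rw [← p1, ← p2, abs_s_symm] at h2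
      have h3 := hsmall (we x c n a b P' w' (3 * i' + 2))
      omega
  have hl2e : l2 = 3 * i' + nb (w' i').1 := by
    rw [← hl1s]
    omega
  rw [hl2e, hj3] at g2
  rw [hj1] at g2
  rw [hj4, hj2] at g1
  refine ⟨i', ?_⟩
  rw [← hv, ← hv']
  -- now algebra
  have q1 : v = v' * x ^ (j3 + t2 - j1) := by
    have h1 : v = (v' * x ^ j3 * x ^ t2) * x ^ (-j1) := by rw [← g2]; group
    rw [h1]
    have : x ^ (j3 + t2 - j1) = x ^ j3 * x ^ t2 * x ^ (-j1) := by
      rw [← zpow_add, ← zpow_add]; congr 1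
    rw [this]; group
  have q2 : v * (x ^ n * c) = v' * (x ^ n * c) * x ^ (j4 + t1 - j2) := by
    have h1 : v * (x ^ n * c) = (v' * (x ^ n * c) * x ^ j4 * x ^ t1) * x ^ (-j2) := by
      rw [← g1]; group
    rw [h1]
    have : x ^ (j4 + t1 - j2) = x ^ j4 * x ^ t1 * x ^ (-j2) := by
      rw [← zpow_add, ← zpow_add]; congr 1
    rw [this]; group
  generalize j3 + t2 - j1 = S1 at q1
  generalize j4 + t1 - j2 = S2 at q2
  have q3 : x ^ S1 * c = c * x ^ S2 := by
    rw [q1] at q2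
    have h1 : x ^ S1 * (x ^ n * c) = x ^ n * c * x ^ S2 := by
      have := congrArg (fun g => v'⁻¹ * g) q2
      simpa [mul_assoc] using this
    have h2 : x ^ S1 * x ^ n = x ^ n * x ^ S1 := by
      rw [← zpow_natCast, ← zpow_add, ← zpow_add, add_comm]
    rw [← mul_assoc, h2, mul_assoc, mul_assoc] at h1
    exact mul_left_cancel h1
  have hS2 : S2 = 0 := by
    by_contra hne
    apply hc
    refine A.elem (t := S2) (s := S1) hne ?_
    rw [← q3]; group
  rw [hS2, zpow_zero, mul_one] at q3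
  have hS1 : S1 = 0 := by
    apply A.toPAx.zpow_inj
    rw [zpow_zero]
    exact mul_eq_right.1 q3
  rw [q1, hS1, zpow_zero, mul_one]

end Pool.Agent.TH993.J2324
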