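import Pool.Agent.TH722.FI.Defs

/-! Integrability of the integrand of the restricted mutual information. -/

namespace Pool.Agent.TH993.FI

open MeasureTheory Set Filter Pool.Agent.TH722.FI
open scoped Topology ENNReal

variable {X : Type*} [MeasurableSpace X] {μ : Measure X} {α β γ : Type*}

/-- functions of a label are measurable -/
theorem measurable_of_lab {δ : Type*} [MeasurableSpace δ] {m : X → γ} (hm : ∀ c, MeasurableSet {x | m x = c})
    (hc : (range m).Countable) (f : γ → δ) : Measurable fun x => f (m x) := by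
  intro s _
  have h : (fun x => f (m x)) ⁻¹' s = ⋃ c ∈ (range m ∩ {c | f c ∈ s}), {x | m x = c} := by
    ext x
    simp only [mem_preimage, mem_iUnion, exists_prop]
    constructor
    · intro h
      exact ⟨m x, ⟨⟨x, rfl⟩, h⟩, rfl⟩
    · rintro ⟨c, ⟨_, hc⟩, hx⟩
      have hx' : m x = c := hx
      rw [hx']
      exact hc
  rw [h]
  exact MeasurableSet.biUnion (hc.mono inter_subset_left) fun c _ => hm c

/-- the integral of a function of a label -/
theorem lint_cells (D : Set X) (hD : MeasurableSet D) {m : X → γ} (hm : ∀ c, MeasurableSet {x | m x = c})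
    (hc : (range m).Countable) (f : γ → ℝ≥0∞) :
    ∫⁻ x in D, f (m x) ∂μ = ∑' c : range m, f c * μ (D ∩ {x | m x = c}) := by
  haveI : Countable (range m) := hc.to_subtype
  have h1 : D = ⋃ c : range m, D ∩ {x | m x = c} := by
    ext x
    simp only [mem_iUnion]
    constructor
    · intro h
      exact ⟨⟨m x, x, rfl⟩, h, rfl⟩
    · rintro ⟨c, h, _⟩; exact h
  conv_lhs => rw [h1]
  rw [lintegral_iUnion (s := fun c : range m => D ∩ {x | m x = c}) (fun c => hD.inter (hm c))]
  · refine tsum_congr fun c => ?_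
    rw [setLIntegral_congr_fun (g := fun _ => f c) (hD.inter (hm c)) (fun x hx => by
      have : m x = c := hx.2
      simp only [this]), setLIntegral_const]
  · intro c c' hne
    rw [Function.onFun, Set.disjoint_left]
    rintro x ⟨_, h⟩ ⟨_, h'⟩
    exact hne (Subtype.ext ((show m x = c from h).symm.trans h'))

theorem tsum_cells {m : X → γ} (hm : ∀ c, MeasurableSet {x | m x = c})
    (hc : (range m).Countable) : ∑' c : range m, μ {x | m x = c} = μ univ := by
  have := lint_cells (μ := μ) univ MeasurableSet.univ hm hc (fun _ => 1)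
  simpa using this.symm

theorem jfun_integrable' [IsProbabilityMeasure μ] (D : Set X) (hD : MeasurableSet D) {a : X → α} {b : X → β}
    (ha : IsLab μ a) (hb : IsLab μ b) : IntegrableOn (jfun μ D a b) D μ := by
  set m : X → α × β := fun x => (a x, b x) with hmdef
  have hm : ∀ c, MeasurableSet {x | m x = c} := by
    rintro ⟨c, d⟩
    have : {x | m x = (c, d)} = {x | a x = c} ∩ {x | b x = d} := by
      ext x; simp [hmdef]
    rw [this]
    exact (ha.meas c).inter (hb.meas d)
  have hc : (range m).Countable := (ha.cnt.prod hb.cnt).mono (by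
    rintro _ ⟨x, rfl⟩; exact ⟨⟨x, rfl⟩, ⟨x, rfl⟩⟩)
  -- masses as functions of the label
  set Pa : α → ℝ := fun c => μ.real {y | a y = c} with hPa
  set Pb : β → ℝ := fun d => μ.real {y | b y = d} with hPb
  set PD : α × β → ℝ := fun p => μ.real {y | y ∈ D ∧ a y = p.1 ∧ b y = p.2} with hPD
  have hset : ∀ p : α × β, {y | y ∈ D ∧ a y = p.1 ∧ b y = p.2} = D ∩ {x | m x = p} := by
    rintro ⟨c, d⟩
    ext x
    constructor
    · rintro ⟨h, h1, h2⟩; exact ⟨h, Prod.ext h1 h2⟩
    · rintro ⟨h, h1⟩; exact ⟨h, congrArg Prod.fst h1, congrArg Prod.snd h1⟩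
  have hPb_ge : ∀ p : α × β, PD p ≤ Pb p.2 := fun p => measureReal_mono fun y hy => hy.2.2
  have hj : jfun μ D a b = fun x => Real.log (PD (m x) / (Pa (m x).1 * Pb (m x).2)) := rfl
  set t : X → ℝ := fun x => Pa (m x).1 * Pb (m x).2 / PD (m x) with ht
  have htm : Measurable t := measurable_of_lab hm hc (fun p => Pa p.1 * Pb p.2 / PD p)
  have ht0 : ∀ x, 0 ≤ t x := fun x => by
    have h1 : 0 ≤ Pa (m x).1 := measureReal_nonneg
    have h2 : 0 ≤ Pb (m x).2 := measureReal_nonneg
    have h3 : 0 ≤ PD (m x) := measureReal_nonneg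
    positivity
  have hti : IntegrableOn t D μ := by
    refine ⟨htm.aestronglyMeasurable, ?_⟩
    rw [hasFiniteIntegral_iff_ofReal (Filter.Eventually.of_forall ht0)]
    have h1 : ∫⁻ x in D, ENNReal.ofReal (t x) ∂μ ≤ 1 := by
      have h0 := lint_cells (μ := μ) D hD hm hc (fun p : α × β => ENNReal.ofReal (Pa p.1 * Pb p.2 / PD p))
      refine h0.le.trans ?_
      have h2 : ∀ p : range m, ENNReal.ofReal (Pa p.1.1 * Pb p.1.2 / PD p.1) * μ (D ∩ {x | m x = p.1}) ≤
          μ {x | a x = p.1.1} * μ {x | b x = p.1.2} := by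
        intro p
        have h3 : μ (D ∩ {x | m x = p.1}) = ENNReal.ofReal (PD p.1) := by
          rw [hPD]
          show _ = ENNReal.ofReal (μ.real {y | y ∈ D ∧ a y = p.1.1 ∧ b y = p.1.2})
          rw [hset, ofReal_measureReal]
        rw [h3, ← ENNReal.ofReal_mul (by
          have h1 : 0 ≤ Pa p.1.1 := measureReal_nonneg
          have h2 : 0 ≤ Pb p.1.2 := measureReal_nonneg
          have h3 : 0 ≤ PD p.1 := measureReal_nonneg
          positivity)]
        have h4 : Pa p.1.1 * Pb p.1.2 / PD p.1 * PD p.1 ≤ Pa p.1.1 * Pb p.1.2 := by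
          rcases eq_or_ne (PD p.1) 0 with h | h
          · rw [h, mul_zero]
            exact mul_nonneg measureReal_nonneg measureReal_nonneg
          · rw [div_mul_cancel₀ _ h]
        refine (ENNReal.ofReal_le_ofReal h4).trans ?_
        rw [ENNReal.ofReal_mul measureReal_nonneg]
        show ENNReal.ofReal (μ.real {y | a y = p.1.1}) * ENNReal.ofReal (μ.real {y | b y = p.1.2}) ≤ _
        rw [ofReal_measureReal, ofReal_measureReal]
      refine (ENNReal.tsum_le_tsum h2).trans ?_
      let ι : range m → range a × range b := fun p => (⟨p.1.1, by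
        obtain ⟨x, hx⟩ := p.2
        exact ⟨x, by rw [← hx]⟩⟩, ⟨p.1.2, by
        obtain ⟨x, hx⟩ := p.2
        exact ⟨x, by rw [← hx]⟩⟩)
      have hι : Function.Injective ι := by
        intro p q h
        apply Subtype.ext
        have h1 := congrArg (fun z => z.1.1) h
        have h2 := congrArg (fun z => z.2.1) h
        exact Prod.ext h1 h2
      calc ∑' p : range m, μ {x | a x = p.1.1} * μ {x | b x = p.1.2}
          = ∑' p : range m, (fun q : range a × range b => μ {x | a x = q.1.1} * μ {x | b x = q.2.1}) (ι p) := rfl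
        _ ≤ ∑' q : range a × range b, μ {x | a x = q.1.1} * μ {x | b x = q.2.1} :=
            ENNReal.tsum_comp_le_tsum_of_injective hι _
        _ = ∑' c : range a, ∑' d : range b, μ {x | a x = c.1} * μ {x | b x = d.1} :=
            ENNReal.tsum_prod' (f := fun q : range a × range b => μ {x | a x = q.1.1} * μ {x | b x = q.2.1})
        _ = 1 := by
            simp_rw [ENNReal.tsum_mul_left, tsum_cells hb.meas hb.cnt, ENNReal.tsum_mul_right,
              tsum_cells ha.meas ha.cnt]
            simp
    exact h1.trans_lt (by simp)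
  have hdom : IntegrableOn (fun x => info μ a x + t x) D μ := ha.int.integrableOn.add hti
  refine hdom.mono' (measurable_of_lab hm hc
    (fun p => Real.log (PD p / (Pa p.1 * Pb p.2)))).aestronglyMeasurable ?_
  rw [hj]
  refine Filter.Eventually.of_forall fun x => ?_
  show ‖Real.log (PD (m x) / (Pa (m x).1 * Pb (m x).2))‖ ≤ info μ a x + Pa (m x).1 * Pb (m x).2 / PD (m x)
  have hA : 0 ≤ Pa (m x).1 := measureReal_nonneg
  have hB : 0 ≤ Pb (m x).2 := measureReal_nonneg
  have hP : 0 ≤ PD (m x) := measureReal_nonneg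
  have hA1 : Pa (m x).1 ≤ 1 := measureReal_le_one
  have hinfo : info μ a x = - Real.log (Pa (m x).1) := rfl
  have hinfo0 : 0 ≤ info μ a x := by
    rw [hinfo]
    have := Real.log_nonpos hA hA1
    linarith
  rcases hP.eq_or_lt with h0 | h0
  · rw [← h0, zero_div, Real.log_zero, norm_zero, div_zero, add_zero]
    exact hinfo0
  have hPA : PD (m x) ≤ Pa (m x).1 := measureReal_mono fun y hy => hy.2.1
  have hA' : 0 < Pa (m x).1 := h0.trans_le hPA
  have hB' : 0 < Pb (m x).2 := h0.trans_le (hPb_ge _)
  have hr : 0 < Pa (m x).1 * Pb (m x).2 / PD (m x) := by positivity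
  have hinv : PD (m x) / (Pa (m x).1 * Pb (m x).2) = (Pa (m x).1 * Pb (m x).2 / PD (m x))⁻¹ := by
    rw [inv_div]
  rw [Real.norm_eq_abs, abs_le]
  constructor
  · rw [hinv, Real.log_inv]
    have := Real.log_le_sub_one_of_pos hr
    linarith
  · have h1 : PD (m x) / (Pa (m x).1 * Pb (m x).2) ≤ (Pa (m x).1)⁻¹ := by
      rw [div_le_iff₀ (by positivity), ← mul_assoc, inv_mul_cancel₀ hA'.ne', one_mul]
      exact hPb_ge _
    have h2 := Real.log_le_log (by positivity) h1
    rw [Real.log_inv] at h2
    rw [hinfo]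
    linarith

end Pool.Agent.TH993.FI
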