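import Pool.Agent.TH722.FI.Defs
import Pool.Agent.TH993.FI_JINT

/-! FI-FEXCH: exchange of graph families inside clusters leaves `F` unchanged. -/

namespace Pool.Agent.TH993.FI

open MeasureTheory Set Filter Pool.Agent.TH722.FI
open scoped Topology ENNReal



variable {G X : Type*} [Group G] [MulAction G X] [MeasurableSpace X] {μ : Measure X}
  [IsProbabilityMeasure μ] {α β γ : Type*}

omit [IsProbabilityMeasure μ] in
theorem mass_act (hact : ∀ g : G, MeasurePreserving (fun x : X => g • x) μ μ) {l : X → α}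
    (hl : ∀ c, MeasurableSet {x | l x = c}) (g : G) (x : X) :
    mass μ (fun x => l (g • x)) x = mass μ l (g • x) :=
  (hact g).measureReal_preimage (s := {z | l z = l (g • x)}) (hl _).nullMeasurableSet

omit [IsProbabilityMeasure μ] in
theorem lab_act (hact : ∀ g : G, MeasurePreserving (fun x : X => g • x) μ μ) {l : X → α}
    (hl : IsLab μ l) (g : G) : IsLab μ (fun x => l (g • x)) where
  meas := fun c => (hact g).measurable (hl.meas c)
  cnt := hl.cnt.mono (by rintro _ ⟨x, rfl⟩; exact ⟨g • x, rfl⟩)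
  int := by
    have h : info μ (fun x => l (g • x)) = info μ l ∘ fun x => g • x := by
      funext x
      show - Real.log (mass μ (fun x => l (g • x)) x) = - Real.log (mass μ l (g • x))
      rw [mass_act hact hl.meas]
    rw [h]
    exact (hact g).integrable_comp_of_integrable hl.int

/-- the action map as a measurable equivalence -/
def actE (hact : ∀ g : G, MeasurePreserving (fun x : X => g • x) μ μ) (g : G) : X ≃ᵐ X where
  toFun := fun x => g • x
  invFun := fun x => g⁻¹ • x
  left_inv := fun x => inv_smul_smul g x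
  right_inv := fun x => smul_inv_smul g x
  measurable_toFun := (hact g).measurable
  measurable_invFun := (hact g⁻¹).measurable

omit [IsProbabilityMeasure μ] in
theorem integral_act (hact : ∀ g : G, MeasurePreserving (fun x : X => g • x) μ μ) (g : G) (v : X → ℝ) :
    ∫ x, v (g • x) ∂μ = ∫ x, v x ∂μ :=
  MeasurePreserving.integral_comp' (f := actE hact g) (hact g) v

/-- the cluster conditions that only concern `K` -/
structure KK (K : X → Finset G) (S : Finset G) : Prop where
  one_mem : ∀ x, (1 : G) ∈ K x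
  inv : ∀ x, ∀ g ∈ K x, ∀ k, k ∈ K (g • x) ↔ k * g ∈ K x
  meas : ∀ P : Finset G, MeasurableSet {x | K x = P}
  bdd : ∀ x, K x ⊆ S

variable {K : X → Finset G} {S : Finset G}

theorem KK.inv_mem (hK : KK K S) {x : X} {g : G} (hg : g ∈ K x) : g⁻¹ ∈ K (g • x) :=
  (hK.inv x g hg g⁻¹).2 (by rw [inv_mul_cancel]; exact hK.one_mem x)

theorem KK.inv_mem_iff (hK : KK K S) {x : X} {g : G} : g⁻¹ ∈ K (g • x) ↔ g ∈ K x := by
  refine ⟨fun h => ?_, hK.inv_mem⟩
  have := hK.inv_mem h
  rwa [inv_inv, inv_smul_smul] at this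

theorem KK.measK (hK : KK K S) (g : G) : MeasurableSet {x | g ∈ K x} := by
  classical
  have h : {x | g ∈ K x} = ⋃ P ∈ S.powerset.filter (fun P => g ∈ P), {x | K x = P} := by
    ext x
    simp only [mem_iUnion, Finset.mem_filter, Finset.mem_powerset, exists_prop]
    constructor
    · intro hx
      exact ⟨K x, ⟨hK.bdd x, hx⟩, rfl⟩
    · rintro ⟨P, ⟨_, hP⟩, hx⟩
      have hx' : K x = P := hx
      show g ∈ K x
      rw [hx']
      exact hP
  rw [h]
  exact Finset.measurableSet_biUnion _ fun P _ => hK.meas P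

theorem KK.card_eq (hK : KK K S) {x : X} {k : G} (hk : k ∈ K x) : (K (k • x)).card = (K x).card := by
  refine Finset.card_bij (fun h _ => h * k) (fun h hh => (hK.inv x k hk h).1 hh)
    (fun a _ b _ h => mul_right_cancel h) (fun b hb => ⟨b * k⁻¹, ?_, by simp⟩)
  rw [hK.inv x k hk]
  simpa using hb

theorem KK.card_inv (hK : KK K S) [DecidableEq G] (y : X) :
    (S.filter (fun k => k⁻¹ ∈ K y)).card = (K y).card := by
  refine Finset.card_bij (fun h _ => h⁻¹) (fun h hh => (Finset.mem_filter.1 hh).2)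
    (fun a _ b _ h => inv_injective h) (fun b hb => ⟨b⁻¹, ?_, inv_inv b⟩)
  rw [Finset.mem_filter, inv_inv]
  exact ⟨hK.bdd _ (hK.inv_mem hb), hb⟩

theorem sum_ind (hK : KK K S) (f : G → X → ℝ) (x : X) :
    ∑ k ∈ K x, f k x = ∑ k ∈ S, ({x | k ∈ K x} : Set X).indicator (f k) x := by
  classical
  rw [← Finset.sum_subset (hK.bdd x) (f := fun k => ({x | k ∈ K x} : Set X).indicator (f k) x)]
  · refine Finset.sum_congr rfl fun k hk => ?_
    rw [indicator_of_mem (by exact hk)]
  · intro k _ hk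
    exact indicator_of_notMem (by exact hk) _

omit [IsProbabilityMeasure μ] in
/-- mass transport inside the clusters -/
theorem transport (hact : ∀ g : G, MeasurePreserving (fun x : X => g • x) μ μ) (hK : KK K S)
    {v : X → ℝ} (hv : Integrable v μ) :
    ∫ x, ((K x).card : ℝ) * v x ∂μ = ∫ x, ∑ k ∈ K x, v (k • x) ∂μ := by
  classical
  have h1 : ∀ x, ∑ k ∈ K x, v (k • x) = ∑ k ∈ S, ({y | k⁻¹ ∈ K y} : Set X).indicator v (k • x) := by
    intro x
    rw [sum_ind hK (fun k x => v (k • x)) x]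
    refine Finset.sum_congr rfl fun k _ => ?_
    by_cases h : k ∈ K x
    · rw [indicator_of_mem (by exact h), indicator_of_mem (by exact hK.inv_mem h)]
    · rw [indicator_of_notMem (by exact h), indicator_of_notMem (by
        show ¬ (k⁻¹ ∈ K (k • x))
        rw [hK.inv_mem_iff]
        exact h)]
  have hi : ∀ k, Integrable (({y | k⁻¹ ∈ K y} : Set X).indicator v) μ := fun k =>
    hv.indicator (hK.measK k⁻¹)
  simp_rw [h1]
  have hi' : ∀ k, Integrable (fun x => ({y | k⁻¹ ∈ K y} : Set X).indicator v (k • x)) μ := fun k =>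
    (hact k).integrable_comp_of_integrable (hi k)
  rw [integral_finsetSum _ fun k _ => hi' k]
  simp_rw [integral_act hact _ _]
  rw [← integral_finsetSum _ fun k _ => hi k]
  congr 1
  funext x
  rw [← hK.card_inv x, Finset.card_filter, Nat.cast_sum, Finset.sum_mul]
  refine Finset.sum_congr rfl fun k _ => ?_
  by_cases h : k⁻¹ ∈ K x
  · rw [indicator_of_mem (by exact h), if_pos h, Nat.cast_one, one_mul]
  · rw [indicator_of_notMem (by exact h), if_neg h, Nat.cast_zero, zero_mul]

open Classical in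
/-- the internal degree -/
noncomputable def deg (D : G → Set X) (K : X → Finset G) (x : X) : ℝ :=
  (((K x).filter (fun g => x ∈ D g)).card : ℝ)

theorem deg_eq (hK : KK K S) (D : G → Set X) (x : X) :
    deg D K x = ∑ g ∈ S, (D g ∩ {x | g ∈ K x}).indicator (fun _ => (1 : ℝ)) x := by
  classical
  unfold deg
  rw [Finset.card_filter, Nat.cast_sum, ← Finset.sum_subset (hK.bdd x)
    (f := fun g => (D g ∩ {x | g ∈ K x}).indicator (fun _ => (1 : ℝ)) x)]
  · refine Finset.sum_congr rfl fun g hg => ?_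
    by_cases h : x ∈ D g
    · rw [if_pos h, indicator_of_mem (by exact ⟨h, hg⟩), Nat.cast_one]
    · rw [if_neg h, indicator_of_notMem (fun h' => h h'.1), Nat.cast_zero]
  · intro g _ hg
    exact indicator_of_notMem (fun h' => hg h'.2) _

omit [Group G] [MulAction G X] [MeasurableSpace X] in
theorem deg_nonneg (D : G → Set X) (x : X) : 0 ≤ deg D K x := Nat.cast_nonneg _

omit [Group G] [MulAction G X] [MeasurableSpace X] in
theorem deg_le_card (D : G → Set X) (x : X) : deg D K x ≤ ((K x).card : ℝ) := by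
  classical
  unfold deg
  exact_mod_cast Finset.card_filter_le _ _

theorem measurable_deg (hK : KK K S) {D : G → Set X} (hD : ∀ g, MeasurableSet (D g)) :
    Measurable (deg D K) := by
  have : deg D K = fun x => ∑ g ∈ S, (D g ∩ {x | g ∈ K x}).indicator (fun _ => (1 : ℝ)) x :=
    funext (deg_eq hK D)
  rw [this]
  exact Finset.measurable_fun_sum _ fun g _ => measurable_const.indicator ((hD g).inter (hK.measK g))

theorem measurable_card (hK : KK K S) : Measurable fun x => ((K x).card : ℝ) := by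
  have : (fun x => ((K x).card : ℝ)) = fun x => ∑ g ∈ S, ({x | g ∈ K x} : Set X).indicator (fun _ => (1 : ℝ)) x := by
    funext x
    rw [← sum_ind hK (fun _ _ => 1) x]
    simp
  rw [this]
  exact Finset.measurable_fun_sum _ fun g _ => measurable_const.indicator (hK.measK g)

/-- counting the internal edges of a cluster -/
theorem sum_deg (hK : KK K S) (D : G → Set X) (x : X) :
    ∑ k ∈ K x, deg D K (k • x) =
      (Set.ncard {p : G × G | p.1 ∈ K x ∧ p.2 ∈ K x ∧ p.1 • x ∈ D (p.2 * p.1⁻¹)} : ℝ) := by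
  classical
  have h1 : ∀ k ∈ K x, deg D K (k • x) = (((K x).filter (fun h => k • x ∈ D (h * k⁻¹))).card : ℝ) := by
    intro k hk
    unfold deg
    norm_cast
    refine Finset.card_bij (fun h _ => h * k) (fun h hh => ?_) (fun a _ b _ h => mul_right_cancel h)
      (fun b hb => ⟨b * k⁻¹, ?_, by simp⟩)
    · rw [Finset.mem_filter] at hh ⊢
      refine ⟨(hK.inv x k hk h).1 hh.1, ?_⟩
      simpa using hh.2
    · rw [Finset.mem_filter] at hb ⊢
      refine ⟨(hK.inv x k hk _).2 (by simpa using hb.1), hb.2⟩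
  rw [Finset.sum_congr rfl h1]
  have h2 : {p : G × G | p.1 ∈ K x ∧ p.2 ∈ K x ∧ p.1 • x ∈ D (p.2 * p.1⁻¹)} =
      (((K x ×ˢ K x).filter (fun p => p.1 • x ∈ D (p.2 * p.1⁻¹)) : Finset (G × G)) : Set (G × G)) := by
    ext p
    simp only [Finset.coe_filter, Finset.mem_product]
    constructor
    · rintro ⟨a, b, c⟩; exact ⟨⟨a, b⟩, c⟩
    · rintro ⟨⟨a, b⟩, c⟩; exact ⟨a, b, c⟩
  rw [h2, Set.ncard_coe_finset, Finset.card_filter, Finset.sum_product]
  push_cast
  refine Finset.sum_congr rfl fun k _ => ?_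
  rw [Finset.card_filter]
  push_cast
  rfl

omit [IsProbabilityMeasure μ] in
theorem int_deg (hact : ∀ g : G, MeasurePreserving (fun x : X => g • x) μ μ) (hK : KK K S)
    {D : G → Set X} (hD : ∀ g, MeasurableSet (D g)) {i : X → ℝ} (hi : Integrable i μ)
    (hic : ∀ x, ∀ g ∈ K x, i (g • x) = i x) :
    ∫ x, i x * deg D K x ∂μ = ∫ x, i x / ((K x).card : ℝ) *
      (Set.ncard {p : G × G | p.1 ∈ K x ∧ p.2 ∈ K x ∧ p.1 • x ∈ D (p.2 * p.1⁻¹)} : ℝ) ∂μ := by
  have hpos : ∀ x, (0 : ℝ) < ((K x).card : ℝ) := fun x => by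
    exact_mod_cast Finset.card_pos.2 ⟨1, hK.one_mem x⟩
  have hv : Integrable (fun x => deg D K x / ((K x).card : ℝ) * i x) μ := by
    refine hi.bdd_mul (c := 1) ((measurable_deg hK hD).div (measurable_card hK)).aestronglyMeasurable
      (Filter.Eventually.of_forall fun x => ?_)
    rw [Real.norm_eq_abs, abs_of_nonneg (div_nonneg (deg_nonneg D x) (hpos x).le)]
    exact div_le_one_of_le₀ (deg_le_card D x) (hpos x).le
  have h1 := transport hact hK hv
  have h2 : ∀ x, ((K x).card : ℝ) * (deg D K x / ((K x).card : ℝ) * i x) = i x * deg D K x := fun x => by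
    have := (hpos x).ne'
    field_simp
  simp_rw [h2] at h1
  rw [h1]
  congr 1
  funext x
  rw [← sum_deg hK D x, Finset.mul_sum]
  refine Finset.sum_congr rfl fun k hk => ?_
  rw [hic x k hk, hK.card_eq hk]
  ring

section main

variable {l : X → α}

omit [IsProbabilityMeasure μ] in
theorem mass_cluster (hact : ∀ g : G, MeasurePreserving (fun x : X => g • x) μ μ) (hK : KK K S)
    (hl : ∀ c, MeasurableSet {x | l x = c})
    (hconst : ∀ x y, l x = l y → ∀ g ∈ K x, l (g • x) = l (g • y)) (x : X) (g : G) (hg : g ∈ K x) :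
    mass μ l (g • x) = mass μ l x := by
  have h1 : {z | l z = l (g • x)} = (fun z : X => g⁻¹ • z) ⁻¹' {y | l y = l x} := by
    ext z
    constructor
    · intro hz
      have hz' : l (g • x) = l z := Eq.symm hz
      have h3 := hconst (g • x) z hz' g⁻¹ (hK.inv_mem hg)
      rw [inv_smul_smul] at h3
      exact h3.symm
    · intro hz
      have hz' : l x = l (g⁻¹ • z) := Eq.symm hz
      have h3 := hconst x (g⁻¹ • z) hz' g hg
      rw [smul_inv_smul] at h3
      exact h3.symm
  unfold mass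
  rw [h1]
  exact (hact g⁻¹).measureReal_preimage (hl _).nullMeasurableSet

theorem jfun_internal (hact : ∀ g : G, MeasurePreserving (fun x : X => g • x) μ μ) (hK : KK K S)
    (hl : ∀ c, MeasurableSet {x | l x = c}) {D : G → Set X} (hDl : Adapted D l)
    (hconst : ∀ x y, l x = l y → ∀ g ∈ K x, l (g • x) = l (g • y)) (x : X) (g : G) (hg : g ∈ K x)
    (hx : x ∈ D g) : jfun μ (D g) l (fun x => l (g • x)) x = info μ l x := by
  have h1 : {y | y ∈ D g ∧ l y = l x ∧ l (g • y) = l (g • x)} = {y | l y = l x} := by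
    ext y
    constructor
    · rintro ⟨_, h, _⟩; exact h
    · intro h
      have h' : l x = l y := Eq.symm h
      exact ⟨(hDl g x y h').1 hx, h, (hconst x y h' g hg).symm⟩
  have h2 : mass μ (fun x => l (g • x)) x = mass μ l x :=
    (mass_act hact hl g x).trans (mass_cluster hact hK hl hconst x g hg)
  unfold jfun jmass
  rw [h1, h2]
  show Real.log (mass μ l x / (mass μ l x * mass μ l x)) = - Real.log (mass μ l x)
  rcases eq_or_ne (mass μ l x) 0 with h | h
  · simp [h]
  · rw [div_mul_cancel_left₀ h, Real.log_inv]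

theorem J_val (hact : ∀ g : G, MeasurePreserving (fun x : X => g • x) μ μ) (hK : KK K S)
    (hl : IsLab μ l) {D : G → Set X} (hD : ∀ g, MeasurableSet (D g)) (hDl : Adapted D l)
    (hconst : ∀ x y, l x = l y → ∀ g ∈ K x, l (g • x) = l (g • y)) (g : G) :
    J μ (D g) l (fun x => l (g • x)) = ∫ x, info μ l x * (D g ∩ {x | g ∈ K x}).indicator (fun _ => (1 : ℝ)) x ∂μ +
      ∫ x in D g ∩ {x | g ∉ K x}, jfun μ (D g) l (fun x => l (g • x)) x ∂μ := by
  unfold J
  have hint := jfun_integrable' (D g) (hD g) hl (lab_act hact hl g)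
  have hm1 : MeasurableSet (D g ∩ {x | g ∈ K x}) := (hD g).inter (hK.measK g)
  have hm2 : MeasurableSet (D g ∩ {x | g ∉ K x}) := (hD g).inter (hK.measK g).compl
  have hu : D g = (D g ∩ {x | g ∈ K x}) ∪ (D g ∩ {x | g ∉ K x}) := by
    ext x
    constructor
    · intro hx
      by_cases h : g ∈ K x
      · exact Or.inl ⟨hx, h⟩
      · exact Or.inr ⟨hx, h⟩
    · rintro (h | h) <;> exact h.1
  have hd : Disjoint (D g ∩ {x | g ∈ K x}) (D g ∩ {x | g ∉ K x}) := by
    rw [Set.disjoint_left]
    rintro x ⟨_, h⟩ ⟨_, h'⟩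
    exact h' h
  have h1 : ∫ x in D g, jfun μ (D g) l (fun x => l (g • x)) x ∂μ =
      ∫ x in D g ∩ {x | g ∈ K x}, jfun μ (D g) l (fun x => l (g • x)) x ∂μ +
      ∫ x in D g ∩ {x | g ∉ K x}, jfun μ (D g) l (fun x => l (g • x)) x ∂μ := by
    rw [← setIntegral_union hd hm2 (hint.mono_set inter_subset_left) (hint.mono_set inter_subset_left), ← hu]
  rw [h1]
  congr 1
  rw [← integral_indicator hm1]
  congr 1
  funext x
  by_cases h : x ∈ D g ∩ {x | g ∈ K x}
  · rw [indicator_of_mem h, indicator_of_mem h, mul_one]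
    exact jfun_internal hact hK hl.meas hDl hconst x g h.2 h.1
  · rw [indicator_of_notMem h, indicator_of_notMem h, mul_zero]

theorem sum_J (hact : ∀ g : G, MeasurePreserving (fun x : X => g • x) μ μ) (hK : KK K S)
    (hl : IsLab μ l) {D : G → Set X} (hD : ∀ g, MeasurableSet (D g)) (hDl : Adapted D l)
    (hconst : ∀ x y, l x = l y → ∀ g ∈ K x, l (g • x) = l (g • y)) :
    ∑ g ∈ S, J μ (D g) l (fun x => l (g • x)) = (∫ x, info μ l x / ((K x).card : ℝ) *
      (Set.ncard {p : G × G | p.1 ∈ K x ∧ p.2 ∈ K x ∧ p.1 • x ∈ D (p.2 * p.1⁻¹)} : ℝ) ∂μ) +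
      ∑ g ∈ S, ∫ x in D g ∩ {x | g ∉ K x}, jfun μ (D g) l (fun x => l (g • x)) x ∂μ := by
  rw [Finset.sum_congr rfl fun g _ => J_val hact hK hl hD hDl hconst g, Finset.sum_add_distrib]
  congr 1
  rw [← int_deg hact hK hD hl.int fun x g hg => by
    show - Real.log (mass μ l (g • x)) = - Real.log (mass μ l x)
    rw [mass_cluster hact hK hl.meas hconst x g hg]]
  rw [← integral_finsetSum _ fun g _ => ?_]
  · congr 1
    funext x
    rw [deg_eq hK D x, Finset.mul_sum]
  · have h1 : (fun x => info μ l x * (D g ∩ {x | g ∈ K x}).indicator (fun _ => (1 : ℝ)) x) =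
        (D g ∩ {x | g ∈ K x}).indicator (info μ l) := by
      funext x
      by_cases h : x ∈ D g ∩ {x | g ∈ K x}
      · rw [indicator_of_mem h, indicator_of_mem h, mul_one]
      · rw [indicator_of_notMem h, indicator_of_notMem h, mul_zero]
    rw [h1]
    exact hl.int.indicator ((hD g).inter (hK.measK g))

end main

theorem F_exchange (hact : ∀ g : G, MeasurePreserving (fun x : X => g • x) μ μ)
    (hfree : ∀ (g : G) (x : X), g • x = x → g = 1)
    (A B : G → Set X) (K : X → Finset G) (S : Finset G) (hA : GF A S) (hB : GF B S)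
    (hK : ClusterPair A B K S) {l : X → α} (hl : IsLab μ l) (hAl : Adapted A l) (hBl : Adapted B l)
    (hKl : ∀ x y, l x = l y → K x = K y)
    (hconst : ∀ x y, l x = l y → ∀ g ∈ K x, l (g • x) = l (g • y)) :
    F μ S A l = F μ S B l := by
  have hKK : KK K S := ⟨hK.one_mem, hK.inv, hK.meas, hK.bdd⟩
  unfold F
  rw [sum_J hact hKK hl hA.meas hAl hconst, sum_J hact hKK hl hB.meas hBl hconst]
  have h1 : ∀ g, ∫ x in A g ∩ {x | g ∉ K x}, jfun μ (A g) l (fun x => l (g • x)) x ∂μ =
      ∫ x in B g ∩ {x | g ∉ K x}, jfun μ (B g) l (fun x => l (g • x)) x ∂μ := by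
    intro g
    have h2 : A g ∩ {x | g ∉ K x} = B g ∩ {x | g ∉ K x} := by
      ext x
      constructor
      · rintro ⟨h, h'⟩; exact ⟨(hK.ext x g h').1 h, h'⟩
      · rintro ⟨h, h'⟩; exact ⟨(hK.ext x g h').2 h, h'⟩
    rw [h2]
    refine setIntegral_congr_fun ((hB.meas g).inter (hKK.measK g).compl) fun x hx => ?_
    have h3 : {y | y ∈ A g ∧ l y = l x ∧ l (g • y) = l (g • x)} =
        {y | y ∈ B g ∧ l y = l x ∧ l (g • y) = l (g • x)} := by
      ext y
      constructor
      · rintro ⟨h, h', h''⟩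
        refine ⟨(hK.ext y g ?_).1 h, h', h''⟩
        rw [hKl y x h']; exact hx.2
      · rintro ⟨h, h', h''⟩
        refine ⟨(hK.ext y g ?_).2 h, h', h''⟩
        rw [hKl y x h']; exact hx.2
    show Real.log (μ.real {y | y ∈ A g ∧ l y = l x ∧ l (g • y) = l (g • x)} / _) = 
      Real.log (μ.real {y | y ∈ B g ∧ l y = l x ∧ l (g • y) = l (g • x)} / _)
    rw [h3]
  simp_rw [hK.cnt, h1]

end Pool.Agent.TH993.FI
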