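import Mathlib
import Pool.Agent.TH279.UP.Defs
import Pool.Agent.TH238.QP.Generic

/-!
# Polynomials of small degree on the dual variety of a general hypersurface
-/

set_option autoImplicit false

open MvPolynomial

namespace Pool.Agent.TH993.J3368

open Pool.Agent.TH279.UP
open Pool.Agent.TH238.QP (Mon mem_Mon sum_Mon Rc dpow map_dpow form form_hom coeff_form form_coeff
  aeval_form mono_eq eval_aeval generic_inj)

noncomputable section

/-- the universal form of degree `d` -/
def univForm (n d : ℕ) : MvPolynomial (Fin (n + 1 + 1)) (Rc n) :=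
  ∑ α ∈ Mon n d, monomial α (X α)

lemma map_univForm (n d : ℕ) (F : MvPolynomial (Fin (n + 1 + 1)) ℂ) (hF : F.IsHomogeneous d) :
    map (eval (fun m => F.coeff m)) (univForm n d) = F := by
  conv_rhs => rw [sum_Mon hF]
  unfold univForm
  rw [map_sum]
  apply Finset.sum_congr rfl
  intro α _
  rw [map_monomial, eval_X]

/-- the matrix -/
def matA (n d r : ℕ) :
    Matrix (Mon n ((d - 1) * r + d)) (Mon n r ⊕ Mon n ((d - 1) * r)) (Rc n) :=
  fun γ b => match b with
    | Sum.inl β => coeff γ.1 (X 0 ^ d * dpow n (univForm n d) β.1)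
    | Sum.inr β => - coeff γ.1 (univForm n d * monomial β.1 1)

lemma matA_mulVec (n d r : ℕ) (F : MvPolynomial (Fin (n + 1 + 1)) ℂ) (hF : F.IsHomogeneous d)
    (v : Mon n r ⊕ Mon n ((d - 1) * r) → ℂ) (γ : Mon n ((d - 1) * r + d)) :
    ((matA n d r).map (eval (fun m => F.coeff m))).mulVec v γ =
      coeff γ.1 (X 0 ^ d * aeval (fun i => pderiv i F) (form n r (fun β => v (Sum.inl β))) -
        F * form n ((d - 1) * r) (fun β => v (Sum.inr β))) := by
  rw [Matrix.mulVec, dotProduct, Fintype.sum_sum_type]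
  rw [coeff_sub, sub_eq_add_neg]
  congr 1
  · rw [aeval_form, Finset.mul_sum, coeff_sum]
    apply Finset.sum_congr rfl
    intro β _
    rw [Matrix.map_apply]
    simp only [matA]
    rw [← coeff_map, map_mul, map_pow, map_X, map_dpow, map_univForm n d F hF]
    rw [mul_left_comm, coeff_C_mul, mul_comm]
  · unfold form
    rw [Finset.mul_sum, coeff_sum, ← Finset.sum_neg_distrib]
    apply Finset.sum_congr rfl
    intro β _
    rw [Matrix.map_apply]
    simp only [matA]
    rw [map_neg, ← coeff_map, map_mul, map_univForm n d F hF, map_monomial, map_one]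
    rw [mono_eq β.1 (v (Sum.inr β)), mul_left_comm, coeff_C_mul]
    ring

lemma fermat_hom (n d : ℕ) : (fermat n d).IsHomogeneous d := by
  unfold fermat
  apply IsHomogeneous.sum
  intro i _
  have := (isHomogeneous_X ℂ i).pow d
  simpa using this

lemma eval_fermat (n d : ℕ) (x : Fin (n + 1 + 1) → ℂ) :
    eval x (fermat n d) = ∑ i, x i ^ d := by
  unfold fermat
  rw [map_sum]
  apply Finset.sum_congr rfl
  intro i _
  rw [map_pow, eval_X]

lemma fermat_ne_zero (n d : ℕ) : fermat n d ≠ 0 := by
  intro h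
  have h1 := eval_fermat n d (fun _ => 1)
  rw [h, map_zero] at h1
  simp at h1
  have h2 : ((n : ℂ) + 1 + 1) ≠ 0 := by exact_mod_cast Nat.succ_ne_zero (n + 1)
  exact h2 h1.symm

lemma pderiv_fermat (n d : ℕ) (i : Fin (n + 1 + 1)) :
    pderiv i (fermat n d) = C (d : ℂ) * X i ^ (d - 1) := by
  unfold fermat
  rw [map_sum, Finset.sum_eq_single i]
  · rw [pderiv_pow, pderiv_X_self, mul_one]
    rfl
  · intro j _ hj
    rw [pderiv_pow, pderiv_X_of_ne hj, mul_zero]
  · intro h
    exact absurd (Finset.mem_univ _) h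

lemma fermat_inj (hF : S_FERMAT) (n d : ℕ) (hn : 1 ≤ n) (hd : 2 ≤ d) (r : ℕ)
    (hr : r < d * (d - 1) ^ n)
    (D E : MvPolynomial (Fin (n + 1 + 1)) ℂ) (hD : D.IsHomogeneous r)
    (h : X 0 ^ d * aeval (fun i => pderiv i (fermat n d)) D = fermat n d * E) :
    D = 0 ∧ E = 0 := by
  have hD0 : D = 0 := by
    apply hF n d r D hn hd hD.totalDegree_le hr
    intro x hx0 hx
    have h1 := congrArg (eval x) h
    rw [map_mul, map_mul, eval_fermat, hx, zero_mul, map_pow, eval_X] at h1
    have h2 : eval x (aeval (fun i => pderiv i (fermat n d)) D) =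
        eval (fun i => (d : ℂ) * x i ^ (d - 1)) D := by
      rw [eval_aeval]
      congr 1
      congr 1
      funext i
      rw [pderiv_fermat]
      simp
    rw [h2] at h1
    rcases mul_eq_zero.1 h1 with h3 | h3
    · exact absurd h3 (pow_ne_zero d hx0)
    · exact h3
  refine ⟨hD0, ?_⟩
  rw [hD0, map_zero, mul_zero] at h
  rcases mul_eq_zero.1 h.symm with h1 | h1
  · exact absurd h1 (fermat_ne_zero n d)
  · exact h1

theorem generic_r (hFer : S_FERMAT) (n d : ℕ) (hn : 1 ≤ n) (hd : 2 ≤ d) (r : ℕ)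
    (hr : r < d * (d - 1) ^ n) :
    ∃ Φ : Rc n, eval (fun m => (fermat n d).coeff m) Φ ≠ 0 ∧
      ∀ F : MvPolynomial (Fin (n + 1 + 1)) ℂ, F.IsHomogeneous d → eval (fun m => F.coeff m) Φ ≠ 0 →
        ∀ D E : MvPolynomial (Fin (n + 1 + 1)) ℂ, D.IsHomogeneous r →
          E.IsHomogeneous ((d - 1) * r) →
          X 0 ^ d * aeval (fun i => pderiv i F) D = F * E → D = 0 := by
  obtain ⟨Φ, h1, h2⟩ := generic_inj (matA n d r) (fun m => (fermat n d).coeff m) (by
    intro v hv
    have h3 : X 0 ^ d * aeval (fun i => pderiv i (fermat n d)) (form n r (fun β => v (Sum.inl β))) -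
        fermat n d * form n ((d - 1) * r) (fun β => v (Sum.inr β)) = 0 := by
      have hhom : (X 0 ^ d * aeval (fun i => pderiv i (fermat n d))
          (form n r (fun β => v (Sum.inl β))) -
        fermat n d * form n ((d - 1) * r) (fun β => v (Sum.inr β))).IsHomogeneous
          ((d - 1) * r + d) := by
        apply IsHomogeneous.sub
        · have h4 := (form_hom n r (fun β => v (Sum.inl β))).aeval
            (fun i => pderiv i (fermat n d)) (n := d - 1) (fun i => (fermat_hom n d).pderiv)
          have h5 := ((isHomogeneous_X ℂ (0 : Fin (n + 1 + 1))).pow d).mul h4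
          have h6 : 1 * d + (d - 1) * r = (d - 1) * r + d := by ring
          rw [h6] at h5
          exact h5
        · have h4 := (fermat_hom n d).mul (form_hom n ((d - 1) * r) (fun β => v (Sum.inr β)))
          have h6 : d + (d - 1) * r = (d - 1) * r + d := by ring
          rw [h6] at h4
          exact h4
      rw [sum_Mon hhom]
      apply Finset.sum_eq_zero
      intro γ hγ
      have h4 := congrFun hv ⟨γ, hγ⟩
      rw [matA_mulVec n d r (fermat n d) (fermat_hom n d)] at h4
      rw [h4, Pi.zero_apply, monomial_zero]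
    obtain ⟨h5, h6⟩ := fermat_inj hFer n d hn hd r hr _ _ (form_hom n r _) (sub_eq_zero.1 h3)
    funext b
    rcases b with β | β
    · rw [← coeff_form n r (fun β => v (Sum.inl β)) β, h5]
      simp
    · rw [← coeff_form n ((d - 1) * r) (fun β => v (Sum.inr β)) β, h6]
      simp)
  refine ⟨Φ, h1, ?_⟩
  intro F hF hΦ D E hD hE hDE
  have h3 := h2 _ hΦ (Sum.elim (fun β => D.coeff β.1) (fun β => E.coeff β.1)) (by
    funext γ
    rw [matA_mulVec n d r F hF]
    simp only [Sum.elim_inl, Sum.elim_inr]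
    rw [form_coeff n r D hD, form_coeff n ((d - 1) * r) E hE, hDE, sub_self]
    simp)
  rw [← form_coeff n r D hD]
  have h4 : (fun β : Mon n r => D.coeff β.1) = fun _ => 0 := by
    funext β
    exact congrFun h3 (Sum.inl β)
  rw [h4]
  unfold form
  simp

/-- **A general form of degree `d`.** -/
theorem GEN (hF : S_FERMAT) : S_GEN := by
  intro n d hn hd
  choose Φ h1 h2 using fun r : Fin (d * (d - 1) ^ n) => generic_r hF n d hn hd r r.2
  refine ⟨∏ r, Φ r, ?_, ?_⟩
  · rw [map_prod]
    exact Finset.prod_ne_zero_iff.2 fun r _ => h1 r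
  · intro F hFd hP r hr D E hD hE h
    rw [map_prod] at hP
    exact h2 ⟨r, hr⟩ F hFd (Finset.prod_ne_zero_iff.1 hP _ (Finset.mem_univ _)) D E hD hE h

end

end Pool.Agent.TH993.J3368
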