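import Pool.Agent.TH968.UST.Defs2

namespace Pool.Agent.TH993.J87
open MeasureTheory Pool.Agent.TH968.UST
open scoped ENNReal unitInterval
variable {V : Type*}

theorem set_lt (a : ℝ≥0∞) (ha : a ≤ 1) : ∃ t : I, {x : I | ENNReal.ofReal (x : ℝ) < a} = Set.Iio t ∧
    a = ENNReal.ofReal (t : ℝ) := by
  have hat : a ≠ ∞ := ne_top_of_le_ne_top ENNReal.one_ne_top ha
  have h0 : 0 ≤ a.toReal := ENNReal.toReal_nonneg
  have h1 : a.toReal ≤ 1 := by
    have := ENNReal.toReal_mono ENNReal.one_ne_top ha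
    simpa using this
  refine ⟨⟨a.toReal, h0, h1⟩, ?_, ?_⟩
  · ext x
    simp only [Set.mem_ofPred_eq, Set.mem_Iio]
    rw [← Subtype.coe_lt_coe]
    conv_lhs => rw [← ENNReal.ofReal_toReal hat]
    rw [ENNReal.ofReal_lt_ofReal_iff_of_nonneg x.2.1]
  · rw [ENNReal.ofReal_toReal hat]

theorem meas_lt (a : ℝ≥0∞) : MeasurableSet {x : I | ENNReal.ofReal (x : ℝ) < a} :=
  measurableSet_lt (ENNReal.measurable_ofReal.comp measurable_subtype_coe) measurable_const

theorem vol_lt (a : ℝ≥0∞) (ha : a ≤ 1) :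
    (volume : Measure I) {x : I | ENNReal.ofReal (x : ℝ) < a} = a := by
  obtain ⟨t, h1, h2⟩ := set_lt a ha
  rw [h1, unitInterval.volume_Iio, ← h2]

theorem vol_diff (a b : ℝ≥0∞) (ha : a ≤ 1) (hb : b ≤ 1) :
    (volume : Measure I) {x : I | ENNReal.ofReal (x : ℝ) < b ∧ ¬ ENNReal.ofReal (x : ℝ) < a}
      ≤ b - a := by
  rcases le_total b a with h | h
  · have : {x : I | ENNReal.ofReal (x : ℝ) < b ∧ ¬ ENNReal.ofReal (x : ℝ) < a} = ∅ := by
      ext x
      simp only [Set.mem_ofPred_eq, Set.mem_empty_iff_false, iff_false, not_and, not_not]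
      intro hx
      exact lt_of_lt_of_le hx h
    rw [this, measure_empty]
    exact bot_le
  · have e : {x : I | ENNReal.ofReal (x : ℝ) < b ∧ ¬ ENNReal.ofReal (x : ℝ) < a}
        = {x : I | ENNReal.ofReal (x : ℝ) < b} \ {x : I | ENNReal.ofReal (x : ℝ) < a} := by
      ext x; simp
    have hsub : {x : I | ENNReal.ofReal (x : ℝ) < a} ⊆ {x : I | ENNReal.ofReal (x : ℝ) < b} :=
      fun x hx => lt_of_lt_of_le hx h
    rw [e, measure_sdiff hsub (meas_lt a).nullMeasurableSet
      (measure_ne_top _ _), vol_lt a ha, vol_lt b hb]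

theorem vol_sep (a b : ℝ≥0∞) (ha : a ≤ 1) (hb : b ≤ 1) :
    (volume : Measure I) {x : I | ¬ (ENNReal.ofReal (x : ℝ) < a ↔ ENNReal.ofReal (x : ℝ) < b)}
      ≤ (a - b) + (b - a) := by
  have e : {x : I | ¬ (ENNReal.ofReal (x : ℝ) < a ↔ ENNReal.ofReal (x : ℝ) < b)} ⊆
      {x : I | ENNReal.ofReal (x : ℝ) < a ∧ ¬ ENNReal.ofReal (x : ℝ) < b} ∪
      {x : I | ENNReal.ofReal (x : ℝ) < b ∧ ¬ ENNReal.ofReal (x : ℝ) < a} := by
    intro x hx
    simp only [Set.mem_ofPred_eq, Set.mem_union] at hx ⊢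
    tauto
  refine (measure_mono e).trans ((measure_union_le _ _).trans ?_)
  exact add_le_add (vol_diff b a hb ha) (vol_diff a b ha hb)

theorem one_sub_le (a : ℝ≥0∞) (ha : a ≤ 1) :
    1 - a ≤ ENNReal.ofReal (Real.exp (-a.toReal)) := by
  have hat : a ≠ ∞ := ne_top_of_le_ne_top ENNReal.one_ne_top ha
  have h : (1 : ℝ≥0∞) - a = ENNReal.ofReal (1 - a.toReal) := by
    rw [ENNReal.ofReal_sub _ ENNReal.toReal_nonneg, ENNReal.ofReal_one, ENNReal.ofReal_toReal hat]
  rw [h]
  apply ENNReal.ofReal_le_ofReal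
  have := Real.add_one_le_exp (-a.toReal)
  linarith

theorem vol_not_lt (a : ℝ≥0∞) (ha : a ≤ 1) :
    (volume : Measure I) {x : I | ¬ ENNReal.ofReal (x : ℝ) < a} = 1 - a := by
  have e : {x : I | ¬ ENNReal.ofReal (x : ℝ) < a} = {x : I | ENNReal.ofReal (x : ℝ) < a}ᶜ := rfl
  rw [e, prob_compl_eq_one_sub (meas_lt a), vol_lt a ha]

/-- Probability that the random thresholds separate `p` from `q`, or capture nothing. -/
theorem thr_bound [Countable V] {ι : Type*} (j : ℕ × V → ι) (hj : Function.Injective j)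
    (p q : V → ℝ≥0∞) (hp : ∑' r, p r ≤ 1) (hq : ∑' r, q r ≤ 1) (hpf : p.support.Finite) (K : ℕ) :
    (Measure.infinitePi (fun _ : ι => (volume : Measure I)))
      {X | ¬ ((∃ k < K, ∃ r, ENNReal.ofReal (X (j (k, r))) < p r) ∧
        ∀ k < K, ∀ r, (ENNReal.ofReal (X (j (k, r))) < p r ↔
          ENNReal.ofReal (X (j (k, r))) < q r))} ≤
      K * ∑' r, ((p r - q r) + (q r - p r)) +
        ENNReal.ofReal (Real.exp (-((K : ℝ) * (∑' r, p r).toReal))) := by
  classical
  have hp1 : ∀ r, p r ≤ 1 := fun r => (ENNReal.le_tsum r).trans hp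
  have hq1 : ∀ r, q r ≤ 1 := fun r => (ENNReal.le_tsum r).trans hq
  set μ := (Measure.infinitePi (fun _ : ι => (volume : Measure I))) with hμ
  -- the two bad sets
  have hsub : {X : ι → I | ¬ ((∃ k < K, ∃ r, ENNReal.ofReal (X (j (k, r))) < p r) ∧
        ∀ k < K, ∀ r, (ENNReal.ofReal (X (j (k, r))) < p r ↔
          ENNReal.ofReal (X (j (k, r))) < q r))} ⊆
      (⋃ k ∈ Finset.range K, ⋃ r, {X : ι → I | ¬ (ENNReal.ofReal (X (j (k, r))) < p r ↔
          ENNReal.ofReal (X (j (k, r))) < q r)}) ∪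
      {X : ι → I | ∀ k < K, ∀ r, ¬ ENNReal.ofReal (X (j (k, r))) < p r} := by
    intro X hX
    simp only [Set.mem_ofPred_eq, Set.mem_union, Set.mem_iUnion, Finset.mem_range] at hX ⊢
    by_cases h1 : ∃ k < K, ∃ r, ENNReal.ofReal (X (j (k, r))) < p r
    · left
      have h2 : ¬ ∀ k < K, ∀ r, (ENNReal.ofReal (X (j (k, r))) < p r ↔
          ENNReal.ofReal (X (j (k, r))) < q r) := fun h => hX ⟨h1, h⟩
      push Not at h2
      obtain ⟨k, hk, r, hr⟩ := h2
      refine ⟨k, hk, r, ?_⟩
      intro hiff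
      rcases hr with ⟨h3, h4⟩ | ⟨h3, h4⟩
      · exact absurd (hiff.1 h3) (not_lt.2 h4)
      · exact absurd (hiff.2 h4) (not_lt.2 h3)
    · right
      push Not at h1
      intro k hk r
      exact not_lt.2 (h1 k hk r)
  refine (measure_mono hsub).trans ((measure_union_le _ _).trans (add_le_add ?_ ?_))
  · refine (measure_biUnion_finset_le _ _).trans ?_
    have hk : ∀ k ∈ Finset.range K, μ (⋃ r, {X : ι → I | ¬ (ENNReal.ofReal (X (j (k, r))) < p r ↔
          ENNReal.ofReal (X (j (k, r))) < q r)}) ≤ ∑' r, ((p r - q r) + (q r - p r)) := by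
      intro k _
      refine (measure_iUnion_le _).trans (ENNReal.tsum_le_tsum fun r => ?_)
      have hmp := measurePreserving_eval_infinitePi (fun _ : ι => (volume : Measure I)) (j (k, r))
      have hms : MeasurableSet {x : I | ¬ (ENNReal.ofReal (x : ℝ) < p r ↔
          ENNReal.ofReal (x : ℝ) < q r)} := by
        have h := (meas_lt (p r)).symmDiff (meas_lt (q r))
        refine h.congr ?_ 
        ext x
        simp only [Set.mem_symmDiff, Set.mem_ofPred_eq]
        tauto
      have := hmp.measure_preimage hms.nullMeasurableSet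
      have e : {X : ι → I | ¬ (ENNReal.ofReal (X (j (k, r))) < p r ↔
          ENNReal.ofReal (X (j (k, r))) < q r)} = (Function.eval (j (k, r))) ⁻¹'
          {x : I | ¬ (ENNReal.ofReal (x : ℝ) < p r ↔ ENNReal.ofReal (x : ℝ) < q r)} := rfl
      rw [e, hμ, this]
      exact vol_sep _ _ (hp1 r) (hq1 r)
    refine (Finset.sum_le_sum hk).trans ?_
    rw [Finset.sum_const, Finset.card_range, nsmul_eq_mul]
  · -- the cylinder
    set S : Finset V := hpf.toFinset with hS
    set F : Finset (ℕ × V) := Finset.range K ×ˢ S with hF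
    set t : ι → Set I := fun i => {x : I | ∀ k r, j (k, r) = i → ¬ ENNReal.ofReal (x : ℝ) < p r}
      with ht
    have htj : ∀ k r, t (j (k, r)) = {x : I | ¬ ENNReal.ofReal (x : ℝ) < p r} := by
      intro k r
      ext x
      simp only [ht, Set.mem_ofPred_eq]
      constructor
      · intro h; exact h k r rfl
      · intro h k' r' he
        have := hj he
        simp only [Prod.mk.injEq] at this
        rw [this.2]; exact h
    have hsub2 : {X : ι → I | ∀ k < K, ∀ r, ¬ ENNReal.ofReal (X (j (k, r))) < p r} ⊆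
        Set.pi ((F.image j : Finset ι) : Set ι) t := by
      intro X hX i hi
      simp only [Finset.coe_image, Set.mem_image, Finset.mem_coe, hF, Finset.mem_product,
        Finset.mem_range] at hi
      obtain ⟨⟨k, r⟩, ⟨hk, _⟩, rfl⟩ := hi
      rw [htj]
      exact hX k hk r
    refine (measure_mono hsub2).trans ?_
    rw [hμ, Measure.infinitePi_pi]
    · rw [Finset.prod_image (fun a _ b _ h => hj h)]
      have : ∀ a ∈ F, (volume : Measure I) (t (j a)) ≤ ENNReal.ofReal (Real.exp (-(p a.2).toReal)) := by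
        rintro ⟨k, r⟩ _
        rw [htj, vol_not_lt _ (hp1 r)]
        exact one_sub_le _ (hp1 r)
      refine (Finset.prod_le_prod' this).trans ?_
      rw [← ENNReal.ofReal_prod_of_nonneg (fun _ _ => (Real.exp_pos _).le), ← Real.exp_sum]
      apply ENNReal.ofReal_le_ofReal
      apply Real.exp_le_exp.2
      rw [hF, Finset.sum_product]
      simp only [Finset.sum_const, Finset.card_range, nsmul_eq_mul, Finset.sum_neg_distrib]
      have hsum : (∑' r, p r).toReal = ∑ r ∈ S, (p r).toReal := by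
        rw [tsum_eq_sum (s := S)]
        · rw [ENNReal.toReal_sum]
          intro a _
          exact ne_top_of_le_ne_top ENNReal.one_ne_top (hp1 a)
        · intro b hb
          by_contra h
          exact hb ((Set.Finite.mem_toFinset hpf).2 h)
      rw [hsum]
      linarith
    · intro i hi
      simp only [Finset.mem_image] at hi
      obtain ⟨⟨k, r⟩, _, rfl⟩ := hi
      rw [htj]
      exact (meas_lt (p r)).compl

end Pool.Agent.TH993.J87
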