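import Pool.Agent.TH968.UST.Defs2

namespace Pool.Agent.TH993.J88
open Pool.Agent.TH968.UST
open scoped ENNReal
variable {V : Type*}

/-! ### averages -/

theorem avg_mono (G : SimpleGraph V) {f g : V → ℝ≥0∞} {v : V}
    (h : ∀ w, G.Adj v w → f w ≤ g w) : avg G f v ≤ avg G g v := by
  unfold avg
  refine ENNReal.div_le_div_right (ENNReal.tsum_le_tsum fun w => ?_) _
  split_ifs with hw
  · exact h w hw
  · exact le_rfl

theorem avg_le_one (G : SimpleGraph V) {f : V → ℝ≥0∞} {v : V}
    (h : ∀ w, G.Adj v w → f w ≤ 1) : avg G f v ≤ 1 := by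
  refine (avg_mono G (g := fun _ => 1) h).trans ?_
  unfold avg
  exact ENNReal.div_self_le_one

theorem avg_ne_zero (G : SimpleGraph V) {f : V → ℝ≥0∞} {v : V} (h : avg G f v ≠ 0) :
    ∃ w, G.Adj v w ∧ f w ≠ 0 := by
  classical
  by_contra hcon
  push Not at hcon
  apply h
  unfold avg
  have : (∑' w, if G.Adj v w then f w else 0) = 0 := by
    rw [ENNReal.tsum_eq_zero]
    intro w
    split_ifs with hw
    · exact hcon w hw
    · rfl
  rw [this, ENNReal.zero_div]

theorem avg_mul (G : SimpleGraph V) (f : V → ℝ≥0∞) (v : V) (c : ℝ≥0∞) :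
    avg G f v * c = avg G (fun w => f w * c) v := by
  unfold avg
  rw [div_eq_mul_inv, div_eq_mul_inv, mul_right_comm, ← ENNReal.tsum_mul_right]
  congr 2
  funext w
  split_ifs
  · rfl
  · rw [zero_mul]

theorem avg_tsum (G : SimpleGraph V) {α : Type*} (f : α → V → ℝ≥0∞) (v : V) :
    ∑' r, avg G (f r) v = avg G (fun w => ∑' r, f r w) v := by
  unfold avg
  simp only [div_eq_mul_inv]
  rw [ENNReal.tsum_mul_right, ENNReal.tsum_comm]
  congr 2
  funext w
  split_ifs
  · rfl
  · exact ENNReal.tsum_eq_zero.2 fun _ => rfl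

/-! ### balls -/

theorem gball_finite (G : SimpleGraph V) (hf : ∀ v, (G.neighborSet v).Finite) (n : ℕ) (v : V) :
    (gball G n v).Finite := by
  induction n generalizing v with
  | zero => exact Set.finite_singleton v
  | succ n ih =>
    have : gball G (n + 1) v = {v} ∪ ⋃ w ∈ G.neighborSet v, gball G n w := by
      ext x
      simp [gball]
    rw [this]
    exact (Set.finite_singleton v).union ((hf v).biUnion fun w _ => ih w)

theorem mem_gball (G : SimpleGraph V) (n : ℕ) (v x : V) :
    x ∈ gball G n v ↔ ∃ p : G.Walk v x, p.length ≤ n := by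
  induction n generalizing v with
  | zero =>
    constructor
    · intro h
      have h : x = v := h
      subst h
      exact ⟨SimpleGraph.Walk.nil, le_rfl⟩
    · rintro ⟨p, hp⟩
      have := SimpleGraph.Walk.eq_of_length_eq_zero (Nat.le_zero.1 hp)
      exact this.symm
  | succ n ih =>
    constructor
    · rintro (h | ⟨w, hw, hx⟩)
      · have h : x = v := h
        subst h
        exact ⟨SimpleGraph.Walk.nil, Nat.zero_le _⟩
      · obtain ⟨p, hp⟩ := (ih w).1 hx
        exact ⟨SimpleGraph.Walk.cons hw p, by simpa using hp⟩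
    · rintro ⟨p, hp⟩
      cases p with
      | nil => exact Or.inl rfl
      | cons h q =>
        refine Or.inr ⟨_, h, (ih _).2 ⟨q, ?_⟩⟩
        simpa using hp

theorem mem_gball_comm (G : SimpleGraph V) (n : ℕ) (v x : V) :
    x ∈ gball G n v ↔ v ∈ gball G n x := by
  rw [mem_gball, mem_gball]
  constructor
  · rintro ⟨p, hp⟩
    exact ⟨p.reverse, by simpa using hp⟩
  · rintro ⟨p, hp⟩
    exact ⟨p.reverse, by simpa using hp⟩

theorem self_mem_gball (G : SimpleGraph V) (n : ℕ) (v : V) : v ∈ gball G n v :=
  (mem_gball G n v v).2 ⟨SimpleGraph.Walk.nil, Nat.zero_le _⟩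

/-! ### hitting distributions -/

theorem nu_ne_zero (G : SimpleGraph V) (R : Set V) (n : ℕ) (v r : V) (h : nu G R n v r ≠ 0) :
    r ∈ R ∧ r ∈ gball G n v := by
  induction n generalizing v with
  | zero =>
    unfold nu at h
    split_ifs at h with h1
    · obtain ⟨h2, rfl⟩ := h1
      exact ⟨h2, rfl⟩
    · exact absurd rfl h
  | succ n ih =>
    unfold nu at h
    split_ifs at h with h1 h2
    · subst h2
      exact ⟨h1, Or.inl rfl⟩
    · exact absurd rfl h
    · obtain ⟨w, hw, hw2⟩ := avg_ne_zero G h
      obtain ⟨h3, h4⟩ := ih w hw2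
      exact ⟨h3, Or.inr ⟨w, hw, h4⟩⟩

theorem tsum_nu (G : SimpleGraph V) (hf : ∀ v, (G.neighborSet v).Finite) (R : Set V) (n : ℕ)
    (v : V) : ∑' r, nu G R n v r = mass G R n v := by
  classical
  induction n generalizing v with
  | zero =>
    unfold nu mass
    by_cases h : v ∈ R
    · simp only [h, true_and, if_true]
      rw [tsum_eq_single v]
      · simp
      · intro b hb
        rw [if_neg (fun h => hb h.symm)]
    · simp [h]
  | succ n ih =>
    unfold nu mass
    by_cases h : v ∈ R
    · simp only [h, if_true]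
      rw [tsum_eq_single v]
      · simp
      · intro b hb
        rw [if_neg (fun h => hb h.symm)]
    · simp only [h, if_false]
      rw [avg_tsum]
      congr 1
      funext w
      exact ih w

theorem mass_le_one (G : SimpleGraph V) (R : Set V) (n : ℕ) (v : V) : mass G R n v ≤ 1 := by
  induction n generalizing v with
  | zero =>
    unfold mass
    split_ifs
    · exact le_rfl
    · exact zero_le_one
  | succ n ih =>
    unfold mass
    split_ifs
    · exact le_rfl
    · exact avg_le_one G fun w _ => ih w

theorem mass_succ (G : SimpleGraph V) (R : Set V) (n : ℕ) (v : V) :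
    mass G R n v ≤ mass G R (n + 1) v := by
  induction n generalizing v with
  | zero =>
    unfold mass
    split_ifs
    · exact le_rfl
    · exact bot_le
  | succ n ih =>
    rw [mass, mass]
    split_ifs
    · exact le_rfl
    · exact avg_mono G fun w _ => ih w

theorem mass_mono (G : SimpleGraph V) (R : Set V) {m n : ℕ} (h : m ≤ n) (v : V) :
    mass G R m v ≤ mass G R n v :=
  monotone_nat_of_le_succ (f := fun n => mass G R n v) (fun n => mass_succ G R n v) h

theorem nu_succ (G : SimpleGraph V) (R : Set V) (n : ℕ) (v r : V) :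
    nu G R n v r ≤ nu G R (n + 1) v r := by
  induction n generalizing v with
  | zero =>
    unfold nu
    by_cases h : v ∈ R
    · by_cases h2 : v = r
      · rw [if_pos ⟨h, h2⟩, if_pos h, if_pos h2]
      · rw [if_neg (fun hh => h2 hh.2)]; exact bot_le
    · rw [if_neg (fun hh => h hh.1)]; exact bot_le
  | succ n ih =>
    rw [nu, nu]
    split_ifs
    · exact le_rfl
    · exact le_rfl
    · exact avg_mono G fun w _ => ih w

theorem nu_mono (G : SimpleGraph V) (R : Set V) {m n : ℕ} (h : m ≤ n) (v r : V) :
    nu G R m v r ≤ nu G R n v r :=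
  monotone_nat_of_le_succ (f := fun n => nu G R n v r) (fun n => nu_succ G R n v r) h

theorem hit_le_one (G : SimpleGraph V) (o : V) (n : ℕ) (v : V) : hit G o n v ≤ 1 := by
  induction n generalizing v with
  | zero =>
    unfold hit
    split_ifs
    · exact le_rfl
    · exact zero_le_one
  | succ n ih =>
    unfold hit
    split_ifs
    · exact le_rfl
    · exact avg_le_one G fun w _ => ih w

theorem hit_le_mass (G : SimpleGraph V) (R : Set V) {o : V} (ho : o ∈ R) (n : ℕ) (v : V) :
    hit G o n v ≤ mass G R n v := by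
  induction n generalizing v with
  | zero =>
    unfold hit mass
    split_ifs with h1 h2 h2
    · exact le_rfl
    · subst h1; exact absurd ho h2
    · exact zero_le_one
    · exact le_rfl
  | succ n ih =>
    unfold hit mass
    split_ifs with h1 h2 h2
    · exact le_rfl
    · subst h1; exact absurd ho h2
    · exact avg_le_one G fun w _ => hit_le_one G o n w
    · exact avg_mono G fun w _ => ih w

theorem iSup_mass (G : SimpleGraph V) (R : Set V) (hR : R.Nonempty)
    (hh : ∀ o v, ⨆ n, hit G o n v = 1) (v : V) : ⨆ n, mass G R n v = 1 := by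
  obtain ⟨o, ho⟩ := hR
  apply le_antisymm
  · exact iSup_le fun n => mass_le_one G R n v
  · rw [← hh o v]
    exact iSup_mono fun n => hit_le_mass G R ho n v

theorem hit_mul_nu (G : SimpleGraph V) (R : Set V) (v r : V) (M n : ℕ) (u : V)
    (hclear : ∀ x ∈ gball G M u, x ∉ R) :
    hit G v M u * nu G R n v r ≤ nu G R (n + M) u r := by
  induction M generalizing u with
  | zero =>
    unfold hit
    split_ifs with h
    · subst h; rw [one_mul]; exact le_rfl
    · rw [zero_mul]; exact bot_le
  | succ M ih =>
    unfold hit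
    split_ifs with h
    · subst h
      rw [one_mul]
      exact nu_mono G R (by omega) _ _
    · have hu : u ∉ R := hclear u (self_mem_gball G _ u)
      rw [avg_mul, show n + (M + 1) = (n + M) + 1 from rfl, nu, if_neg hu]
      refine avg_mono G fun w hw => ih w fun x hx => hclear x (Or.inr ⟨w, hw, hx⟩)

/-- Hitting distributions of `R` from nearby points are close when the ball around `u` is far
from `R`. -/
theorem diff_bound (G : SimpleGraph V) (hf : ∀ v, (G.neighborSet v).Finite) (R : Set V)
    (u v : V) (M N : ℕ) (hMN : M ≤ N) (hclear : ∀ x ∈ gball G M u, x ∉ R) :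
    ∑' r, ((nu G R N u r - nu G R N v r) + (nu G R N v r - nu G R N u r)) ≤
      2 * (1 - hit G v M u * mass G R (N - M) v) := by
  set h := hit G v M u with hh
  have hca : ∀ r, h * nu G R (N - M) v r ≤ nu G R N u r := by
    intro r
    have := hit_mul_nu G R v r M (N - M) u hclear
    rwa [Nat.sub_add_cancel hMN] at this
  have hcb : ∀ r, h * nu G R (N - M) v r ≤ nu G R N v r := by
    intro r
    calc h * nu G R (N - M) v r ≤ 1 * nu G R (N - M) v r :=
          mul_le_mul_left (hit_le_one G v M u) _
      _ = nu G R (N - M) v r := one_mul _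
      _ ≤ nu G R N v r := nu_mono G R (Nat.sub_le _ _) v r
  have hsumc : ∑' r, h * nu G R (N - M) v r = h * mass G R (N - M) v := by
    rw [ENNReal.tsum_mul_left, tsum_nu G hf]
  have hctop : ∑' r, h * nu G R (N - M) v r ≠ ∞ := by
    rw [hsumc]
    exact ENNReal.mul_ne_top (ne_top_of_le_ne_top ENNReal.one_ne_top (hit_le_one G v M u))
      (ne_top_of_le_ne_top ENNReal.one_ne_top (mass_le_one G R _ v))
  have h1 : ∀ x : V, (∀ r, h * nu G R (N - M) v r ≤ nu G R N x r) →
      ∑' r, (nu G R N x r - h * nu G R (N - M) v r) ≤ 1 - h * mass G R (N - M) v := by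
    intro x hx
    have hadd : ∑' r, (nu G R N x r - h * nu G R (N - M) v r) +
        ∑' r, h * nu G R (N - M) v r = ∑' r, nu G R N x r := by
      rw [← ENNReal.tsum_add]
      exact tsum_congr fun r => tsub_add_cancel_of_le (hx r)
    have hsub := ENNReal.eq_sub_of_add_eq hctop hadd
    rw [hsub, hsumc, tsum_nu G hf]
    exact tsub_le_tsub_right (mass_le_one G R N x) _
  calc ∑' r, ((nu G R N u r - nu G R N v r) + (nu G R N v r - nu G R N u r))
      ≤ ∑' r, ((nu G R N u r - h * nu G R (N - M) v r) +
          (nu G R N v r - h * nu G R (N - M) v r)) :=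
        ENNReal.tsum_le_tsum fun r => add_le_add (tsub_le_tsub_left (hcb r) _)
          (tsub_le_tsub_left (hca r) _)
    _ = ∑' r, (nu G R N u r - h * nu G R (N - M) v r) +
          ∑' r, (nu G R N v r - h * nu G R (N - M) v r) := ENNReal.tsum_add
    _ ≤ (1 - h * mass G R (N - M) v) + (1 - h * mass G R (N - M) v) :=
        add_le_add (h1 u hca) (h1 v hcb)
    _ = 2 * (1 - h * mass G R (N - M) v) := by rw [two_mul]

/-! ### kept components -/

/-- Components of kept edges are finite. -/
theorem kept_comp_finite (G : SimpleGraph V) (hf : ∀ v, (G.neighborSet v).Finite) (R : Set V)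
    (N K : ℕ) (θ : ℕ → V → unitInterval) (A : Set (Sym2 V))
    (hA : ∀ a b, s(a, b) ∈ A → G.Adj a b ∧ Kept G R N K θ a b) (a : V) :
    (comp A a).Finite := by
  by_cases h : ∃ b, s(a, b) ∈ A
  · obtain ⟨b, hb⟩ := h
    obtain ⟨_, ⟨k, hk, r, hr⟩, _⟩ := hA a b hb
    have hprop : ∀ x y, Conn ⊥ A x y →
        (ENNReal.ofReal (θ k r) < nu G R N x r ↔ ENNReal.ofReal (θ k r) < nu G R N y r) := by
      intro x y hxy
      unfold Conn at hxy
      induction hxy with
      | rel x y h =>
        rcases h with h | h
        · have h : x = y := h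
          rw [h]
        · exact (hA x y h).2.2 k hk r
      | refl x => exact Iff.rfl
      | symm x y _ ih => exact ih.symm
      | trans x y z _ _ ih1 ih2 => exact ih1.trans ih2
    refine (gball_finite G hf N r).subset ?_
    intro x hx
    have h1 : ENNReal.ofReal (θ k r) < nu G R N x r := (hprop a x hx).1 hr
    have h2 : nu G R N x r ≠ 0 := (lt_of_le_of_lt bot_le h1).ne'
    exact (mem_gball_comm G N x r).1 (nu_ne_zero G R N x r h2).2
  · push Not at h
    have hprop : ∀ x y, Conn ⊥ A x y → (x = a ↔ y = a) := by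
      intro x y hxy
      unfold Conn at hxy
      induction hxy with
      | rel x y h1 =>
        rcases h1 with h1 | h1
        · have h1 : x = y := h1
          rw [h1]
        · constructor
          · rintro rfl; exact absurd h1 (h y)
          · rintro rfl; rw [Sym2.eq_swap] at h1; exact absurd h1 (h x)
      | refl x => exact Iff.rfl
      | symm x y _ ih => exact ih.symm
      | trans x y z _ _ ih1 ih2 => exact ih1.trans ih2
    refine (Set.finite_singleton a).subset ?_
    intro x hx
    exact (hprop a x hx).1 rfl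

end Pool.Agent.TH993.J88
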