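import Pool.Agent.TH968.UST.Defs2

namespace Pool.Agent.TH993.J89
open MeasureTheory Pool.Agent.TH968.UST
open scoped ENNReal unitInterval
variable {V : Type*} [Countable V] {Ω : Type*} [MeasurableSpace Ω]

/-! Predicates -/

theorem ms {p : Ω → Prop} (h : Measurable p) : MeasurableSet {ω | p ω} := h.setOf

theorem mp {p : Ω → Prop} (h : MeasurableSet {ω | p ω}) : Measurable p :=
  measurableSet_setOfPred.1 h

theorem mlt {f g : Ω → ℝ≥0∞} (hf : Measurable f) (hg : Measurable g) :
    Measurable fun ω => f ω < g ω := mp (measurableSet_lt hf hg)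

theorem mltI {f g : Ω → I} (hf : Measurable f) (hg : Measurable g) :
    Measurable fun ω => f ω < g ω := mp (measurableSet_lt hf hg)

theorem mconst (p : Prop) : Measurable fun _ : Ω => p := measurable_const

theorem meas_avg (G : Ω → SimpleGraph V) (hG : ∀ a b, MeasurableSet {ω | (G ω).Adj a b})
    (f : Ω → V → ℝ≥0∞) (hf : ∀ v, Measurable fun ω => f ω v) (v : V) :
    Measurable fun ω => avg (G ω) (f ω) v := by
  unfold avg
  refine Measurable.div ?_ ?_
  · exact Measurable.ennreal_tsum fun w => Measurable.ite (hG v w) (hf w) measurable_const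
  · exact Measurable.ennreal_tsum fun w => Measurable.ite (hG v w) measurable_const measurable_const

theorem meas_hit (G : Ω → SimpleGraph V) (hG : ∀ a b, MeasurableSet {ω | (G ω).Adj a b})
    (o : V) (n : ℕ) (v : V) : Measurable fun ω => hit (G ω) o n v := by
  induction n generalizing v with
  | zero => unfold hit; split_ifs <;> exact measurable_const
  | succ n ih =>
    unfold hit
    split_ifs
    · exact measurable_const
    · exact meas_avg G hG (fun ω => hit (G ω) o n) ih v

theorem meas_mass (G : Ω → SimpleGraph V) (hG : ∀ a b, MeasurableSet {ω | (G ω).Adj a b})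
    (R : Ω → Set V) (hR : ∀ v, MeasurableSet {ω | v ∈ R ω}) (n : ℕ) (v : V) :
    Measurable fun ω => mass (G ω) (R ω) n v := by
  induction n generalizing v with
  | zero => unfold mass; exact Measurable.ite (hR v) measurable_const measurable_const
  | succ n ih =>
    unfold mass
    exact Measurable.ite (hR v) measurable_const
      (meas_avg G hG (fun ω => mass (G ω) (R ω) n) ih v)

theorem meas_nu (G : Ω → SimpleGraph V) (hG : ∀ a b, MeasurableSet {ω | (G ω).Adj a b})
    (R : Ω → Set V) (hR : ∀ v, MeasurableSet {ω | v ∈ R ω}) (n : ℕ) (v r : V) :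
    Measurable fun ω => nu (G ω) (R ω) n v r := by
  induction n generalizing v with
  | zero =>
    unfold nu
    refine Measurable.ite (ms ?_) measurable_const measurable_const
    exact (mp (hR v)).and (mconst _)
  | succ n ih =>
    unfold nu
    refine Measurable.ite (hR v) ?_
      (meas_avg G hG (fun ω w => nu (G ω) (R ω) n w r) ih v)
    split_ifs <;> exact measurable_const

theorem mθ {θ : Ω → I} (hθ : Measurable θ) : Measurable fun ω => ENNReal.ofReal (θ ω : ℝ) :=
  ENNReal.measurable_ofReal.comp (measurable_subtype_coe.comp hθ)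

theorem meas_Kept (G : Ω → SimpleGraph V) (hG : ∀ a b, MeasurableSet {ω | (G ω).Adj a b})
    (R : Ω → Set V) (hR : ∀ v, MeasurableSet {ω | v ∈ R ω}) (N K : ℕ)
    (θ : Ω → ℕ → V → I) (hθ : ∀ k v, Measurable fun ω => θ ω k v) (a b : V) :
    MeasurableSet {ω | Kept (G ω) (R ω) N K (θ ω) a b} := by
  refine ms ?_
  unfold Kept
  refine Measurable.and ?_ ?_
  · refine Measurable.exists fun k => (mconst _).and (Measurable.exists fun r => ?_)
    exact mlt (mθ (hθ k r)) (meas_nu G hG R hR N a r)
  · refine Measurable.forall fun k => (mconst _).imp (Measurable.forall fun r => ?_)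
    exact (mlt (mθ (hθ k r)) (meas_nu G hG R hR N a r)).iff
      (mlt (mθ (hθ k r)) (meas_nu G hG R hR N b r))

theorem meas_Aseq (G : Ω → SimpleGraph V) (hG : ∀ a b, MeasurableSet {ω | (G ω).Adj a b})
    (ε : ℕ → ℝ) (N K : ℕ → ℕ) (α : Ω → ℕ → V → I) (hα : ∀ m v, Measurable fun ω => α ω m v)
    (θ : Ω → ℕ → ℕ → V → I) (hθ : ∀ m k v, Measurable fun ω => θ ω m k v) (n : ℕ)
    (e : Sym2 V) : MeasurableSet {ω | e ∈ Aseq (G ω) ε N K (α ω) (θ ω) n} := by
  cases n with
  | zero =>
    have : {ω | e ∈ Aseq (G ω) ε N K (α ω) (θ ω) 0} = ∅ := by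
      ext ω; simp [Aseq]
    rw [this]; exact MeasurableSet.empty
  | succ n =>
    refine ms ?_
    unfold Aseq
    simp only [Set.mem_ofPred_eq]
    refine Measurable.exists fun a => Measurable.exists fun b => (mconst _).and
      ((mp (hG a b)).and ((mconst _).or (Measurable.forall fun m => Measurable.forall fun _ => mp ?_)))
    refine meas_Kept G hG (fun ω => {v | (α ω m v : ℝ) < ε m}) (fun v => ?_) (N m) (K m)
      (fun ω => θ ω m) (fun k v => hθ m k v) a b
    exact measurableSet_lt (measurable_subtype_coe.comp (hα m v)) measurable_const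

/-- reachable in `n` steps -/
def reach (A : Set (Sym2 V)) (a : V) : ℕ → V → Prop
  | 0, x => x = a
  | n + 1, x => ∃ y, reach A a n y ∧ (y = x ∨ s(y, x) ∈ A)

omit [Countable V] in
theorem mem_comp_iff (A : Set (Sym2 V)) (a x : V) : x ∈ comp A a ↔ ∃ n, reach A a n x := by
  constructor
  · intro h
    have key : ∀ u v, Conn ⊥ A u v → ((∃ n, reach A a n u) ↔ (∃ n, reach A a n v)) := by
      intro u v huv
      unfold Conn at huv
      induction huv with
      | rel u v h =>
        rcases h with h | h
        · have h : u = v := h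
          rw [h]
        · constructor
          · rintro ⟨n, hn⟩; exact ⟨n + 1, u, hn, Or.inr h⟩
          · rintro ⟨n, hn⟩; exact ⟨n + 1, v, hn, Or.inr (by rwa [Sym2.eq_swap])⟩
      | refl x => exact Iff.rfl
      | symm x y _ ih => exact ih.symm
      | trans x y z _ _ ih1 ih2 => exact ih1.trans ih2
    exact (key a x h).1 ⟨0, rfl⟩
  · rintro ⟨n, hn⟩
    induction n generalizing x with
    | zero =>
      have h : x = a := hn
      rw [h]
      exact Relation.EqvGen.refl a
    | succ n ih =>
      obtain ⟨y, hy, h⟩ := hn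
      refine Relation.EqvGen.trans _ _ _ (ih y hy) (Relation.EqvGen.rel _ _ ?_)
      rcases h with h | h
      · exact Or.inl h
      · exact Or.inr h

theorem meas_comp (A : Ω → Set (Sym2 V)) (hA : ∀ e, MeasurableSet {ω | e ∈ A ω}) (a x : V) :
    MeasurableSet {ω | x ∈ comp (A ω) a} := by
  refine ms ?_
  simp only [mem_comp_iff]
  refine Measurable.exists fun n => ?_
  induction n generalizing x with
  | zero => exact mconst _
  | succ n ih =>
    unfold reach
    exact Measurable.exists fun y => (ih y).and ((mconst _).or (mp (hA _)))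

theorem meas_eq_finset {α : Type*} [Countable α] (Z : Ω → Set α)
    (hZ : ∀ x, MeasurableSet {ω | x ∈ Z ω}) (S : Finset α) :
    Measurable fun ω => Z ω = (S : Set α) := by
  have : (fun ω => Z ω = (S : Set α)) = fun ω => ∀ x, (x ∈ Z ω ↔ x ∈ (S : Set α)) := by
    funext ω
    rw [Set.ext_iff]
  rw [this]
  exact Measurable.forall fun x => (mp (hZ x)).iff (mconst _)

/-- Cardinality of a random set is measurable. -/
theorem meas_ncard {α : Type*} [Countable α] (Z : Ω → Set α)
    (hZ : ∀ x, MeasurableSet {ω | x ∈ Z ω}) : Measurable fun ω => (Z ω).ncard := by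
  have hpos : ∀ k : ℕ, Measurable fun ω => (Z ω).ncard = k + 1 := by
    intro k
    have : (fun ω => (Z ω).ncard = k + 1) =
        fun ω => ∃ S : Finset α, S.card = k + 1 ∧ Z ω = (S : Set α) := by
      funext ω
      apply propext
      constructor
      · intro h
        have hfin : (Z ω).Finite := Set.finite_of_ncard_ne_zero (by omega)
        refine ⟨hfin.toFinset, ?_, by simp⟩
        rw [← h, Set.ncard_eq_toFinset_card _ hfin]
      · rintro ⟨S, hS, h⟩
        rw [h, Set.ncard_coe_finset, hS]
    rw [this]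
    exact Measurable.exists fun S => (mconst _).and (meas_eq_finset Z hZ S)
  refine measurable_to_countable' fun k => ?_
  cases k with
  | zero =>
    have : (fun ω => (Z ω).ncard) ⁻¹' {0} = {ω | ¬ ∃ k : ℕ, (Z ω).ncard = k + 1} := by
      ext ω
      simp only [Set.mem_preimage, Set.mem_singleton_iff, Set.mem_ofPred_eq]
      constructor
      · rintro h ⟨k, hk⟩; omega
      · intro h
        by_contra hne
        exact h ⟨(Z ω).ncard - 1, by omega⟩
    rw [this]
    exact ms (Measurable.exists hpos).not
  | succ k => exact ms (hpos k)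

theorem meas_toFin {α : Type*} [Countable α] (Z : Ω → Set α)
    (hZ : ∀ x, MeasurableSet {ω | x ∈ Z ω}) (S : Finset α) :
    MeasurableSet {ω | toFin (Z ω) = S} := by
  rcases S.eq_empty_or_nonempty with rfl | hS
  · have : {ω | toFin (Z ω) = ∅} =
        {ω | ¬ ∃ T : Finset α, T.Nonempty ∧ Z ω = (T : Set α)} := by
      ext ω
      simp only [Set.mem_ofPred_eq]
      unfold toFin
      constructor
      · rintro h ⟨T, hT, hZT⟩
        have hfin : (Z ω).Finite := by rw [hZT]; exact T.finite_toSet
        rw [dif_pos hfin] at h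
        have h2 : (Z ω) = ∅ := by
          rw [← hfin.coe_toFinset, h]; simp
        rw [h2] at hZT
        obtain ⟨x, hx⟩ := hT
        have : x ∈ (∅ : Set α) := by rw [hZT]; exact hx
        exact this
      · intro h
        by_cases hfin : (Z ω).Finite
        · rw [dif_pos hfin]
          by_contra hne
          exact h ⟨hfin.toFinset, Finset.nonempty_iff_ne_empty.2 hne, by simp⟩
        · rw [dif_neg hfin]
    rw [this]
    exact ms (Measurable.exists fun T => (mconst _).and (meas_eq_finset Z hZ T)).not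
  · have : {ω | toFin (Z ω) = S} = {ω | Z ω = (S : Set α)} := by
      ext ω
      simp only [Set.mem_ofPred_eq]
      unfold toFin
      constructor
      · intro h
        by_cases hfin : (Z ω).Finite
        · rw [dif_pos hfin] at h
          rw [← h]; simp
        · rw [dif_neg hfin] at h
          rw [← h] at hS
          exact absurd rfl (Finset.nonempty_iff_ne_empty.1 hS)
      · intro h
        have hfin : (Z ω).Finite := by rw [h]; exact S.finite_toSet
        rw [dif_pos hfin]
        apply Finset.coe_injective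
        simpa using h
    rw [this]
    exact ms (meas_eq_finset Z hZ S)

theorem meas_rk (s : Ω → V → I) (hs : ∀ v, Measurable fun ω => s ω v)
    (C : Ω → Set V) (hC : ∀ v, MeasurableSet {ω | v ∈ C ω}) (x : V) :
    Measurable fun ω => rk (s ω) (C ω) x := by
  unfold rk
  refine meas_ncard _ fun y => ms ?_
  simp only [Set.mem_ofPred_eq]
  exact (mp (hC y)).and (mltI (hs y) (hs x))

theorem meas_rk_eq (s : Ω → V → I) (hs : ∀ v, Measurable fun ω => s ω v)
    (C : Ω → Set V) (hC : ∀ v, MeasurableSet {ω | v ∈ C ω}) (x : V) (k : ℕ) :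
    Measurable fun ω => rk (s ω) (C ω) x = k :=
  mp ((meas_rk s hs C hC x) (measurableSet_singleton k))

theorem meas_img (s : Ω → V → I) (hs : ∀ v, Measurable fun ω => s ω v)
    (C : Ω → Set V) (hC : ∀ v, MeasurableSet {ω | v ∈ C ω})
    (X : Ω → Set (Sym2 V)) (hX : ∀ e, MeasurableSet {ω | e ∈ X ω}) (P : Finset (Sym2 ℕ)) :
    Measurable fun ω => img (s ω) (C ω) (X ω) = P := by
  unfold img
  refine mp (meas_toFin _ (fun e => ms ?_) P)
  simp only [Set.mem_ofPred_eq]
  refine Measurable.exists fun x => Measurable.exists fun y => (mp (hC x)).and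
    ((mp (hC y)).and ((mp (hX _)).and ?_))
  have : (fun ω => e = s(rk (s ω) (C ω) x, rk (s ω) (C ω) y)) =
      fun ω => ∃ k l : ℕ, e = s(k, l) ∧ rk (s ω) (C ω) x = k ∧ rk (s ω) (C ω) y = l := by
    funext ω
    apply propext
    constructor
    · intro h; exact ⟨_, _, h, rfl, rfl⟩
    · rintro ⟨k, l, h, rfl, rfl⟩; exact h
  rw [this]
  exact Measurable.exists fun k => Measurable.exists fun l => (mconst _).and
    ((meas_rk_eq s hs C hC x k).and (meas_rk_eq s hs C hC y l))

theorem meas_Tseq
    (Kc : Finset (Sym2 ℕ) → Finset (Sym2 ℕ) → Finset (Sym2 ℕ) → I → Finset (Sym2 ℕ))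
    (hKc : ∀ E' E F T, MeasurableSet {w : I | Kc E' E F w = T})
    (s : Ω → V → I) (hs : ∀ v, Measurable fun ω => s ω v)
    (A : Ω → ℕ → Set (Sym2 V)) (hA : ∀ n e, MeasurableSet {ω | e ∈ A ω n})
    (W : Ω → ℕ → V → I) (hW : ∀ n v, Measurable fun ω => W ω n v) (n : ℕ) (e : Sym2 V) :
    MeasurableSet {ω | e ∈ Tseq Kc (s ω) (A ω) (W ω) n} := by
  induction n generalizing e with
  | zero =>
    have : {ω | e ∈ Tseq Kc (s ω) (A ω) (W ω) 0} = ∅ := by
      ext ω; simp [Tseq]
    rw [this]; exact MeasurableSet.empty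
  | succ n ih =>
    refine ms ?_
    unfold Tseq step
    simp only [Set.mem_ofPred_eq]
    refine Measurable.exists fun a => Measurable.exists fun b => (mconst _).and
      ((mp (hA (n + 1) _)).and (Measurable.exists fun x => ?_))
    have hC : ∀ v, MeasurableSet {ω | v ∈ comp (A ω (n + 1)) a} := fun v =>
      meas_comp (fun ω => A ω (n + 1)) (hA (n + 1)) a v
    refine (mp (hC x)).and ((meas_rk_eq s hs _ hC x 0).and ?_)
    have : (fun ω => s(rk (s ω) (comp (A ω (n + 1)) a) a, rk (s ω) (comp (A ω (n + 1)) a) b) ∈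
        Kc (img (s ω) (comp (A ω (n + 1)) a) (A ω n)) (img (s ω) (comp (A ω (n + 1)) a) (A ω (n + 1)))
          (img (s ω) (comp (A ω (n + 1)) a) (Tseq Kc (s ω) (A ω) (W ω) n)) (W ω n x)) =
      fun ω => ∃ (k l : ℕ) (P Q R F : Finset (Sym2 ℕ)), s(k, l) ∈ F ∧
        rk (s ω) (comp (A ω (n + 1)) a) a = k ∧ rk (s ω) (comp (A ω (n + 1)) a) b = l ∧
        img (s ω) (comp (A ω (n + 1)) a) (A ω n) = P ∧
        img (s ω) (comp (A ω (n + 1)) a) (A ω (n + 1)) = Q ∧
        img (s ω) (comp (A ω (n + 1)) a) (Tseq Kc (s ω) (A ω) (W ω) n) = R ∧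
        Kc P Q R (W ω n x) = F := by
      funext ω
      apply propext
      constructor
      · intro h; exact ⟨_, _, _, _, _, _, h, rfl, rfl, rfl, rfl, rfl, rfl⟩
      · rintro ⟨k, l, P, Q, R, F, h, rfl, rfl, rfl, rfl, rfl, rfl⟩; exact h
    rw [this]
    refine Measurable.exists fun k => Measurable.exists fun l => Measurable.exists fun P =>
      Measurable.exists fun Q => Measurable.exists fun R => Measurable.exists fun F =>
      (mconst _).and ((meas_rk_eq s hs _ hC a k).and ((meas_rk_eq s hs _ hC b l).and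
        ((meas_img s hs _ hC _ (hA n) P).and ((meas_img s hs _ hC _ (hA (n + 1)) Q).and
          ((meas_img s hs _ hC _ ih R).and (mp ?_))))))
    exact (hW n x) (hKc P Q R F)

end Pool.Agent.TH993.J89
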