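import Pool.Agent.TH714.TD.Defs
import Pool.Agent.TH65.B.Tower

set_option autoImplicit false

namespace Pool.Agent.TH993.J2321

open Pool.Agent.TH64 Pool.Agent.TH65.B Pool.Agent.TH714.TD

section gen
variable {G : Type} [Group G]

theorem fix_zpow {X : Type} [MulAction G X] {g : G} {p : X} (h : g • p = p) (s : ℤ) :
    g ^ s • p = p :=
  (MulAction.stabilizer G p).zpow_mem (MulAction.mem_stabilizer_iff.2 h) s

theorem coe_fix (L : Subgroup G) (g h : G) :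
    g • ((h : G) : G ⧸ L) = (h : G ⧸ L) ↔ h⁻¹ * g * h ∈ L := by
  rw [eq_comm]
  have : g • ((h : G) : G ⧸ L) = ((g * h : G) : G ⧸ L) := rfl
  rw [this, QuotientGroup.eq, mul_assoc]

/-- the points with a finite cycle -/
def Pt (L : Subgroup G) (g : G) : Set (G ⧸ L) := {p | ∃ t : ℤ, t ≠ 0 ∧ g ^ t • p = p}

theorem exists_D (L : Subgroup G) (g : G) (S : Set (G ⧸ L)) (hS : S.Finite) (h : S ⊆ Pt L g) :
    ∃ D : ℕ, 0 < D ∧ ∀ p ∈ S, g ^ (D : ℤ) • p = p := by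
  induction S, hS using Set.Finite.induction_on with
  | empty => exact ⟨1, by omega, fun p hp => absurd hp (Set.notMem_empty p)⟩
  | @insert a S _ _ ih =>
    obtain ⟨D, hD, hD'⟩ := ih (fun p hp => h (Set.mem_insert_of_mem _ hp))
    obtain ⟨t, ht, ht'⟩ := h (Set.mem_insert a S)
    refine ⟨D * t.natAbs, Nat.mul_pos hD (Int.natAbs_pos.2 ht), ?_⟩
    intro p hp
    rcases hp with rfl | hp
    · rcases Int.natAbs_eq t with h1 | h1
      · have h2 : ((D * t.natAbs : ℕ) : ℤ) = t * D := by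
          rw [Nat.cast_mul, ← h1]; ring
        rw [h2, zpow_mul]
        exact fix_zpow ht' _
      · have h2 : ((D * t.natAbs : ℕ) : ℤ) = t * (-D) := by
          have : (t.natAbs : ℤ) = -t := by omega
          rw [Nat.cast_mul, this]; ring
        rw [h2, zpow_mul]
        exact fix_zpow ht' _
    · rw [Nat.cast_mul, zpow_mul]
      exact fix_zpow (hD' p hp) _

theorem Pt_finite {L : Subgroup G} {k : ℕ} (hk : Few L k) {g : G} (hg : ¬ IsOfFinOrder g) :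
    (Pt L g).Finite := by
  by_contra hinf
  obtain ⟨T, hT, hc⟩ := Set.Infinite.exists_subset_card_eq hinf (k + 1)
  obtain ⟨D, hD, hD'⟩ := exists_D L g T T.finite_toSet hT
  have e := (Finset.equivFinOfCardEq hc).symm
  obtain ⟨i, j, hij, hmem⟩ := hk (g ^ (D : ℤ)) (by
    rw [zpow_natCast, isOfFinOrder_pow]
    push Not
    exact ⟨hg, by omega⟩) (fun i => (e i).1.out) (by
      intro i
      rw [← coe_fix]
      have h1 : (((e i).1.out : G) : G ⧸ L) = (e i).1 := Quotient.out_eq' _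
      rw [h1]
      exact hD' _ (e i).2)
  apply hij
  apply e.injective
  apply Subtype.ext
  have h1 : (((e i).1.out : G) : G ⧸ L) = (e i).1 := Quotient.out_eq' _
  have h2 : (((e j).1.out : G) : G ⧸ L) = (e j).1 := Quotient.out_eq' _
  rw [← h1, ← h2]
  exact QuotientGroup.eq.2 hmem

/-- orbits of a subgroup of finite index -/
theorem orbit_inf {F : Type} [Group F] (φ : F →* G) (F0 : Subgroup F) [F0.FiniteIndex]
    {X : Type} [MulAction G X] (p : X) (h : {q | ∃ w : F, q = φ w • p}.Infinite) :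
    {q | ∃ w : F0, q = φ w • p}.Infinite := by
  intro hfin
  apply h
  have h1 : {q | ∃ w : F, q = φ w • p} ⊆
      ⋃ r : F ⧸ F0, (fun q => φ (Quotient.out r) • q) '' {q | ∃ w : F0, q = φ w • p} := by
    rintro _ ⟨w, rfl⟩
    rw [Set.mem_iUnion]
    refine ⟨(w : F ⧸ F0), ?_⟩
    have h2 : (Quotient.out (w : F ⧸ F0))⁻¹ * w ∈ F0 := by
      rw [← QuotientGroup.eq]
      exact Quotient.out_eq' _
    refine ⟨φ ((Quotient.out (w : F ⧸ F0))⁻¹ * w) • p, ⟨⟨_, h2⟩, rfl⟩, ?_⟩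
    show φ (Quotient.out (w : F ⧸ F0)) • φ ((Quotient.out (w : F ⧸ F0))⁻¹ * w) • p = φ w • p
    rw [smul_smul, ← map_mul, mul_inv_cancel_left]
  have : Finite (F ⧸ F0) := inferInstance
  exact (Set.finite_iUnion fun r => hfin.image _).subset h1

end gen

theorem core {G : Type} [Group G] {H : Hyp G} {E : ℝ} {Ps : Finset ℕ} (hL : LevP H E Ps)
    (hPs : ∀ p ∈ Ps, p.Prime ∧ Odd p) (hsep : ∀ p ∈ Ps, ∀ q ∈ Ps, ¬ p ∣ q - 1)
    (L : Subgroup G) (k : ℕ) (hk : Few L k)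
    (hroot : ∀ (x : G) (A : Ax H x), GamRoot A) (hfix : ∀ (x : G) (A : Ax H x), GamFix A L)
    (hinf : ∀ (x : G) (_ : Ax H x) (c : G), c ∉ Subgroup.zpowers x →
      ∃ n0 : ℕ, ∀ n ≥ n0, ¬ IsOfFinOrder (c * x ^ n))
    (hneu : ∀ {F : Type} [Group F] {X : Type} [MulAction F X] (A B : Set X), A.Finite → B.Finite →
      (∀ p ∈ A, (MulAction.orbit F p).Infinite) → ∃ g : F, ∀ p ∈ A, g • p ∉ B)
    {F : Type} [Group F] (φ : F →* G) (hφ : ∃ u v : F, φ u * φ v ≠ φ v * φ u)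
    (F0 : Subgroup F) [F0.Normal] [F0.FiniteIndex] (C0 : F) :
    ∃ (W : F) (y : G), C0⁻¹ * W ∈ F0 ∧ Nonempty (Ax H y) ∧ (φ W = y ∨ φ W = y⁻¹) ∧
      ∀ u : G, ∀ t : ℤ, t ≠ 0 → u * y ^ t * u⁻¹ ∈ L →
        {p : G ⧸ L | ∃ w : F, p = ((φ w * u⁻¹ : G) : G ⧸ L)}.Finite := by
  classical
  obtain ⟨u0, v0, huv⟩ := hφ
  obtain ⟨x, ⟨A⟩, hx, ⟨k1, hk1, hk1K⟩, h, hhK, hhx⟩ := noncomm_data hL hPs hsep φ.range
    (φ u0) (φ v0) ⟨u0, rfl⟩ ⟨v0, rfl⟩ huv
  obtain ⟨κ, hκ, Y, hY⟩ : ∃ κ : ℕ, 0 < κ ∧ ∃ Y : F, φ Y = x ^ κ := by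
    refine ⟨k1.natAbs, Int.natAbs_pos.2 hk1, ?_⟩
    have : x ^ k1.natAbs ∈ φ.range := by
      rcases Int.natAbs_eq k1 with h1 | h1
      · rwa [h1, zpow_natCast] at hk1K
      · rw [h1, zpow_neg, zpow_natCast] at hk1K
        exact (Subgroup.inv_mem_iff _).1 hk1K
    exact this
  have hPx : (Pt L x).Finite := Pt_finite hk hx
  obtain ⟨D, hD, hDx⟩ := exists_D L x (Pt L x) hPx le_rfl
  -- the bad points with infinite orbits
  let P1 : Set (G ⧸ L) := {p | p ∈ Pt L x ∧ {q | ∃ w : F, q = φ w • p}.Infinite}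
  have hP1 : P1.Finite := hPx.subset fun p hp => hp.1
  -- the orbit of the trivial coset of `⟨x⟩`
  have horb : {q : G ⧸ Subgroup.zpowers x | ∃ w : F, q = φ w • ((1 : G) : G ⧸ Subgroup.zpowers x)}.Infinite := by
    intro hfin
    have hall : ∀ w : F, φ w ∈ Subgroup.zpowers x := by
      intro w
      obtain ⟨j1, -, j2, -, hne, heq⟩ := Set.Infinite.exists_ne_map_eq_of_mapsTo
        (s := (Set.univ : Set ℕ)) (f := fun j : ℕ => φ (w * Y ^ j * w⁻¹) •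
          ((1 : G) : G ⧸ Subgroup.zpowers x)) Set.infinite_univ
        (t := {q : G ⧸ Subgroup.zpowers x | ∃ w : F, q = φ w • ((1 : G) : G ⧸ Subgroup.zpowers x)})
        (fun j _ => ⟨_, rfl⟩) hfin
      have key : ∀ j1 j2 : ℕ, j1 < j2 → φ (w * Y ^ j1 * w⁻¹) •
          ((1 : G) : G ⧸ Subgroup.zpowers x) = φ (w * Y ^ j2 * w⁻¹) •
          ((1 : G) : G ⧸ Subgroup.zpowers x) → φ w ∈ Subgroup.zpowers x := by
        intro j1 j2 hj heq
        have h1 : (((φ (w * Y ^ j1 * w⁻¹) * 1 : G)) : G ⧸ Subgroup.zpowers x) =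
          ((φ (w * Y ^ j2 * w⁻¹) * 1 : G) : G ⧸ Subgroup.zpowers x) := heq
        rw [mul_one, mul_one, QuotientGroup.eq, ← map_inv, ← map_mul] at h1
        have h2 : (w * Y ^ j1 * w⁻¹)⁻¹ * (w * Y ^ j2 * w⁻¹) = w * Y ^ (j2 - j1) * w⁻¹ := by
          have h3 : Y ^ j2 = Y ^ j1 * Y ^ (j2 - j1) := by rw [← pow_add]; congr 1; omega
          rw [h3]; group
        rw [h2, map_mul, map_mul, map_pow, map_inv, hY, ← pow_mul] at h1
        obtain ⟨s, hs⟩ := h1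
        have hs' : x ^ s = φ w * x ^ (κ * (j2 - j1)) * (φ w)⁻¹ := hs
        refine A.elem (t := ((κ * (j2 - j1) : ℕ) : ℤ)) (s := s) ?_ ?_
        · have : 0 < κ * (j2 - j1) := Nat.mul_pos hκ (by omega)
          omega
        · rw [zpow_natCast, hs']
      rcases lt_or_gt_of_ne hne with h1 | h1
      · exact key j1 j2 h1 heq
      · exact key j2 j1 h1 heq.symm
    obtain ⟨w, hw⟩ := hhK
    exact hhx (hw ▸ hall w)
  -- choice of `c`
  obtain ⟨g0, hg0F, hg0⟩ : ∃ g0 ∈ F0, (∀ p ∈ P1, φ (C0 * g0) • p ∉ P1) ∧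
      φ (C0 * g0) ∉ Subgroup.zpowers x := by
    let _ : MulAction F0 ((G ⧸ L) ⊕ (G ⧸ Subgroup.zpowers x)) :=
      MulAction.compHom _ (φ.comp F0.subtype)
    let S : Set ((G ⧸ L) ⊕ (G ⧸ Subgroup.zpowers x)) :=
      Sum.inl '' P1 ∪ {Sum.inr ((1 : G) : G ⧸ Subgroup.zpowers x)}
    have hS : S.Finite := (hP1.image _).union (Set.finite_singleton _)
    obtain ⟨g0, hg0⟩ := hneu (F := F0) S ((fun q => (φ C0)⁻¹ • q) '' S) hS (hS.image _) (by
      intro p hp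
      have hsub : ∀ {X : Type} [MulAction G X] (ι : X → (G ⧸ L) ⊕ (G ⧸ Subgroup.zpowers x)) (q : X),
          Function.Injective ι → (∀ (g : G) (q : X), g • ι q = ι (g • q)) →
          {r | ∃ w : F, r = φ w • q}.Infinite → (MulAction.orbit F0 (ι q)).Infinite := by
        intro X _ ι q hι hsm hinf
        have h1 := (orbit_inf φ F0 q hinf).image (f := ι) hι.injOn
        refine h1.mono ?_
        rintro _ ⟨_, ⟨w, rfl⟩, rfl⟩
        refine ⟨w, ?_⟩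
        show φ w • ι q = ι (φ w • q)
        exact hsm _ _
      rcases hp with ⟨p, hp, rfl⟩ | hp
      · exact hsub Sum.inl p Sum.inl_injective (fun _ _ => rfl) hp.2
      · rw [Set.mem_singleton_iff] at hp
        rw [hp]
        exact hsub Sum.inr _ Sum.inr_injective (fun _ _ => rfl) horb)
    refine ⟨g0, g0.2, ?_, ?_⟩
    · intro p hp hcp
      apply hg0 (Sum.inl p) (Or.inl ⟨p, hp, rfl⟩)
      refine ⟨Sum.inl (φ (C0 * g0) • p), Or.inl ⟨_, hcp, rfl⟩, ?_⟩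
      show (φ C0)⁻¹ • (Sum.inl (φ (C0 * g0) • p) : (G ⧸ L) ⊕ (G ⧸ Subgroup.zpowers x)) =
        Sum.inl (φ g0 • p)
      show Sum.inl ((φ C0)⁻¹ • φ (C0 * g0) • p) = _
      rw [smul_smul, map_mul, inv_mul_cancel_left]
    · intro hcx
      apply hg0 (Sum.inr ((1 : G) : G ⧸ Subgroup.zpowers x)) (Or.inr rfl)
      refine ⟨Sum.inr ((1 : G) : G ⧸ Subgroup.zpowers x), Or.inr rfl, ?_⟩
      show Sum.inr ((φ C0)⁻¹ • ((1 : G) : G ⧸ Subgroup.zpowers x)) =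
        (Sum.inr (φ g0 • ((1 : G) : G ⧸ Subgroup.zpowers x)) : (G ⧸ L) ⊕ (G ⧸ Subgroup.zpowers x))
      congr 1
      show ((((φ C0)⁻¹ * 1 : G)) : G ⧸ Subgroup.zpowers x) =
        ((φ g0 * 1 : G) : G ⧸ Subgroup.zpowers x)
      rw [QuotientGroup.eq, mul_one, mul_one, inv_inv, ← map_mul]
      exact hcx
  obtain ⟨hc1, hcx⟩ := hg0
  obtain ⟨c, hc⟩ : ∃ c, c = φ (C0 * g0) := ⟨_, rfl⟩
  rw [← hc] at hc1 hcx
  obtain ⟨n1, hn1⟩ := hroot x A c hcx
  obtain ⟨n2, hn2⟩ := hfix x A c hcx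
  obtain ⟨n3, hn3⟩ := hinf x A c hcx
  have hs0 : F0.index ≠ 0 := Subgroup.FiniteIndex.index_ne_zero
  obtain ⟨M, hM⟩ : ∃ M : ℕ, M = F0.index * (D * (n1 + n2 + n3 + 1)) := ⟨_, rfl⟩
  obtain ⟨n, hn⟩ : ∃ n : ℕ, n = κ * M := ⟨_, rfl⟩
  have hnge : n1 + n2 + n3 + 1 ≤ n := by
    rw [hn, hM]
    calc n1 + n2 + n3 + 1 ≤ D * (n1 + n2 + n3 + 1) := Nat.le_mul_of_pos_left _ hD
      _ ≤ F0.index * (D * (n1 + n2 + n3 + 1)) := Nat.le_mul_of_pos_left _ (Nat.pos_of_ne_zero hs0)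
      _ ≤ _ := Nat.le_mul_of_pos_left _ hκ
  have hDn : (D : ℤ) ∣ n := by
    have : D ∣ n := by
      rw [hn, hM]
      exact Dvd.dvd.mul_left (Dvd.dvd.mul_left (dvd_mul_right _ _) _) _
    exact_mod_cast this
  obtain ⟨y, ⟨j, hj, hj0⟩, hy, hyA⟩ := exists_root hL hPs (c * x ^ n) (hn3 n (by omega))
  have hφW : φ (C0 * g0 * Y ^ M) = c * x ^ n := by
    rw [map_mul, ← hc, map_pow, hY, ← pow_mul, hn]
  refine ⟨C0 * g0 * Y ^ M, y, ?_, hyA, ?_, ?_⟩
  · have h1 : Y ^ M ∈ F0 := by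
      rw [hM, pow_mul]
      exact F0.pow_mem (Subgroup.pow_index_mem F0 Y) _
    rw [show C0⁻¹ * (C0 * g0 * Y ^ M) = g0 * Y ^ M by group]
    exact F0.mul_mem hg0F h1
  · rw [hφW, ← hj]
    rcases hn1 n (by omega) y j hj with h1 | h1
    · left; rw [h1, zpow_one]
    · right; rw [h1, zpow_neg, zpow_one]
  · intro u t ht hut
    -- `p` has a finite cycle for `gam`
    obtain ⟨p, hp⟩ : ∃ p : G ⧸ L, p = ((u⁻¹ : G) : G ⧸ L) := ⟨_, rfl⟩
    have hpg : p ∈ Pt L (c * x ^ n) := by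
      refine ⟨t, ht, ?_⟩
      have h1 : y ^ t • p = p := by
        rw [hp, coe_fix, inv_inv]
        exact hut
      have h2 := fix_zpow h1 j
      rwa [← zpow_mul, mul_comm, zpow_mul, hj] at h2
    -- translated points
    have hcinv : ∀ q ∈ Pt L (c * x ^ n), c⁻¹ • q ∈ Pt L x := by
      intro q hq
      obtain ⟨m, hm, hmq⟩ := hq
      induction q using QuotientGroup.induction_on with
      | H h =>
        rw [coe_fix] at hmq
        obtain ⟨s, hs, hsL⟩ := hn2 n (by omega) h m hm hmq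
        refine ⟨s, hs, ?_⟩
        have h1 : c⁻¹ • ((h : G) : G ⧸ L) = ((c⁻¹ * h : G) : G ⧸ L) := rfl
        rw [h1, coe_fix]
        rwa [show (c⁻¹ * h)⁻¹ * x ^ s * (c⁻¹ * h) = h⁻¹ * (c * x ^ s * c⁻¹) * h by group]
    have hself : ∀ q ∈ Pt L (c * x ^ n), c⁻¹ • q ∈ Pt L (c * x ^ n) := by
      intro q hq
      have h1 := hDx _ (hcinv q hq)
      obtain ⟨e, he⟩ := hDn
      have h2 : x ^ (-(n : ℤ)) • c⁻¹ • q = c⁻¹ • q := by
        rw [he, ← mul_neg, zpow_mul]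
        exact fix_zpow h1 _
      have h3 : (c * x ^ n)⁻¹ • q = c⁻¹ • q := by
        rw [← h2, smul_smul, mul_inv_rev, zpow_neg, zpow_natCast]
      obtain ⟨m, hm, hmq⟩ := hq
      refine ⟨m, hm, ?_⟩
      rw [← h3, smul_smul]
      have h4 : (c * x ^ n) ^ m * (c * x ^ n)⁻¹ = (c * x ^ n)⁻¹ * (c * x ^ n) ^ m := by
        rw [← zpow_sub_one, ← zpow_neg_one, ← zpow_add]; congr 1; ring
      rw [h4, ← smul_smul, hmq]
    have hfin : (Pt L (c * x ^ n)).Finite := Pt_finite hk (hn3 n (by omega))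
    have hbij := (hfin.injOn_iff_bijOn_of_mapsTo (f := fun q => c⁻¹ • q) hself).1
      (MulAction.injective c⁻¹).injOn
    have hsub : Pt L (c * x ^ n) ⊆ Pt L x := by
      intro q hq
      obtain ⟨q', hq', rfl⟩ := hbij.surjOn hq
      exact hcinv q' hq'
    have hset : {q : G ⧸ L | ∃ w : F, q = ((φ w * u⁻¹ : G) : G ⧸ L)} =
        {q | ∃ w : F, q = φ w • p} := by
      rw [hp]; rfl
    rw [hset]
    by_contra hinfp
    have hp1 : p ∈ P1 := ⟨hsub hpg, hinfp⟩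
    have hp2 : c⁻¹ • p ∈ P1 := by
      refine ⟨hcinv p hpg, ?_⟩
      have h1 : {q : G ⧸ L | ∃ w : F, q = φ w • c⁻¹ • p} = {q | ∃ w : F, q = φ w • p} := by
        ext q
        constructor
        · rintro ⟨w, rfl⟩
          exact ⟨w * (C0 * g0)⁻¹, by rw [map_mul, map_inv, ← hc, smul_smul]⟩
        · rintro ⟨w, rfl⟩
          exact ⟨w * (C0 * g0), by rw [map_mul, ← hc, smul_smul, mul_inv_cancel_right]⟩
      rw [h1]
      exact hinfp
    apply hc1 _ hp2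
    rwa [smul_inv_smul]

end Pool.Agent.TH993.J2321
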